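import Pool.Agent.H63.RP.IntB3

/-!
Twenty-three pairs: the case of intersecting six-cliques.
-/

set_option autoImplicit false
set_option linter.unusedSectionVars false
set_option maxRecDepth 100000

namespace Pool.Agent.H63.RP

open Pool.Agent.TH651.RP5

theorem E4_ok : EOK E4 where
  hC := by decide +kernel
  hNm := by decide +kernel
  hcm := by decide +kernel
  cov := by decide +kernel
  cand := by decide +kernel
  inc := by decide +kernel
  enum := by decide +kernel

section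

variable {X : Type} [Fintype X] [DecidableEq X] {g : SG X}

theorem no_int2 {A P : Finset X} {y : Ch X} (hA : A.image g.a = A) (hc : A.card = 24)
    (h : IntC g 3 A y) (hP : y P = 1) : False := by
  obtain ⟨hPc, hPcl, hPA⟩ := supp_one hA h.good hP
  have hc1 := sdiff_Q_card hA hPA hPcl
  have hA8 : (A \ (P ∪ P.image g.a)).image g.a = A \ (P ∪ P.image g.a) := A_inv g hA
  have h2 := h.desc hA hP
  have hd8 : Disjoint (A \ (P ∪ P.image g.a)) (P ∪ P.image g.a) := Finset.sdiff_disjoint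
  set A8 := A \ (P ∪ P.image g.a) with hA8def
  obtain ⟨T, hT⟩ := nz 2 A8 _ hA8 h2.good (by omega)
  obtain ⟨hTc, hTcl, hTA⟩ := supp_one hA8 h2.good hT
  have hc2 := sdiff_Q_card hA8 hTA hTcl
  have hA5 : (A8 \ (T ∪ T.image g.a)).image g.a = A8 \ (T ∪ T.image g.a) := A_inv g hA8
  have h1 := h2.desc hA8 hT
  obtain ⟨B, hBA, hBi, hBc, hB, hav⟩ := int_one hA5 (by omega) h1
  have hTQ : T ∪ T.image g.a ⊆ A8 := Q_sub hA8 hTA
  have hsub : ∀ E, D g P y E = 1 → E ⊆ (T ∪ T.image g.a) ∪ B := by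
    intro E hE z hz
    by_contra hcon
    rw [Finset.mem_union, not_or] at hcon
    obtain ⟨u, hu, h3⟩ := h2.meet E T hE hT
    rcases h3 with h3 | h3
    · exact hcon.2 (claim2 hA8 h2 hT hBi hB hav hu h3 hz hE hcon.1)
    · have hE' : D g P y (E.image g.a) = 1 := by
        have := congrFun h2.inv E
        simp only [act] at this
        rw [this]; exact hE
      have h4 := claim2 hA8 h2 hT hBi hB hav (Finset.mem_image_of_mem _ hu) h3
        (Finset.mem_image_of_mem _ hz) hE' (fun h5 => hcon.1 (a_mem_Q.mp h5))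
      have h5 := inv_mem hBi h4
      rw [g.ha] at h5
      exact hcon.2 h5
  set BB := (T ∪ T.image g.a) ∪ B with hBB
  have hBBi : BB.image g.a = BB := by
    rw [hBB, Finset.image_union, Q_inv g T, hBi]
  have hBBA : BB ⊆ A8 := Finset.union_subset hTQ (hBA.trans Finset.sdiff_subset)
  have hBBc : BB.card = 12 := by
    rw [hBB, Finset.card_union_of_disjoint, Q_card hTcl, hTc, hBc]
    exact (Finset.disjoint_of_subset_left hBA Finset.sdiff_disjoint).symm
  have hg := good_restrict hA8 (by omega) h2.good h2.inv hBBA hsub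
  obtain ⟨x, hx⟩ := thm_P6 hBBi hBBc hg
  have hf := full_ico hx hg
  have hcov : ∀ F ∈ E4.Fs, ∃ v ∈ P, Cvr g x E4.n v F := by
    intro F hF
    obtain ⟨v, hv, -, h3⟩ := cover_step (Good.supp g hA h.good) (hf F hF)
    exact ⟨v, hv, cov_of_adj (by decide +kernel) (Finset.Subset.refl _) h3⟩
  obtain ⟨k, hk, -⟩ := enum_step E4_ok hx hPcl (by rw [hPc]; rfl)
    (Finset.disjoint_of_subset_left hBBA hd8) hcov (by decide +kernel)
  have : E4.reps.length = 0 := rfl
  omega

theorem caseB {A : Finset X} (hA : A.image g.a = A) (hc : A.card = 46) {y : Ch X}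
    (hy : Good g 5 A y) (hno7 : ∀ F : Finset X, F.card = 7 → Clique g F → ¬ F ⊆ A)
    (hno6 : ∀ P Q : Finset X, P.card = 6 → Clique g P → P ⊆ A → Q.card = 6 → Clique g Q →
      Q ⊆ A \ (P ∪ P.image g.a) → False) : False := by
  have h5 : IntC g 5 A y := by
    refine ⟨hy, (Good.top g hy hno7).1, ?_⟩
    intro F G hF hG
    obtain ⟨a1, a2, a3⟩ := supp_one hA hy hF
    obtain ⟨b1, b2, b3⟩ := supp_one hA hy hG
    by_contra hcon
    refine hno6 G F b1 b2 b3 a1 a2 (fun u hu => ?_)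
    rw [Finset.mem_sdiff]
    refine ⟨a3 hu, fun h1 => hcon ⟨u, hu, ?_⟩⟩
    exact mem_Q.mp h1
  obtain ⟨P, hP⟩ := nz 5 A y hA hy (by omega)
  obtain ⟨hPc, hPcl, hPA⟩ := supp_one hA hy hP
  have hc1 := sdiff_Q_card hA hPA hPcl
  have hA1 : (A \ (P ∪ P.image g.a)).image g.a = A \ (P ∪ P.image g.a) := A_inv g hA
  have h4 := h5.desc hA hP
  obtain ⟨Q, hQ⟩ := nz 4 _ _ hA1 h4.good (by omega)
  obtain ⟨hQc, hQcl, hQA⟩ := supp_one hA1 h4.good hQ
  have hc2 := sdiff_Q_card hA1 hQA hQcl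
  have hA2 := A_inv g (P := Q) hA1
  have h3 := h4.desc hA1 hQ
  obtain ⟨R, hR⟩ := nz 3 _ _ hA2 h3.good (by omega)
  exact no_int2 hA2 (by omega) h3 hR

end

end Pool.Agent.H63.RP
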