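import Pool.Agent.H63.RP.T0
import Pool.Agent.H63.RP.J0_0
import Pool.Agent.H63.RP.J0_1
import Pool.Agent.H63.RP.J0_2
import Pool.Agent.H63.RP.J0_3
import Pool.Agent.H63.RP.J0_4
import Pool.Agent.H63.RP.T1
import Pool.Agent.H63.RP.J1_0
import Pool.Agent.H63.RP.J1_1
import Pool.Agent.H63.RP.J1_2
import Pool.Agent.H63.RP.J1_3
import Pool.Agent.H63.RP.J1_4
import Pool.Agent.H63.RP.J1_5
import Pool.Agent.H63.RP.J1_6
import Pool.Agent.H63.RP.T2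
import Pool.Agent.H63.RP.J2_0
import Pool.Agent.H63.RP.J2_1
import Pool.Agent.H63.RP.J2_2
import Pool.Agent.H63.RP.T3
import Pool.Agent.H63.RP.J3_0
import Pool.Agent.H63.RP.J3_1
import Pool.Agent.H63.RP.J3_2
import Pool.Agent.H63.RP.J3_3

/-!
The classification of the extensions of the four graphs with eleven pairs.
-/

set_option autoImplicit false
set_option maxRecDepth 100000
set_option maxHeartbeats 0

namespace Pool.Agent.H63.RP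

open Pool.Agent.TH651.RP5

theorem jobs_of {sd : SD} {reps : LT} {K : List ℕ} {L : List (List (ℕ × ℕ))}
    (hK : K = (L.flatten).map Prod.fst) (h : ∀ l ∈ L, l.all (fun p => sd.job reps p) = true) :
    ∀ κ ∈ K, ∃ s', sd.job reps (κ, s') = true := by
  intro κ hκ
  rw [hK, List.mem_map] at hκ
  obtain ⟨p, hp, rfl⟩ := hκ
  rw [List.mem_flatten] at hp
  obtain ⟨l, hl, hp⟩ := hp
  have h1 := h l hl
  rw [List.all_eq_true] at h1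
  exact ⟨p.2, h1 p hp⟩

def jls0 : List (List (ℕ × ℕ)) := [jl0_0_0, jl0_0_1, jl0_0_2, jl0_0_3, jl0_0_4, jl0_0_5, jl0_0_6, jl0_0_7, jl0_0_8, jl0_0_9, jl0_0_10, jl0_0_11, jl0_0_12, jl0_1_0, jl0_1_1, jl0_1_2, jl0_1_3, jl0_1_4, jl0_1_5, jl0_1_6, jl0_1_7, jl0_1_8, jl0_1_9, jl0_1_10, jl0_1_11, jl0_1_12, jl0_2_0, jl0_2_1, jl0_2_2, jl0_2_3, jl0_2_4, jl0_2_5, jl0_2_6, jl0_2_7, jl0_2_8, jl0_2_9, jl0_2_10, jl0_2_11, jl0_2_12, jl0_3_0, jl0_3_1, jl0_3_2, jl0_3_3, jl0_3_4, jl0_3_5, jl0_3_6, jl0_3_7, jl0_3_8, jl0_3_9, jl0_3_10, jl0_3_11, jl0_3_12, jl0_4_0, jl0_4_1, jl0_4_2, jl0_4_3, jl0_4_4, jl0_4_5, jl0_4_6, jl0_4_7, jl0_4_8, jl0_4_9, jl0_4_10]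

theorem K0_eq : K0 = (jls0.flatten).map Prod.fst := by decide +kernel

theorem jobs0 : ∀ κ ∈ K0, ∃ s', sd0.job repsU (κ, s') = true := by
  refine jobs_of K0_eq ?_
  intro l hl
  simp only [jls0, List.mem_cons, List.not_mem_nil, or_false] at hl
  rcases hl with rfl | rfl | rfl | rfl | rfl | rfl | rfl | rfl | rfl | rfl | rfl | rfl | rfl | rfl | rfl | rfl | rfl | rfl | rfl | rfl | rfl | rfl | rfl | rfl | rfl | rfl | rfl | rfl | rfl | rfl | rfl | rfl | rfl | rfl | rfl | rfl | rfl | rfl | rfl | rfl | rfl | rfl | rfl | rfl | rfl | rfl | rfl | rfl | rfl | rfl | rfl | rfl | rfl | rfl | rfl | rfl | rfl | rfl | rfl | rfl | rfl | rfl | rfl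
  · exact jl0_0_0_ok
  · exact jl0_0_1_ok
  · exact jl0_0_2_ok
  · exact jl0_0_3_ok
  · exact jl0_0_4_ok
  · exact jl0_0_5_ok
  · exact jl0_0_6_ok
  · exact jl0_0_7_ok
  · exact jl0_0_8_ok
  · exact jl0_0_9_ok
  · exact jl0_0_10_ok
  · exact jl0_0_11_ok
  · exact jl0_0_12_ok
  · exact jl0_1_0_ok
  · exact jl0_1_1_ok
  · exact jl0_1_2_ok
  · exact jl0_1_3_ok
  · exact jl0_1_4_ok
  · exact jl0_1_5_ok
  · exact jl0_1_6_ok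
  · exact jl0_1_7_ok
  · exact jl0_1_8_ok
  · exact jl0_1_9_ok
  · exact jl0_1_10_ok
  · exact jl0_1_11_ok
  · exact jl0_1_12_ok
  · exact jl0_2_0_ok
  · exact jl0_2_1_ok
  · exact jl0_2_2_ok
  · exact jl0_2_3_ok
  · exact jl0_2_4_ok
  · exact jl0_2_5_ok
  · exact jl0_2_6_ok
  · exact jl0_2_7_ok
  · exact jl0_2_8_ok
  · exact jl0_2_9_ok
  · exact jl0_2_10_ok
  · exact jl0_2_11_ok
  · exact jl0_2_12_ok
  · exact jl0_3_0_ok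
  · exact jl0_3_1_ok
  · exact jl0_3_2_ok
  · exact jl0_3_3_ok
  · exact jl0_3_4_ok
  · exact jl0_3_5_ok
  · exact jl0_3_6_ok
  · exact jl0_3_7_ok
  · exact jl0_3_8_ok
  · exact jl0_3_9_ok
  · exact jl0_3_10_ok
  · exact jl0_3_11_ok
  · exact jl0_3_12_ok
  · exact jl0_4_0_ok
  · exact jl0_4_1_ok
  · exact jl0_4_2_ok
  · exact jl0_4_3_ok
  · exact jl0_4_4_ok
  · exact jl0_4_5_ok
  · exact jl0_4_6_ok
  · exact jl0_4_7_ok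
  · exact jl0_4_8_ok
  · exact jl0_4_9_ok
  · exact jl0_4_10_ok

def jls1 : List (List (ℕ × ℕ)) := [jl1_0_0, jl1_0_1, jl1_0_2, jl1_0_3, jl1_0_4, jl1_0_5, jl1_0_6, jl1_0_7, jl1_0_8, jl1_0_9, jl1_0_10, jl1_0_11, jl1_0_12, jl1_0_13, jl1_1_0, jl1_1_1, jl1_1_2, jl1_1_3, jl1_1_4, jl1_1_5, jl1_1_6, jl1_1_7, jl1_1_8, jl1_1_9, jl1_1_10, jl1_1_11, jl1_1_12, jl1_1_13, jl1_2_0, jl1_2_1, jl1_2_2, jl1_2_3, jl1_2_4, jl1_2_5, jl1_2_6, jl1_2_7, jl1_2_8, jl1_2_9, jl1_2_10, jl1_2_11, jl1_2_12, jl1_3_0, jl1_3_1, jl1_3_2, jl1_3_3, jl1_3_4, jl1_3_5, jl1_3_6, jl1_3_7, jl1_3_8, jl1_3_9, jl1_3_10, jl1_3_11, jl1_3_12, jl1_3_13, jl1_4_0, jl1_4_1, jl1_4_2, jl1_4_3, jl1_4_4, jl1_4_5, jl1_4_6, jl1_4_7, jl1_4_8, jl1_4_9, jl1_4_10, jl1_4_11, jl1_4_12, jl1_4_13, jl1_5_0, jl1_5_1, jl1_5_2, jl1_5_3, jl1_5_4, jl1_5_5, jl1_5_6, jl1_5_7, jl1_5_8, jl1_5_9, jl1_5_10, jl1_5_11,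 jl1_5_12, jl1_6_0, jl1_6_1, jl1_6_2]

theorem K1_eq : K1 = (jls1.flatten).map Prod.fst := by decide +kernel

theorem jobs1 : ∀ κ ∈ K1, ∃ s', sd1.job repsU (κ, s') = true := by
  refine jobs_of K1_eq ?_
  intro l hl
  simp only [jls1, List.mem_cons, List.not_mem_nil, or_false] at hl
  rcases hl with rfl | rfl | rfl | rfl | rfl | rfl | rfl | rfl | rfl | rfl | rfl | rfl | rfl | rfl | rfl | rfl | rfl | rfl | rfl | rfl | rfl | rfl | rfl | rfl | rfl | rfl | rfl | rfl | rfl | rfl | rfl | rfl | rfl | rfl | rfl | rfl | rfl | rfl | rfl | rfl | rfl | rfl | rfl | rfl | rfl | rfl | rfl | rfl | rfl | rfl | rfl | rfl | rfl | rfl | rfl | rfl | rfl | rfl | rfl | rfl | rfl | rfl | rfl | rfl | rfl | rfl | rfl | rfl | rfl | rfl | rfl | rfl | rfl | rfl | rfl | rfl | rfl | rfl | rfl | rfl | rfl | rfl | rfl | rfl | rfl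
  · exact jl1_0_0_ok
  · exact jl1_0_1_ok
  · exact jl1_0_2_ok
  · exact jl1_0_3_ok
  · exact jl1_0_4_ok
  · exact jl1_0_5_ok
  · exact jl1_0_6_ok
  · exact jl1_0_7_ok
  · exact jl1_0_8_ok
  · exact jl1_0_9_ok
  · exact jl1_0_10_ok
  · exact jl1_0_11_ok
  · exact jl1_0_12_ok
  · exact jl1_0_13_ok
  · exact jl1_1_0_ok
  · exact jl1_1_1_ok
  · exact jl1_1_2_ok
  · exact jl1_1_3_ok
  · exact jl1_1_4_ok
  · exact jl1_1_5_ok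
  · exact jl1_1_6_ok
  · exact jl1_1_7_ok
  · exact jl1_1_8_ok
  · exact jl1_1_9_ok
  · exact jl1_1_10_ok
  · exact jl1_1_11_ok
  · exact jl1_1_12_ok
  · exact jl1_1_13_ok
  · exact jl1_2_0_ok
  · exact jl1_2_1_ok
  · exact jl1_2_2_ok
  · exact jl1_2_3_ok
  · exact jl1_2_4_ok
  · exact jl1_2_5_ok
  · exact jl1_2_6_ok
  · exact jl1_2_7_ok
  · exact jl1_2_8_ok
  · exact jl1_2_9_ok
  · exact jl1_2_10_ok
  · exact jl1_2_11_ok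
  · exact jl1_2_12_ok
  · exact jl1_3_0_ok
  · exact jl1_3_1_ok
  · exact jl1_3_2_ok
  · exact jl1_3_3_ok
  · exact jl1_3_4_ok
  · exact jl1_3_5_ok
  · exact jl1_3_6_ok
  · exact jl1_3_7_ok
  · exact jl1_3_8_ok
  · exact jl1_3_9_ok
  · exact jl1_3_10_ok
  · exact jl1_3_11_ok
  · exact jl1_3_12_ok
  · exact jl1_3_13_ok
  · exact jl1_4_0_ok
  · exact jl1_4_1_ok
  · exact jl1_4_2_ok
  · exact jl1_4_3_ok
  · exact jl1_4_4_ok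
  · exact jl1_4_5_ok
  · exact jl1_4_6_ok
  · exact jl1_4_7_ok
  · exact jl1_4_8_ok
  · exact jl1_4_9_ok
  · exact jl1_4_10_ok
  · exact jl1_4_11_ok
  · exact jl1_4_12_ok
  · exact jl1_4_13_ok
  · exact jl1_5_0_ok
  · exact jl1_5_1_ok
  · exact jl1_5_2_ok
  · exact jl1_5_3_ok
  · exact jl1_5_4_ok
  · exact jl1_5_5_ok
  · exact jl1_5_6_ok
  · exact jl1_5_7_ok
  · exact jl1_5_8_ok
  · exact jl1_5_9_ok
  · exact jl1_5_10_ok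
  · exact jl1_5_11_ok
  · exact jl1_5_12_ok
  · exact jl1_6_0_ok
  · exact jl1_6_1_ok
  · exact jl1_6_2_ok

def jls2 : List (List (ℕ × ℕ)) := [jl2_0_0, jl2_0_1, jl2_0_2, jl2_0_3, jl2_0_4, jl2_0_5, jl2_0_6, jl2_0_7, jl2_0_8, jl2_0_9, jl2_0_10, jl2_0_11, jl2_1_0, jl2_1_1, jl2_1_2, jl2_1_3, jl2_1_4, jl2_1_5, jl2_1_6, jl2_1_7, jl2_1_8, jl2_1_9, jl2_1_10, jl2_1_11, jl2_1_12, jl2_1_13, jl2_2_0, jl2_2_1, jl2_2_2, jl2_2_3, jl2_2_4, jl2_2_5]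

theorem K2_eq : K2 = (jls2.flatten).map Prod.fst := by decide +kernel

theorem jobs2 : ∀ κ ∈ K2, ∃ s', sd2.job repsU (κ, s') = true := by
  refine jobs_of K2_eq ?_
  intro l hl
  simp only [jls2, List.mem_cons, List.not_mem_nil, or_false] at hl
  rcases hl with rfl | rfl | rfl | rfl | rfl | rfl | rfl | rfl | rfl | rfl | rfl | rfl | rfl | rfl | rfl | rfl | rfl | rfl | rfl | rfl | rfl | rfl | rfl | rfl | rfl | rfl | rfl | rfl | rfl | rfl | rfl | rfl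
  · exact jl2_0_0_ok
  · exact jl2_0_1_ok
  · exact jl2_0_2_ok
  · exact jl2_0_3_ok
  · exact jl2_0_4_ok
  · exact jl2_0_5_ok
  · exact jl2_0_6_ok
  · exact jl2_0_7_ok
  · exact jl2_0_8_ok
  · exact jl2_0_9_ok
  · exact jl2_0_10_ok
  · exact jl2_0_11_ok
  · exact jl2_1_0_ok
  · exact jl2_1_1_ok
  · exact jl2_1_2_ok
  · exact jl2_1_3_ok
  · exact jl2_1_4_ok
  · exact jl2_1_5_ok
  · exact jl2_1_6_ok
  · exact jl2_1_7_ok
  · exact jl2_1_8_ok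
  · exact jl2_1_9_ok
  · exact jl2_1_10_ok
  · exact jl2_1_11_ok
  · exact jl2_1_12_ok
  · exact jl2_1_13_ok
  · exact jl2_2_0_ok
  · exact jl2_2_1_ok
  · exact jl2_2_2_ok
  · exact jl2_2_3_ok
  · exact jl2_2_4_ok
  · exact jl2_2_5_ok

def jls3 : List (List (ℕ × ℕ)) := [jl3_0_0, jl3_0_1, jl3_0_2, jl3_0_3, jl3_0_4, jl3_0_5, jl3_0_6, jl3_0_7, jl3_0_8, jl3_0_9, jl3_0_10, jl3_0_11, jl3_0_12, jl3_0_13, jl3_1_0, jl3_1_1, jl3_1_2, jl3_1_3, jl3_1_4, jl3_1_5, jl3_1_6, jl3_1_7, jl3_1_8, jl3_1_9, jl3_1_10, jl3_1_11, jl3_1_12, jl3_1_13, jl3_2_0, jl3_2_1, jl3_2_2, jl3_2_3, jl3_2_4, jl3_2_5, jl3_2_6, jl3_2_7, jl3_2_8, jl3_2_9, jl3_2_10, jl3_2_11, jl3_2_12, jl3_2_13, jl3_2_14, jl3_3_0, jl3_3_1, jl3_3_2, jl3_3_3, jl3_3_4]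

theorem K3_eq : K3 = (jls3.flatten).map Prod.fst := by decide +kernel

theorem jobs3 : ∀ κ ∈ K3, ∃ s', sd3.job repsU (κ, s') = true := by
  refine jobs_of K3_eq ?_
  intro l hl
  simp only [jls3, List.mem_cons, List.not_mem_nil, or_false] at hl
  rcases hl with rfl | rfl | rfl | rfl | rfl | rfl | rfl | rfl | rfl | rfl | rfl | rfl | rfl | rfl | rfl | rfl | rfl | rfl | rfl | rfl | rfl | rfl | rfl | rfl | rfl | rfl | rfl | rfl | rfl | rfl | rfl | rfl | rfl | rfl | rfl | rfl | rfl | rfl | rfl | rfl | rfl | rfl | rfl | rfl | rfl | rfl | rfl | rfl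
  · exact jl3_0_0_ok
  · exact jl3_0_1_ok
  · exact jl3_0_2_ok
  · exact jl3_0_3_ok
  · exact jl3_0_4_ok
  · exact jl3_0_5_ok
  · exact jl3_0_6_ok
  · exact jl3_0_7_ok
  · exact jl3_0_8_ok
  · exact jl3_0_9_ok
  · exact jl3_0_10_ok
  · exact jl3_0_11_ok
  · exact jl3_0_12_ok
  · exact jl3_0_13_ok
  · exact jl3_1_0_ok
  · exact jl3_1_1_ok
  · exact jl3_1_2_ok
  · exact jl3_1_3_ok
  · exact jl3_1_4_ok
  · exact jl3_1_5_ok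
  · exact jl3_1_6_ok
  · exact jl3_1_7_ok
  · exact jl3_1_8_ok
  · exact jl3_1_9_ok
  · exact jl3_1_10_ok
  · exact jl3_1_11_ok
  · exact jl3_1_12_ok
  · exact jl3_1_13_ok
  · exact jl3_2_0_ok
  · exact jl3_2_1_ok
  · exact jl3_2_2_ok
  · exact jl3_2_3_ok
  · exact jl3_2_4_ok
  · exact jl3_2_5_ok
  · exact jl3_2_6_ok
  · exact jl3_2_7_ok
  · exact jl3_2_8_ok
  · exact jl3_2_9_ok
  · exact jl3_2_10_ok
  · exact jl3_2_11_ok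
  · exact jl3_2_12_ok
  · exact jl3_2_13_ok
  · exact jl3_2_14_ok
  · exact jl3_3_0_ok
  · exact jl3_3_1_ok
  · exact jl3_3_2_ok
  · exact jl3_3_3_ok
  · exact jl3_3_4_ok

end Pool.Agent.H63.RP
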