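import Pool.Agent.H63.RP.Rain

/-!
Faces of good cycles found from partitions into cliques.
-/

set_option autoImplicit false
set_option linter.unusedSectionVars false

namespace Pool.Agent.H63.RP

open Pool.Agent.TH651.RP5

section

variable {X : Type} [Fintype X] [DecidableEq X] {g : SG X} {x : ℕ → X}

variable (g x) in
/-- `NB` codes adjacency of literals -/
def NBr (n NB : ℕ) : Prop := ∀ u < 2 * n, ∀ v < 2 * n,
  (NB.testBit (2 * n * u + v) = true ↔ g.Adj (lv g x n u) (lv g x n v))

theorem nbOK_sound {n : ℕ} {C : List ℕ} {NB : ℕ} (hi : Inj g x n) (hs : Sg g x n C)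
    (h : nbOK n C NB = true) : NBr g x n NB := by
  intro u hu v hv
  rw [nbOK, List.all_eq_true] at h
  have h1 := h u (List.mem_range.mpr hu)
  rw [List.all_eq_true] at h1
  have h2 := h1 v (List.mem_range.mpr hv)
  rw [beq_iff_eq] at h2
  rw [h2, lv_adj hi hs hu hv, Bool.and_eq_true, Bool.not_eq_true', Bool.not_eq_true',
    ← Bool.not_eq_true (Nat.beq _ _), beq_iff]

variable (g x) in
def pts (n : ℕ) (L : List ℕ) : Finset X := (L.map (lv g x n)).toFinset

theorem mem_pts {n : ℕ} {L : List ℕ} {v : X} : v ∈ pts g x n L ↔ ∃ u ∈ L, lv g x n u = v := by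
  rw [pts, List.mem_toFinset, List.mem_map]

theorem pts_clique {n NB : ℕ} (hNB : NBr g x n NB) {L : List ℕ}
    (h1 : ∀ u ∈ L, u < 2 * n)
    (h2 : L.Pairwise (fun u v => NB.testBit (2 * n * u + v) = true)) : Clique g (pts g x n L) := by
  have h3 : ∀ u ∈ L, ∀ v ∈ L, u ≠ v → g.Adj (lv g x n u) (lv g x n v) := by
    have h4 : L.Pairwise (fun u v => g.Adj (lv g x n u) (lv g x n v)) := by
      refine List.Pairwise.imp_of_mem ?_ h2
      intro a b ha hb hab
      exact (hNB a (h1 a ha) b (h1 b hb)).mp hab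
    intro u hu v hv huv
    have : Std.Symm (fun u v => g.Adj (lv g x n u) (lv g x n v)) := ⟨fun _ _ h => g.symm h⟩
    exact h4.forall hu hv huv
  intro a ha b hb hab
  rw [mem_pts] at ha hb
  obtain ⟨u, hu, rfl⟩ := ha
  obtain ⟨v, hv, rfl⟩ := hb
  exact h3 u hu v hv (fun e => hab (by rw [e]))

theorem mem_pts_pair {n : ℕ} {L : List ℕ} {v : X} :
    v ∈ pts g x n L ∪ (pts g x n L).image g.a ↔
      ∃ i ∈ L.map (pr n), v = x i ∨ v = g.a (x i) := by
  rw [Finset.mem_union, mem_image_iff g.ha, mem_pts, mem_pts]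
  constructor
  · rintro (⟨u, hu, rfl⟩ | ⟨u, hu, h⟩)
    · exact ⟨pr n u, List.mem_map_of_mem hu, lv_or⟩
    · refine ⟨pr n u, List.mem_map_of_mem hu, ?_⟩
      have h2 : v = g.a (lv g x n u) := by rw [h, g.ha]
      rcases lv_or (g := g) (x := x) (n := n) (u := u) with h3 | h3
      · right; rw [h2, h3]
      · left; rw [h2, h3, g.ha]
  · rintro ⟨i, hi, h⟩
    rw [List.mem_map] at hi
    obtain ⟨u, hu, rfl⟩ := hi
    rcases lv_or (g := g) (x := x) (n := n) (u := u) with h3 | h3
    · rcases h with h | h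
      · left; exact ⟨u, hu, by rw [h3, h]⟩
      · right; exact ⟨u, hu, by rw [h3, h, g.ha]⟩
    · rcases h with h | h
      · right; exact ⟨u, hu, by rw [h3, h]⟩
      · left; exact ⟨u, hu, by rw [h3, h]⟩

theorem mem_Uni_parts {n : ℕ} {parts : List (List ℕ)} {v : X} :
    v ∈ Uni g (parts.map (pts g x n)) ↔
      ∃ i ∈ parts.flatten.map (pr n), v = x i ∨ v = g.a (x i) := by
  rw [mem_Uni]
  constructor
  · rintro ⟨P, hP, hv⟩
    rw [List.mem_map] at hP
    obtain ⟨L, hL, rfl⟩ := hP
    rw [mem_pts_pair] at hv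
    obtain ⟨i, hi, h⟩ := hv
    rw [List.mem_map] at hi
    obtain ⟨u, hu, rfl⟩ := hi
    exact ⟨pr n u, List.mem_map_of_mem (List.mem_flatten.mpr ⟨L, hL, hu⟩), h⟩
  · rintro ⟨i, hi, h⟩
    rw [List.mem_map] at hi
    obtain ⟨u, hu, rfl⟩ := hi
    rw [List.mem_flatten] at hu
    obtain ⟨L, hL, hu⟩ := hu
    exact ⟨_, List.mem_map_of_mem hL, mem_pts_pair.mpr ⟨pr n u, List.mem_map_of_mem hu, h⟩⟩

theorem dis_parts {n : ℕ} (hi : Inj g x n) : ∀ {parts : List (List ℕ)},
    (parts.flatten.map (pr n)).Nodup → (∀ i ∈ parts.flatten.map (pr n), i < n) →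
    Dis g (parts.map (pts g x n)) := by
  intro parts
  induction parts with
  | nil => intro _ _; trivial
  | cons L parts ih =>
    intro h1 h2
    rw [List.flatten_cons, List.map_append] at h1 h2
    rw [List.nodup_append'] at h1
    obtain ⟨-, h3, h4⟩ := h1
    refine ⟨?_, ih h3 (fun i hi => h2 i (List.mem_append_right _ hi))⟩
    rw [Finset.disjoint_left]
    intro v hv hv2
    rw [mem_pts_pair] at hv
    have hv2' : v ∈ Uni g (parts.map (pts g x n)) := hv2
    rw [mem_Uni_parts] at hv2'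
    obtain ⟨i, hi1, hv⟩ := hv
    obtain ⟨j, hj1, hv2⟩ := hv2'
    have hij : i ≠ j := fun e => h4 hi1 (e ▸ hj1)
    have hi2 := h2 i (List.mem_append_left _ hi1)
    have hj2 := h2 j (List.mem_append_right _ hj1)
    have h5 := hi i hi2 j hj2 hij
    rcases hv with rfl | rfl
    · rcases hv2 with h | h
      · exact h5.1 h
      · exact h5.2 h
    · rcases hv2 with h | h
      · exact h5.2 (by rw [← h, g.ha])
      · exact h5.1 (g.ha.injective h)

theorem nodup_of_card {α : Type} [DecidableEq α] {l : List α} (h : l.toFinset.card = l.length) :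
    l.Nodup := by
  have h1 := (Multiset.toFinset_card_eq_card_iff_nodup (m := (l : Multiset α))).mp h
  exact Multiset.coe_nodup.mp h1

theorem forall2_map_inv {α β : Type} {f : α → β} : ∀ {vs : List β} {parts : List (List α)}
    (_ : List.Forall₂ (fun v L => ∃ u ∈ L, f u = v) vs parts),
    ∃ us : List α, List.Forall₂ (fun u L => u ∈ L) us parts ∧ us.map f = vs := by
  intro vs parts h
  induction h with
  | nil => exact ⟨[], List.Forall₂.nil, rfl⟩
  | cons h1 _ ih =>
    obtain ⟨us, h3, h4⟩ := ih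
    obtain ⟨u, hu, hu2⟩ := h1
    exact ⟨u :: us, List.Forall₂.cons hu h3, by rw [List.map_cons, hu2, h4]⟩

/-- a good cycle has a face given by the transversals of a partition -/
theorem part_face {n k NB : ℕ} {C : List ℕ} {A : Finset X} (hFr : Fr g x n C A)
    (hNB : NBr g x n NB) {y : Ch X} (hy : Good g k A y) {Fs : List ℕ}
    {parts : List (List ℕ)} (hlen : parts.length = k + 1) (hp : partOK n NB Fs parts = true) :
    ∃ F ∈ Fs, ∃ G : Finset X, y G = 1 ∧ ∀ u, F.testBit u = true → u < 2 * n ∧ lv g x n u ∈ G := by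
  rw [partOK, Bool.and_eq_true, Bool.and_eq_true, Bool.and_eq_true, beq_iff, beq_iff,
    List.all_eq_true, lens_eq] at hp
  obtain ⟨hp1, hp2, hp3, hp4⟩ := hp
  have hA : A.image g.a = A := by rw [← hFr.im]; exact img_inv n
  have hlt : ∀ L ∈ parts, ∀ u ∈ L, u < 2 * n := by
    intro L hL u hu
    have h1 := (clq_sound _ _ _ _ (hp1 L hL)).1 u hu
    rw [Nat.testBit_two_pow_sub_one, decide_eq_true_eq] at h1
    exact h1
  have hcl : ∀ P ∈ parts.map (pts g x n), Clique g P := by
    intro P hP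
    rw [List.mem_map] at hP
    obtain ⟨L, hL, rfl⟩ := hP
    exact pts_clique hNB (hlt L hL) (clq_sound _ _ _ _ (hp1 L hL)).2
  -- the pairs
  set S := parts.flatten.map (pr n) with hS
  have hSn : ∀ i ∈ S, i < n := by
    intro i hi
    rw [hS, List.mem_map] at hi
    obtain ⟨u, hu, rfl⟩ := hi
    rw [List.mem_flatten] at hu
    obtain ⟨L, hL, hu⟩ := hu
    exact pr_lt (hlt L hL u hu)
  have hSm : ∀ i < n, i ∈ S := by
    intro i hi
    have h1 : (Nat.land (Nat.lor (msks parts) (Nat.shiftRight (msks parts) n)) (2 ^ n - 1)).testBit i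
        = true := by
      rw [hp3, Nat.testBit_two_pow_sub_one, decide_eq_true_eq]; exact hi
    rw [testBit_land, Bool.and_eq_true, testBit_lor, Bool.or_eq_true, testBit_shr,
      testBit_msks, testBit_msks] at h1
    rw [hS, List.mem_map]
    rcases h1.1 with h2 | h2
    · exact ⟨i, h2, by unfold pr; rw [if_pos hi]⟩
    · exact ⟨n + i, h2, by unfold pr; rw [if_neg (by omega)]; omega⟩
  have hSl : S.length = n := by rw [hS, List.length_map]; exact hp2
  have hSnd : S.Nodup := by
    have h1 : S.toFinset = Finset.range n := by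
      ext i
      rw [List.mem_toFinset, Finset.mem_range]
      exact ⟨hSn i, hSm i⟩
    have h2 : S.toFinset.card = S.length := by rw [h1, Finset.card_range, hSl]
    exact nodup_of_card h2
  have hdis := dis_parts hFr.inj hSnd hSn
  have hU : A = Uni g (parts.map (pts g x n)) := by
    rw [← hFr.im]
    ext v
    rw [mem_img, mem_Uni_parts]
    constructor
    · rintro ⟨l, hl, rfl⟩
      refine ⟨l / 2, hSm _ (by omega), ?_⟩
      unfold lt
      split_ifs
      · exact Or.inl rfl
      · exact Or.inr rfl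
    · rintro ⟨i, hi, h⟩
      have := hSn i hi
      rcases h with rfl | rfl
      · exact ⟨2 * i, by omega, lt_even g x i⟩
      · exact ⟨2 * i + 1, by omega, lt_odd g x i⟩
  obtain ⟨vs, h1, h2⟩ := rainbow g (parts.map (pts g x n)) k A y (by rw [List.length_map, hlen])
    hcl hdis hU hy
  rw [List.forall₂_map_right_iff] at h1
  obtain ⟨us, h3, h4⟩ := forall2_map_inv (f := lv g x n)
    (List.Forall₂.imp (fun v L h => mem_pts.mp h) h1)
  have hne : y vs.toFinset ≠ 0 := by rw [h2]; exact one_ne_zero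
  obtain ⟨h5, h6, -⟩ := Good.supp g hA hy _ hne
  have hvl : vs.length = k + 1 := by rw [h1.length_eq, hlen]
  have hvn : vs.Nodup := nodup_of_card (by rw [h5, hvl])
  have hult : ∀ u ∈ us, u < 2 * n := by
    have : ∀ (us : List ℕ) (ps : List (List ℕ)), List.Forall₂ (fun u L => u ∈ L) us ps →
        (∀ L ∈ ps, ∀ u ∈ L, u < 2 * n) → ∀ u ∈ us, u < 2 * n := by
      intro us ps h
      induction h with
      | nil => intro _ u hu; exact absurd hu List.not_mem_nil
      | cons h1 _ ih =>
        intro h7 u hu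
        rcases List.mem_cons.mp hu with rfl | hu
        · exact h7 _ List.mem_cons_self _ h1
        · exact ih (fun L hL => h7 L (List.mem_cons_of_mem _ hL)) u hu
    exact this us parts h3 hlt
  have hpw : us.Pairwise (fun u v => NB.testBit (2 * n * u + v) = true) := by
    rw [← h4] at hvn h6
    have h8 : us.Pairwise (fun u v => lv g x n u ≠ lv g x n v) := List.pairwise_map.mp hvn
    refine List.Pairwise.imp_of_mem ?_ h8
    intro a b ha hb hab
    refine (hNB a (hult a ha) b (hult b hb)).mpr (h6 _ ?_ _ ?_ hab)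
    · exact List.mem_toFinset.mpr (List.mem_map_of_mem ha)
    · exact List.mem_toFinset.mpr (List.mem_map_of_mem hb)
  obtain ⟨F, hF, hF2⟩ := trv_sound _ _ _ _ _ _ hp4 us h3 (by
    intro u hu
    rw [Nat.testBit_two_pow_sub_one, decide_eq_true_eq]; exact hult u hu) hpw
  refine ⟨F, hF, vs.toFinset, h2, fun u hu => ?_⟩
  rcases hF2 u hu with h7 | h7
  · rw [Nat.zero_testBit] at h7; exact absurd h7 (by decide)
  · refine ⟨hult u h7, ?_⟩
    rw [List.mem_toFinset, ← h4]
    exact List.mem_map_of_mem h7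

variable (g x) in
/-- the vertex `v` is adjacent to all the vertices of the face `F` -/
def Cv (n : ℕ) (v : X) (F : ℕ) : Prop := ∀ u, F.testBit u = true → u < 2 * n ∧ g.Adj (lv g x n u) v

/-- coverage by the vertices of a clique, from a partition -/
theorem part_cover {n k NB : ℕ} {C : List ℕ} {A P : Finset X} (hA : A.image g.a = A)
    (hFr : Fr g x n C (A \ (P ∪ P.image g.a)))
    (hNB : NBr g x n NB) (hP : Clique g P) {y : Ch X} (hy : Good g (k + 1) A y) {Fs : List ℕ}
    {parts : List (List ℕ)} (hlen : parts.length = k + 1) (hp : partOK n NB Fs parts = true) :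
    ∃ F ∈ Fs, ∃ v ∈ P, Cv g x n v F := by
  obtain ⟨F, hF, G, hG, hG2⟩ := part_face hFr hNB (Good.desc g hP hy) hlen hp
  obtain ⟨v, hv, -, hv2⟩ := cover_step (Good.supp g hA hy) hG
  exact ⟨F, hF, v, hv, fun u hu => ⟨(hG2 u hu).1, hv2 _ (hG2 u hu).2⟩⟩

end

end Pool.Agent.H63.RP
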