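import Pool.Agent.H63.RP.DS0
import Pool.Agent.H63.RP.DS1
import Pool.Agent.H63.RP.DS2
import Pool.Agent.H63.RP.DS3
import Pool.Agent.H63.RP.DS4
import Pool.Agent.H63.RP.DS5
import Pool.Agent.H63.RP.DS6
import Pool.Agent.H63.RP.DS7
import Pool.Agent.H63.RP.Reps

/-!
All the refutations of the two-graphs with seventeen vertices.
-/

set_option autoImplicit false
set_option maxRecDepth 100000
set_option maxHeartbeats 0

namespace Pool.Agent.H63.RP

open DS

theorem fcons {p : RD → Prop} {a : RD} {l : List RD} (h : p a) (hl : ∀ d ∈ l, p d) :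
    ∀ d ∈ a :: l, p d := List.forall_mem_cons.mpr ⟨h, hl⟩

theorem fnil {p : RD → Prop} : ∀ d ∈ ([] : List RD), p d :=
  fun _ h => absurd h List.not_mem_nil

theorem fapp {p : RD → Prop} {l m : List RD} (h : ∀ d ∈ l, p d) (h' : ∀ d ∈ m, p d) :
    ∀ d ∈ l ++ m, p d := by
  intro d hd
  rcases List.mem_append.mp hd with h1 | h1
  · exact h d h1
  · exact h' d h1

def rl0 : List RD := [d0, d1, d2, d3, d4, d5, d6, d7, d8, d9, d10, d11, d12, d13, d14, d15, d16, d17, d18, d19, d20, d21, d22, d23, d24, d25, d26, d27, d28, d29, d30]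

theorem rl0_ok : ∀ d ∈ rl0, d.chk 17 6 4 = true :=
  fcons ok0 (fcons ok1 (fcons ok2 (fcons ok3 (fcons ok4 (fcons ok5 (fcons ok6 (fcons ok7 (fcons ok8 (fcons ok9 (fcons ok10 (fcons ok11 (fcons ok12 (fcons ok13 (fcons ok14 (fcons ok15 (fcons ok16 (fcons ok17 (fcons ok18 (fcons ok19 (fcons ok20 (fcons ok21 (fcons ok22 (fcons ok23 (fcons ok24 (fcons ok25 (fcons ok26 (fcons ok27 (fcons ok28 (fcons ok29 (fcons ok30 (fnil)))))))))))))))))))))))))))))))

def rl1 : List RD := [d31, d32, d33, d34, d35, d36, d37, d38, d39, d40, d41, d42, d43, d44, d45, d46, d47, d48, d49, d50, d51, d52, d53, d54, d55, d56, d57, d58, d59, d60, d61]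

theorem rl1_ok : ∀ d ∈ rl1, d.chk 17 6 4 = true :=
  fcons ok31 (fcons ok32 (fcons ok33 (fcons ok34 (fcons ok35 (fcons ok36 (fcons ok37 (fcons ok38 (fcons ok39 (fcons ok40 (fcons ok41 (fcons ok42 (fcons ok43 (fcons ok44 (fcons ok45 (fcons ok46 (fcons ok47 (fcons ok48 (fcons ok49 (fcons ok50 (fcons ok51 (fcons ok52 (fcons ok53 (fcons ok54 (fcons ok55 (fcons ok56 (fcons ok57 (fcons ok58 (fcons ok59 (fcons ok60 (fcons ok61 (fnil)))))))))))))))))))))))))))))))

def rl2 : List RD := [d62, d63, d64, d65, d66, d67, d68, d69, d70, d71, d72, d73, d74, d75, d76, d77, d78, d79, d80, d81, d82, d83, d84, d85, d86, d87, d88, d89, d90, d91, d92]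

theorem rl2_ok : ∀ d ∈ rl2, d.chk 17 6 4 = true :=
  fcons ok62 (fcons ok63 (fcons ok64 (fcons ok65 (fcons ok66 (fcons ok67 (fcons ok68 (fcons ok69 (fcons ok70 (fcons ok71 (fcons ok72 (fcons ok73 (fcons ok74 (fcons ok75 (fcons ok76 (fcons ok77 (fcons ok78 (fcons ok79 (fcons ok80 (fcons ok81 (fcons ok82 (fcons ok83 (fcons ok84 (fcons ok85 (fcons ok86 (fcons ok87 (fcons ok88 (fcons ok89 (fcons ok90 (fcons ok91 (fcons ok92 (fnil)))))))))))))))))))))))))))))))

def rl3 : List RD := [d93, d94, d95, d96, d97, d98, d99, d100, d101, d102, d103, d104, d105, d106, d107, d108, d109, d110, d111, d112, d113, d114, d115, d116, d117, d118, d119, d120, d121, d122, d123]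

theorem rl3_ok : ∀ d ∈ rl3, d.chk 17 6 4 = true :=
  fcons ok93 (fcons ok94 (fcons ok95 (fcons ok96 (fcons ok97 (fcons ok98 (fcons ok99 (fcons ok100 (fcons ok101 (fcons ok102 (fcons ok103 (fcons ok104 (fcons ok105 (fcons ok106 (fcons ok107 (fcons ok108 (fcons ok109 (fcons ok110 (fcons ok111 (fcons ok112 (fcons ok113 (fcons ok114 (fcons ok115 (fcons ok116 (fcons ok117 (fcons ok118 (fcons ok119 (fcons ok120 (fcons ok121 (fcons ok122 (fcons ok123 (fnil)))))))))))))))))))))))))))))))

def rl4 : List RD := [d124, d125, d126, d127, d128, d129, d130, d131, d132, d133, d134, d135, d136, d137, d138, d139, d140, d141, d142, d143, d144, d145, d146, d147, d148, d149, d150, d151, d152, d153, d154]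

theorem rl4_ok : ∀ d ∈ rl4, d.chk 17 6 4 = true :=
  fcons ok124 (fcons ok125 (fcons ok126 (fcons ok127 (fcons ok128 (fcons ok129 (fcons ok130 (fcons ok131 (fcons ok132 (fcons ok133 (fcons ok134 (fcons ok135 (fcons ok136 (fcons ok137 (fcons ok138 (fcons ok139 (fcons ok140 (fcons ok141 (fcons ok142 (fcons ok143 (fcons ok144 (fcons ok145 (fcons ok146 (fcons ok147 (fcons ok148 (fcons ok149 (fcons ok150 (fcons ok151 (fcons ok152 (fcons ok153 (fcons ok154 (fnil)))))))))))))))))))))))))))))))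

def rl5 : List RD := [d155, d156, d157, d158, d159, d160, d161, d162, d163, d164, d165, d166, d167, d168, d169, d170, d171, d172, d173, d174, d175, d176, d177, d178, d179, d180, d181, d182, d183, d184, d185]

theorem rl5_ok : ∀ d ∈ rl5, d.chk 17 6 4 = true :=
  fcons ok155 (fcons ok156 (fcons ok157 (fcons ok158 (fcons ok159 (fcons ok160 (fcons ok161 (fcons ok162 (fcons ok163 (fcons ok164 (fcons ok165 (fcons ok166 (fcons ok167 (fcons ok168 (fcons ok169 (fcons ok170 (fcons ok171 (fcons ok172 (fcons ok173 (fcons ok174 (fcons ok175 (fcons ok176 (fcons ok177 (fcons ok178 (fcons ok179 (fcons ok180 (fcons ok181 (fcons ok182 (fcons ok183 (fcons ok184 (fcons ok185 (fnil)))))))))))))))))))))))))))))))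

def rl6 : List RD := [d186, d187, d188, d189, d190, d191, d192, d193, d194, d195, d196, d197, d198, d199, d200, d201, d202, d203, d204, d205, d206, d207, d208, d209, d210, d211, d212, d213, d214, d215, d216]

theorem rl6_ok : ∀ d ∈ rl6, d.chk 17 6 4 = true :=
  fcons ok186 (fcons ok187 (fcons ok188 (fcons ok189 (fcons ok190 (fcons ok191 (fcons ok192 (fcons ok193 (fcons ok194 (fcons ok195 (fcons ok196 (fcons ok197 (fcons ok198 (fcons ok199 (fcons ok200 (fcons ok201 (fcons ok202 (fcons ok203 (fcons ok204 (fcons ok205 (fcons ok206 (fcons ok207 (fcons ok208 (fcons ok209 (fcons ok210 (fcons ok211 (fcons ok212 (fcons ok213 (fcons ok214 (fcons ok215 (fcons ok216 (fnil)))))))))))))))))))))))))))))))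

def rl7 : List RD := [d217, d218, d219, d220, d221, d222, d223, d224, d225, d226, d227, d228, d229, d230, d231, d232, d233, d234, d235, d236, d237, d238, d239, d240, d241, d242, d243]

theorem rl7_ok : ∀ d ∈ rl7, d.chk 17 6 4 = true :=
  fcons ok217 (fcons ok218 (fcons ok219 (fcons ok220 (fcons ok221 (fcons ok222 (fcons ok223 (fcons ok224 (fcons ok225 (fcons ok226 (fcons ok227 (fcons ok228 (fcons ok229 (fcons ok230 (fcons ok231 (fcons ok232 (fcons ok233 (fcons ok234 (fcons ok235 (fcons ok236 (fcons ok237 (fcons ok238 (fcons ok239 (fcons ok240 (fcons ok241 (fcons ok242 (fcons ok243 (fnil)))))))))))))))))))))))))))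

def rds : List RD := rl0 ++ (rl1 ++ (rl2 ++ (rl3 ++ (rl4 ++ (rl5 ++ (rl6 ++ rl7))))))

theorem rds_ok : ∀ d ∈ rds, d.chk 17 6 4 = true :=
  fapp rl0_ok (fapp rl1_ok (fapp rl2_ok (fapp rl3_ok (fapp rl4_ok (fapp rl5_ok (fapp rl6_ok rl7_ok))))))

theorem rds_C : rds.map RD.C = repsC := by decide +kernel

theorem rds_get {j : ℕ} (hj : j < repsC.length) :
    ∃ d : RD, d.C = repsC.getD j [] ∧ d.chk 17 6 4 = true := by
  have h1 : rds.length = repsC.length := by rw [← rds_C, List.length_map]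
  have hj' : j < rds.length := by omega
  refine ⟨rds[j], ?_, rds_ok _ (List.getElem_mem hj')⟩
  have h2 : (rds.map RD.C).getD j [] = repsC.getD j [] := by rw [rds_C]
  rw [← h2, List.getD_eq_getElem _ _ (by rw [List.length_map]; exact hj'), List.getElem_map]

end Pool.Agent.H63.RP
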