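import Pool.Graph.R_seed8.TH651.RP5.Enum

/-!
Covering trees: a kernel evaluated checker for case distinctions on the rows of signs of a clique.
-/

set_option autoImplicit false

namespace Pool.Agent.H63.RP

open Pool.Agent.TH651.RP5 (st st_eq bc bc_true bc_false bc_eq beq_iff exists_common)

/-- binary trees of lists -/
inductive LT
  | lf
  | nd (l : LT) (v : List ℕ) (r : LT)

noncomputable def LT.get (t : LT) : ℕ → List ℕ :=
  LT.rec (motive := fun _ => ℕ → List ℕ) (fun _ => [])
    (fun _ v _ gl gr i => Bool.rec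
      (Bool.rec (st (Nat.pred (Nat.shiftRight i (nat_lit 1))) gr) (st (Nat.shiftRight i (nat_lit 1)) gl)
        (Nat.beq (Nat.land i (nat_lit 1)) (nat_lit 1))) v (Nat.beq i (nat_lit 0))) t

/-- exchange of the two halves -/
noncomputable def swp (n mk F : ℕ) : ℕ :=
  Nat.lor (Nat.shiftRight F n) (Nat.shiftLeft (Nat.land F mk) n)

/-- the marker `2 ^ 400` -/
def mrk : ℕ := nat_lit 2582249878086908589655919172003011874329705792829223512830659356540647622016841194629645353280137831435903171972747493376

/-- the number of alternatives which are still possible, and the possible alternative -/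
noncomputable def scanF (n mk κ F : ℕ) (offs : List ℕ) (z : ℕ) : ℕ :=
  List.rec (motive := fun _ => ℕ) z
    (fun off _ ih => Bool.rec ih (Nat.add (Nat.add (Nat.shiftLeft (swp n mk F) off) mrk) ih)
      (Nat.beq (Nat.land (Nat.shiftRight κ off) F) (nat_lit 0))) offs

noncomputable def scan (n mk κ : ℕ) (offs Fs : List ℕ) : ℕ :=
  List.rec (motive := fun _ => ℕ) (nat_lit 0) (fun F _ ih => scanF n mk κ F offs ih) Fs

noncomputable def run (n mk nc : ℕ) (offs : List ℕ) (tb : LT)
    (leaf : ℕ → ℕ → ℕ → (ℕ → Bool) → Bool) (fuel : ℕ) : ℕ → ℕ → (ℕ → Bool) → Bool :=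
  Nat.rec (motive := fun _ => ℕ → ℕ → (ℕ → Bool) → Bool) (fun _ _ _ => false)
    (fun _ ih κ s k =>
      st (Nat.land s (nat_lit 1023)) (fun t => st (Nat.shiftRight s (nat_lit 10)) (fun s' =>
        bc (Nat.ble t nc)
          (st (scan n mk κ offs (tb.get t)) (fun R =>
            bc (Nat.ble mrk R)
              (bc (Nat.ble (Nat.sub R mrk) (Nat.pred mrk))
                (st (Nat.lor κ (Nat.sub R mrk)) (fun κ' => ih κ' s' k)) false) (k s')))
          (bc (Nat.ble (nat_lit 1000) t) (leaf t κ s' k)
            (st (Nat.sub t (nat_lit 512)) (fun t' => st (Nat.add t' (Nat.mul n (Nat.div t' n)))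
              (fun i => st (Nat.lor κ (Nat.shiftLeft (nat_lit 1) i)) (fun κ0 =>
              ih κ0 s' (fun s'' => st (Nat.lor κ (Nat.shiftLeft (nat_lit 1) (Nat.add i n)))
                (fun κ1 => ih κ1 s'' k)))))))))) fuel

/-! ### soundness -/

def swi (n u : ℕ) : ℕ := if u < n then u + n else u - n

def Cons (κ : ℕ) (val : ℕ → Bool) : Prop := ∀ t, κ.testBit t = true → val t = true

def Hold (n : ℕ) (val : ℕ → Bool) (off F : ℕ) : Prop :=
  ∀ u, F.testBit u = true → u < 2 * n ∧ val (off + swi n u) = true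

structure Adm (n nc : ℕ) (offs : List ℕ) (tb : LT) (val : ℕ → Bool) : Prop where
  neg : ∀ b i, i < n → val (2 * n * b + (i + n)) = !val (2 * n * b + i)
  off : ∀ o ∈ offs, ∃ b, o = 2 * n * b
  cl : ∀ c ≤ nc, ∃ F ∈ tb.get c, ∃ o ∈ offs, Hold n val o F

theorem Cons.lor {a b : ℕ} {val : ℕ → Bool} (ha : Cons a val) (hb : Cons b val) :
    Cons (Nat.lor a b) val := by
  intro t ht
  have h : (a ||| b).testBit t = true := ht
  rw [Nat.testBit_or, Bool.or_eq_true] at h
  rcases h with h | h
  · exact ha t h
  · exact hb t h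

theorem Cons.shift_one {i : ℕ} {val : ℕ → Bool} (h : val i = true) :
    Cons (Nat.shiftLeft 1 i) val := by
  intro t ht
  have h1 : (1 <<< i).testBit t = true := ht
  rw [Nat.testBit_shiftLeft, Bool.and_eq_true, decide_eq_true_eq] at h1
  obtain ⟨h2, h3⟩ := h1
  have h4 : t - i = 0 := by
    by_contra hne
    rw [Nat.testBit_one_eq_true_iff_self_eq_zero] at h3
    exact hne h3
  have : t = i := by omega
  rw [this]; exact h

theorem dead {n nc : ℕ} {offs : List ℕ} {tb : LT} {val : ℕ → Bool} (hA : Adm n nc offs tb val)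
    {κ o F : ℕ} (hκ : Cons κ val) (ho : o ∈ offs) (hF : Hold n val o F) :
    Nat.land (Nat.shiftRight κ o) F = 0 := by
  by_contra hne
  obtain ⟨l, h1, h2⟩ := exists_common (a := κ >>> o) (b := F) hne
  rw [Nat.testBit_shiftRight] at h1
  have h3 := hκ _ h1
  obtain ⟨h4, h5⟩ := hF l h2
  obtain ⟨b, rfl⟩ := hA.off o ho
  unfold swi at h5
  split_ifs at h5 with h6
  · rw [hA.neg b l h6, h3] at h5
    exact absurd h5 (by decide)
  · have h7 := hA.neg b (l - n) (by omega)
    have h8 : 2 * n * b + (l - n + n) = 2 * n * b + l := by omega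
    rw [h8, h3, h5] at h7
    exact absurd h7 (by decide)

theorem upd {n : ℕ} {val : ℕ → Bool} {o F : ℕ} (hF : Hold n val o F) :
    Cons (Nat.shiftLeft (swp n (2 ^ n - 1) F) o) val := by
  intro t ht
  have h1 : (((F >>> n) ||| ((F &&& (2 ^ n - 1)) <<< n)) <<< o).testBit t = true := ht
  rw [Nat.testBit_shiftLeft, Bool.and_eq_true, decide_eq_true_eq, Nat.testBit_or,
    Bool.or_eq_true, Nat.testBit_shiftRight, Nat.testBit_shiftLeft, Bool.and_eq_true,
    decide_eq_true_eq, Nat.testBit_and, Bool.and_eq_true, Nat.testBit_two_pow_sub_one,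
    decide_eq_true_eq] at h1
  obtain ⟨h2, h3⟩ := h1
  rcases h3 with h3 | ⟨h3, h4, h5⟩
  · obtain ⟨h6, h7⟩ := hF _ h3
    unfold swi at h7
    rw [if_neg (by omega)] at h7
    have : o + (n + (t - o) - n) = t := by omega
    rwa [this] at h7
  · obtain ⟨h6, h7⟩ := hF _ h4
    unfold swi at h7
    rw [if_pos h5] at h7
    have : o + (t - o - n + n) = t := by omega
    rwa [this] at h7

theorem scanF_cons (n mk κ F o : ℕ) (offs : List ℕ) (z : ℕ) :
    scanF n mk κ F (o :: offs) z = if Nat.land (Nat.shiftRight κ o) F = 0 then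
      (Nat.shiftLeft (swp n mk F) o + mrk) + scanF n mk κ F offs z else scanF n mk κ F offs z := by
  have e : scanF n mk κ F (o :: offs) z = Bool.rec (scanF n mk κ F offs z)
    (Nat.add (Nat.add (Nat.shiftLeft (swp n mk F) o) mrk) (scanF n mk κ F offs z))
      (Nat.beq (Nat.land (Nat.shiftRight κ o) F) 0) := rfl
  rw [e]
  by_cases h : Nat.land (Nat.shiftRight κ o) F = 0
  · rw [if_pos h, (beq_iff _ _).mpr h]
    rfl
  · rw [if_neg h]
    have : Nat.beq (Nat.land (Nat.shiftRight κ o) F) 0 = false := by
      rw [← Bool.not_eq_true, beq_iff]; exact h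
    rw [this]

/-- `R` exceeds `z` by nothing or by at least one marker -/
def Gap (z R : ℕ) : Prop := R = z ∨ z + mrk ≤ R

theorem Gap.refl (z : ℕ) : Gap z z := Or.inl rfl

theorem Gap.trans {a b c : ℕ} (h1 : Gap a b) (h2 : Gap b c) : Gap a c := by
  rcases h1 with rfl | h1
  · exact h2
  · rcases h2 with rfl | h2
    · exact Or.inr h1
    · exact Or.inr (by omega)

theorem scanF_gap (n mk κ F : ℕ) (offs : List ℕ) (z : ℕ) : Gap z (scanF n mk κ F offs z) := by
  induction offs with
  | nil => exact Gap.refl z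
  | cons o offs ih =>
    rw [scanF_cons]
    split_ifs
    · exact ih.trans (Or.inr (by omega))
    · exact ih

theorem scanF_mem {n mk κ F : ℕ} {o : ℕ} (h : Nat.land (Nat.shiftRight κ o) F = 0) :
    ∀ (offs : List ℕ), o ∈ offs → ∀ z,
    Gap (Nat.shiftLeft (swp n mk F) o + mrk + z) (scanF n mk κ F offs z) := by
  intro offs
  induction offs with
  | nil => intro ho; exact absurd ho List.not_mem_nil
  | cons o' offs ih =>
    intro ho z
    rw [scanF_cons]
    rcases List.mem_cons.mp ho with rfl | ho
    · rw [if_pos h]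
      rcases scanF_gap n mk κ F offs z with h1 | h1
      · rw [h1]; exact Gap.refl _
      · exact Or.inr (by omega)
    · split_ifs
      · exact (ih ho z).trans (Or.inr (by omega))
      · exact ih ho z

theorem scan_cons (n mk κ : ℕ) (offs Fs : List ℕ) (F : ℕ) :
    scan n mk κ offs (F :: Fs) = scanF n mk κ F offs (scan n mk κ offs Fs) := rfl

theorem scan_gap (n mk κ : ℕ) (offs Fs : List ℕ) : Gap 0 (scan n mk κ offs Fs) := by
  induction Fs with
  | nil => exact Gap.refl 0
  | cons F Fs ih => rw [scan_cons]; exact ih.trans (scanF_gap _ _ _ _ _ _)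

theorem scan_mem {n mk κ F o : ℕ} (h : Nat.land (Nat.shiftRight κ o) F = 0) {offs : List ℕ}
    (ho : o ∈ offs) : ∀ Fs : List ℕ, F ∈ Fs →
    Gap (Nat.shiftLeft (swp n mk F) o + mrk) (scan n mk κ offs Fs) := by
  intro Fs
  induction Fs with
  | nil => intro hF; exact absurd hF List.not_mem_nil
  | cons F' Fs ih =>
    intro hF
    rw [scan_cons]
    rcases List.mem_cons.mp hF with rfl | hF
    · have h1 := scanF_mem (n := n) (mk := mk) h offs ho (scan n mk κ offs Fs)
      rcases scan_gap n mk κ offs Fs with h2 | h2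
      · rw [h2, add_zero] at h1
        rw [h2]; exact h1
      · refine Gap.trans (Or.inr ?_) h1
        omega
    · exact (ih hF).trans (scanF_gap _ _ _ _ _ _)

theorem mrk_pos : 0 < mrk := by decide +kernel

theorem run_succ (n mk nc : ℕ) (offs : List ℕ) (tb : LT)
    (leaf : ℕ → ℕ → ℕ → (ℕ → Bool) → Bool) (fuel κ s : ℕ) (k : ℕ → Bool) :
    run n mk nc offs tb leaf (fuel + 1) κ s k =
      (if s % 1024 ≤ nc then
        (if mrk ≤ scan n mk κ offs (tb.get (s % 1024)) then
          (if scan n mk κ offs (tb.get (s % 1024)) - mrk ≤ mrk - 1 then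
            run n mk nc offs tb leaf fuel
              (Nat.lor κ (scan n mk κ offs (tb.get (s % 1024)) - mrk)) (s / 1024) k
            else false)
          else k (s / 1024))
        else if 1000 ≤ s % 1024 then leaf (s % 1024) κ (s / 1024) k
        else run n mk nc offs tb leaf fuel (Nat.lor κ (Nat.shiftLeft 1
            ((s % 1024 - 512) + n * ((s % 1024 - 512) / n)))) (s / 1024) (fun s'' =>
          run n mk nc offs tb leaf fuel (Nat.lor κ (Nat.shiftLeft 1
            ((s % 1024 - 512) + n * ((s % 1024 - 512) / n) + n))) s'' k)) := by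
  have e1 : Nat.land s 1023 = s % 1024 := Nat.and_two_pow_sub_one_eq_mod s 10
  have e2 : Nat.shiftRight s 10 = s / 1024 := Nat.shiftRight_eq_div_pow s 10
  have e : run n mk nc offs tb leaf (fuel + 1) κ s k =
      st (Nat.land s 1023) (fun t => st (Nat.shiftRight s 10) (fun s' =>
        bc (Nat.ble t nc)
          (st (scan n mk κ offs (tb.get t)) (fun R =>
            bc (Nat.ble mrk R)
              (bc (Nat.ble (Nat.sub R mrk) (Nat.pred mrk))
                (st (Nat.lor κ (Nat.sub R mrk)) (fun κ' =>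
                  run n mk nc offs tb leaf fuel κ' s' k)) false) (k s')))
          (bc (Nat.ble 1000 t) (leaf t κ s' k)
            (st (Nat.sub t 512) (fun t' => st (Nat.add t' (Nat.mul n (Nat.div t' n)))
              (fun i => st (Nat.lor κ (Nat.shiftLeft 1 i)) (fun κ0 =>
              run n mk nc offs tb leaf fuel κ0 s' (fun s'' =>
                st (Nat.lor κ (Nat.shiftLeft 1 (Nat.add i n)))
                (fun κ1 => run n mk nc offs tb leaf fuel κ1 s'' k))))))))) := rfl
  rw [e]
  simp only [st_eq, bc_eq, Nat.ble_eq, e1, e2]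
  rfl

theorem run_sound {n nc : ℕ} {offs : List ℕ} {tb : LT}
    {leaf : ℕ → ℕ → ℕ → (ℕ → Bool) → Bool} {A P : (ℕ → Bool) → Prop} (hn : 0 < n)
    (hA : ∀ val, A val → Adm n nc offs tb val)
    (hleaf : ∀ t κ s k, leaf t κ s k = true →
      (∀ val, A val → Cons κ val → P val) ∧ ∃ s', k s' = true) :
    ∀ fuel κ s k, run n (2 ^ n - 1) nc offs tb leaf fuel κ s k = true →
      (∀ val, A val → Cons κ val → P val) ∧ ∃ s', k s' = true := by
  intro fuel
  induction fuel with
  | zero => intro κ s k h; exact absurd h (by simp [run])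
  | succ fuel ih =>
    intro κ s k h
    rw [run_succ] at h
    by_cases h1 : s % 1024 ≤ nc
    · rw [if_pos h1] at h
      have key : ∀ val, A val → Cons κ val → ∃ um, Cons um val ∧
          Gap (um + mrk) (scan n (2 ^ n - 1) κ offs (tb.get (s % 1024))) := by
        intro val hv hc
        obtain ⟨F, hF, o, ho, hold⟩ := (hA val hv).cl _ h1
        exact ⟨_, upd hold, scan_mem (dead (hA val hv) hc ho hold) ho _ hF⟩
      have hm := mrk_pos
      by_cases h2 : mrk ≤ scan n (2 ^ n - 1) κ offs (tb.get (s % 1024))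
      · rw [if_pos h2] at h
        by_cases h3 : scan n (2 ^ n - 1) κ offs (tb.get (s % 1024)) - mrk ≤ mrk - 1
        · rw [if_pos h3] at h
          obtain ⟨h4, h5⟩ := ih _ _ _ h
          refine ⟨fun val hv hc => h4 val hv (hc.lor ?_), h5⟩
          obtain ⟨um, hum, hg⟩ := key val hv hc
          rcases hg with hg | hg
          · rw [hg, Nat.add_sub_cancel]; exact hum
          · omega
        · rw [if_neg h3] at h; exact absurd h (by decide)
      · rw [if_neg h2] at h
        refine ⟨fun val hv hc => ?_, _, h⟩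
        obtain ⟨um, hum, hg⟩ := key val hv hc
        rcases hg with hg | hg <;> omega
    · rw [if_neg h1] at h
      by_cases h2 : 1000 ≤ s % 1024
      · rw [if_pos h2] at h
        exact hleaf _ _ _ _ h
      · rw [if_neg h2] at h
        obtain ⟨h3, s', h4⟩ := ih _ _ _ h
        obtain ⟨h5, h6⟩ := ih _ _ _ h4
        refine ⟨fun val hv hc => ?_, h6⟩
        set t' := s % 1024 - 512 with ht'
        have hneg := (hA val hv).neg (t' / n) (t' % n) (Nat.mod_lt _ hn)
        have e1 : 2 * n * (t' / n) + t' % n = t' + n * (t' / n) := by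
          have h7 := Nat.div_add_mod t' n
          have h8 : 2 * n * (t' / n) = n * (t' / n) + n * (t' / n) := by ring
          omega
        have e2 : 2 * n * (t' / n) + (t' % n + n) = t' + n * (t' / n) + n := by omega
        rw [e1, e2] at hneg
        cases hval : val (t' + n * (t' / n))
        · rw [hval, Bool.not_false] at hneg
          exact h5 val hv (hc.lor (Cons.shift_one hneg))
        · exact h3 val hv (hc.lor (Cons.shift_one hval))

end Pool.Agent.H63.RP
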