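import Pool.Agent.H63.RP.Class
import Pool.Agent.H63.RP.DSall
import Pool.Agent.H63.RP.DT
import Pool.Agent.H63.RP.CaseB
import Pool.Graph.R_seed8.TH651.RP5.Final

/-!
At most twenty-three pairs do not carry a good cycle of dimension five.
-/

set_option autoImplicit false
set_option linter.unusedSectionVars false
set_option maxRecDepth 100000

namespace Pool.Agent.H63.RP

open Pool.Agent.TH651.RP5

section

variable {X : Type} [Fintype X] [DecidableEq X] {g : SG X}

/-- the case of a seven-clique -/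
theorem caseC {A P : Finset X} (hA : A.image g.a = A) (hc : A.card = 46) {y : Ch X}
    (hy : Good g 5 A y) (hP : Clique g P) (hPc : P.card = 7) (hPA : P ⊆ A) : False := by
  have hc1 := sdiff_Q_card hA hPA hP
  have hA1 : (A \ (P ∪ P.image g.a)).image g.a = A \ (P ∪ P.image g.a) := A_inv g hA
  obtain ⟨x, hx⟩ := thm_T16 hA1 (by omega) (Good.desc g hP hy)
  have hC : dt16.C = T16 := by decide +kernel
  exact RD.refutes dt16_ok (by norm_num) hA (by rw [hC]; exact hx) hP hPc hy

/-- classification of the two-graphs with seventeen vertices -/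
theorem thm_17 {A Q : Finset X} (hA : A.image g.a = A) (hc : A.card = 34) {y : Ch X}
    (hy : Good g 4 A y) (hQ : Clique g Q) (hQc : Q.card = 6) (hQA : Q ⊆ A) : Res g repsC A := by
  have hc1 := sdiff_Q_card hA hQA hQ
  have hA1 : (A \ (Q ∪ Q.image g.a)).image g.a = A \ (Q ∪ Q.image g.a) := A_inv g hA
  have hy3 := Good.desc g hQ hy
  set A11 := A \ (Q ∪ Q.image g.a) with hA11
  obtain ⟨R, hRc, hR, hRA⟩ := thm_beta hA1 (by omega) hy3
  have hc2 := sdiff_Q_card hA1 hRA hR
  have hA2 : (A11 \ (R ∪ R.image g.a)).image g.a = A11 \ (R ∪ R.image g.a) := A_inv g hA1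
  have hy2 := Good.desc g hR hy3
  obtain ⟨x, hx⟩ := thm_P6 hA2 (by omega) hy2
  have hf := full_ico hx hy2
  have hcov : ∀ F ∈ E3.Fs, ∃ v ∈ R, Cvr g x E3.n v F := by
    intro F hF
    obtain ⟨v, hv, -, h3⟩ := cover_step (Good.supp g hA1 hy3) (hf F hF)
    exact ⟨v, hv, cov_of_adj (by decide +kernel) (Finset.Subset.refl _) h3⟩
  obtain ⟨k, hk, x', hx'⟩ := enum_step E3_ok hx hR hRc Finset.sdiff_disjoint hcov
    (by decide +kernel)
  rw [sdiff_union_Q hA1 hRA] at hx'
  have hk4 : k < 4 := by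
    have : E3.reps.length = 4 := by decide +kernel
    omega
  have hcs : k = 0 ∨ k = 1 ∨ k = 2 ∨ k = 3 := by omega
  have hr := repsOK_of reps_ok
  rcases hcs with rfl | rfl | rfl | rfl
  · have hC : E3.reps.getD 0 [] = sd0.C := by decide +kernel
    rw [hC] at hx'
    exact SD.classify hr sd0_ok jobs0 top0 hA hQ hQA hQc hx' hy
  · have hC : E3.reps.getD 1 [] = sd1.C := by decide +kernel
    rw [hC] at hx'
    exact SD.classify hr sd1_ok jobs1 top1 hA hQ hQA hQc hx' hy
  · have hC : E3.reps.getD 2 [] = sd2.C := by decide +kernel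
    rw [hC] at hx'
    exact SD.classify hr sd2_ok jobs2 top2 hA hQ hQA hQc hx' hy
  · have hC : E3.reps.getD 3 [] = sd3.C := by decide +kernel
    rw [hC] at hx'
    exact SD.classify hr sd3_ok jobs3 top3 hA hQ hQA hQc hx' hy

/-- the case of two disjoint six-cliques -/
theorem caseA6 {A P Q : Finset X} (hA : A.image g.a = A) (hc : A.card = 46) {y : Ch X}
    (hy : Good g 5 A y) (hP : Clique g P) (hPc : P.card = 6) (hPA : P ⊆ A) (hQ : Clique g Q)
    (hQc : Q.card = 6) (hQA : Q ⊆ A \ (P ∪ P.image g.a)) : False := by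
  have hc1 := sdiff_Q_card hA hPA hP
  have hA1 : (A \ (P ∪ P.image g.a)).image g.a = A \ (P ∪ P.image g.a) := A_inv g hA
  obtain ⟨j, hj, x, hx⟩ := thm_17 hA1 (by omega) (Good.desc g hP hy) hQ hQc hQA
  obtain ⟨d, hd1, hd2⟩ := rds_get hj
  exact RD.refutes hd2 (by norm_num) hA (by rw [hd1]; exact hx) hP hPc hy

/-- twenty-three pairs -/
theorem thm_23 {A : Finset X} (hA : A.image g.a = A) (hc : A.card = 46) {y : Ch X}
    (hy : Good g 5 A y) : False := by
  by_cases h7 : ∃ P : Finset X, P.card = 7 ∧ Clique g P ∧ P ⊆ A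
  · obtain ⟨P, h1, h2, h3⟩ := h7
    exact caseC hA hc hy h2 h1 h3
  · refine caseB hA hc hy (fun F h1 h2 h3 => h7 ⟨F, h1, h2, h3⟩) ?_
    intro P Q a1 a2 a3 b1 b2 b3
    exact caseA6 hA hc hy a2 a1 a3 b2 b1 b3

theorem Good.mono' {k : ℕ} {A B : Finset X} {y : Ch X} (h : Good g k A y) (hAB : A ⊆ B) :
    Good g k B y := by
  obtain ⟨c, r, hc, hr, hy⟩ := h
  exact ⟨c, r, ⟨fun j hj => Supp.mono' (hc.supp j hj) hAB, hc.step, hc.base⟩,
    Supp.mono' hr hAB, hy⟩

def t16cov : Bool := (List.range 16).all (fun i =>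
  FT16.any (fun F => F.testBit (2 * i) || F.testBit (2 * i + 1)))

theorem t16cov_ok : t16cov = true := by decide +kernel

/-- twenty-one pairs -/
theorem thm_21 {A : Finset X} (hA : A.image g.a = A) (hc : A.card = 42) {y : Ch X}
    (hy : Good g 5 A y) : False := by
  obtain ⟨P, hPc, hP, hPA⟩ := Good.exists_clique g hy
  have hc1 := sdiff_Q_card hA hPA hP
  have hA1 : (A \ (P ∪ P.image g.a)).image g.a = A \ (P ∪ P.image g.a) := A_inv g hA
  have hy4 := Good.desc g hP hy
  obtain ⟨v, hv⟩ : P.Nonempty := by rw [← Finset.card_pos]; omega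
  set A15 := A \ (P ∪ P.image g.a) with hA15
  have hv15 : v ∉ A15 := fun h => (Finset.mem_sdiff.mp h).2 (Finset.mem_union_left _ hv)
  have hav15 : g.a v ∉ A15 := by
    intro h
    have := inv_mem hA1 h
    rw [g.ha] at this
    exact hv15 this
  have hcl : Clique g ({v} : Finset X) := clique_single v
  have hQ : ({v} ∪ ({v} : Finset X).image g.a).card = 2 := by
    rw [Q_card hcl, Finset.card_singleton]
  have hdis : Disjoint A15 ({v} ∪ ({v} : Finset X).image g.a) := by
    rw [Finset.disjoint_right]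
    intro u hu
    rw [mem_Q, Finset.mem_singleton, Finset.mem_singleton] at hu
    rcases hu with rfl | hu
    · exact hv15
    · intro h
      have := inv_mem hA1 h
      rw [hu] at this
      exact hv15 this
  set A16 := A15 ∪ ({v} ∪ ({v} : Finset X).image g.a) with hA16
  have hA16c : A16.card = 32 := by
    rw [hA16, Finset.card_union_of_disjoint hdis, hQ]
    omega
  have hA16i : A16.image g.a = A16 := by
    rw [hA16, Finset.image_union, hA1, Q_inv g {v}]
  have hg : Good g 4 A16 (D g P y) := Good.mono' hy4 Finset.subset_union_left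
  obtain ⟨x, hx⟩ := thm_T16 hA16i hA16c hg
  have hf := full_t16 hx hg
  -- the vertex `v` is in the frame
  have hvA : v ∈ img g x (2 * 16) := by
    rw [hx.im, hA16]
    exact Finset.mem_union_right _ (Finset.mem_union_left _ (Finset.mem_singleton_self v))
  rw [mem_img] at hvA
  obtain ⟨l, hl, hlv⟩ := hvA
  have h1 := t16cov_ok
  rw [t16cov, List.all_eq_true] at h1
  have h2 := h1 (l / 2) (List.mem_range.mpr (by omega))
  rw [List.any_eq_true] at h2
  obtain ⟨F, hF, hF2⟩ := h2
  have hF3 := supp_one hA1 hy4 (hf F hF)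
  have key : ∀ m, m < 32 → m / 2 = l / 2 → F.testBit m = true → False := by
    intro m hm hml hFm
    have h3 : lt g x m ∈ A15 := hF3.2.2 (Finset.mem_image_of_mem _ (mem_FS.mpr ⟨hm, hFm⟩))
    have h4 : lt g x m = v ∨ lt g x m = g.a v := by
      unfold lt at hlv ⊢
      rw [hml]
      split_ifs at hlv ⊢ with h5 h6
      · exact Or.inl hlv
      · right; rw [← hlv, g.ha]
      · right; rw [← hlv]
      · exact Or.inl hlv
    rcases h4 with h4 | h4
    · rw [h4] at h3; exact hv15 h3
    · rw [h4] at h3; exact hav15 h3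
  rw [Bool.or_eq_true] at hF2
  rcases hF2 with h3 | h3
  · exact key _ (by omega) (by omega) h3
  · exact key _ (by omega) (by omega) h3

/-- at most twenty-three pairs -/
theorem thm_le {A : Finset X} (hA : A.image g.a = A) {n : ℕ} (hc : A.card = 2 * n)
    (hn : n ≤ 23) {y : Ch X} (hy : Good g 5 A y) : False := by
  have h1 := lb 5 A y hA hy
  have h2 : n = 21 ∨ n = 22 ∨ n = 23 := by omega
  rcases h2 with rfl | rfl | rfl
  · exact thm_21 hA hc hy
  · exact thm_final hA hc hy
  · exact thm_23 hA hc hy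

end

end Pool.Agent.H63.RP
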