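import Pool.Agent.H63.RP.Cover

/-!
From the rows of signs of a clique to valuations.
-/

set_option autoImplicit false
set_option linter.unusedSectionVars false

namespace Pool.Agent.H63.RP

open Pool.Agent.TH651.RP5

def valOf (n : ℕ) (R : ℕ → ℕ → Bool) (t : ℕ) : Bool :=
  if t % (2 * n) < n then R (t / (2 * n)) (t % (2 * n)) else
    !(R (t / (2 * n)) (t % (2 * n) - n))

theorem valOf_lo {n : ℕ} {R : ℕ → ℕ → Bool} {s i : ℕ} (hi : i < n) :
    valOf n R (2 * n * s + i) = R s i := by
  have h1 : (2 * n * s + i) % (2 * n) = i := by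
    rw [Nat.mul_add_mod, Nat.mod_eq_of_lt (by omega)]
  have h2 : (2 * n * s + i) / (2 * n) = s := by
    rw [Nat.mul_add_div (by omega), Nat.div_eq_of_lt (by omega), add_zero]
  unfold valOf
  rw [h1, h2, if_pos hi]

theorem valOf_hi {n : ℕ} {R : ℕ → ℕ → Bool} {s i : ℕ} (hi : i < n) :
    valOf n R (2 * n * s + (i + n)) = !(R s i) := by
  have h1 : (2 * n * s + (i + n)) % (2 * n) = i + n := by
    rw [Nat.mul_add_mod, Nat.mod_eq_of_lt (by omega)]
  have h2 : (2 * n * s + (i + n)) / (2 * n) = s := by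
    rw [Nat.mul_add_div (by omega), Nat.div_eq_of_lt (by omega), add_zero]
  unfold valOf
  rw [h1, h2, if_neg (by omega), Nat.add_sub_cancel]

section

variable {X : Type} [Fintype X] [DecidableEq X] {g : SG X} {x : ℕ → X}

variable (g x) in
/-- the signs of the rows of the list `b` -/
noncomputable def rwo (b : List X) (s i : ℕ) : Bool :=
  @decide (¬ g.Adj (x i) (b.getD s (x 0))) (Classical.propDecidable _)

theorem rwo_true {b : List X} {s i : ℕ} :
    rwo g x b s i = true ↔ ¬ g.Adj (x i) (b.getD s (x 0)) :=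
  @decide_eq_true_iff _ (Classical.propDecidable _)

theorem rwo_false {b : List X} {s i : ℕ} :
    rwo g x b s i = false ↔ g.Adj (x i) (b.getD s (x 0)) := by
  rw [← Bool.not_eq_true, rwo_true, not_not]

theorem hold_of_cv {n : ℕ} {b : List X} {s F : ℕ} (h : Cv g x n (b.getD s (x 0)) F) :
    Hold n (valOf n (rwo g x b)) (2 * n * s) F := by
  intro u hu
  obtain ⟨h1, h2⟩ := h u hu
  refine ⟨h1, ?_⟩
  unfold swi
  split_ifs with h3
  · rw [lv_lo g x h3] at h2
    rw [valOf_hi h3, rwo_false.mpr h2]; rfl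
  · have e : u = n + (u - n) := by omega
    rw [e, lv_hi, anti_adj] at h2
    rw [valOf_lo (by omega), rwo_true]
    exact fun h4 => g.excl h4 h2

theorem adm {n m nc : ℕ} {offs : List ℕ} {tb : LT} {b : List X} (hb : b.length = m)
    (hoffs : offs = (List.range m).map (fun s => 2 * n * s))
    (hcov : ∀ c ≤ nc, ∃ F ∈ tb.get c, ∃ v ∈ b, Cv g x n v F) :
    Adm n nc offs tb (valOf n (rwo g x b)) where
  neg := by
    intro s i hi
    rw [valOf_lo hi, valOf_hi hi]
  off := by
    intro o ho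
    rw [hoffs, List.mem_map] at ho
    obtain ⟨s, -, rfl⟩ := ho
    exact ⟨s, rfl⟩
  cl := by
    intro c hc
    obtain ⟨F, hF, v, hv, h1⟩ := hcov c hc
    rw [List.mem_iff_getElem] at hv
    obtain ⟨s, hs, rfl⟩ := hv
    refine ⟨F, hF, 2 * n * s, ?_, ?_⟩
    · rw [hoffs, List.mem_map]
      exact ⟨s, List.mem_range.mpr (by omega), rfl⟩
    · apply hold_of_cv
      rw [List.getD_eq_getElem _ _ hs]
      exact h1

/-! ### incompatible faces -/

noncomputable def incq (n mk : ℕ) (Ns : List ℕ) : Bool :=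
  List.rec (motive := fun _ => Bool) true (fun F Gs ih =>
    bc (Gs.all (fun G => !(Nat.beq (Nat.land G (swp n mk F)) (nat_lit 0)))) ih false) Ns

theorem incq_sound {n mk : ℕ} : ∀ {Ns : List ℕ}, incq n mk Ns = true →
    Ns.Pairwise (fun F G => Nat.land G (swp n mk F) ≠ 0) := by
  intro Ns
  induction Ns with
  | nil => intro _; exact List.Pairwise.nil
  | cons F Gs ih =>
    intro h
    have e : incq n mk (F :: Gs) = bc (Gs.all (fun G =>
      !(Nat.beq (Nat.land G (swp n mk F)) 0))) (incq n mk Gs) false := rfl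
    rw [e, bc_eq] at h
    split_ifs at h with h1
    rw [List.all_eq_true] at h1
    refine List.pairwise_cons.mpr ⟨fun G hG h2 => ?_, ih h⟩
    have h3 := h1 G hG
    rw [(beq_iff _ _).mpr h2] at h3
    exact absurd h3 (by decide)

theorem incompat {n F G : ℕ} {v : X} (hF : Cv g x n v F) (hG : Cv g x n v G)
    (h : Nat.land G (swp n (2 ^ n - 1) F) ≠ 0) : False := by
  obtain ⟨u, h1, h2⟩ := exists_common (a := G) (b := swp n (2 ^ n - 1) F) h
  have h3 : ((F >>> n) ||| ((F &&& (2 ^ n - 1)) <<< n)).testBit u = true := h2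
  rw [Nat.testBit_or, Bool.or_eq_true, Nat.testBit_shiftRight, Nat.testBit_shiftLeft,
    Bool.and_eq_true, decide_eq_true_eq, Nat.testBit_and, Bool.and_eq_true,
    Nat.testBit_two_pow_sub_one, decide_eq_true_eq] at h3
  obtain ⟨h4, h5⟩ := hG u h1
  rcases h3 with h3 | ⟨h3, h6, h7⟩
  · obtain ⟨h6, h7⟩ := hF _ h3
    rw [lv_lo g x (by omega)] at h5
    rw [lv_hi, anti_adj] at h7
    exact g.excl h5 h7
  · obtain ⟨h8, h9⟩ := hF _ h6
    rw [lv_lo g x h7] at h9
    have e : u = n + (u - n) := by omega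
    rw [e, lv_hi, anti_adj] at h5
    exact g.excl h9 h5

/-- enumeration of the clique, normalized on incompatible faces -/
theorem enum_b {n m : ℕ} {Ns : List ℕ} {P : Finset X} (hPc : P.card = m)
    (hinc : incq n (2 ^ n - 1) Ns = true) (hcov : ∀ F ∈ Ns, ∃ v ∈ P, Cv g x n v F) :
    ∃ b : List X, b.Nodup ∧ b.toFinset = P ∧ b.length = m ∧ Ns.length ≤ m ∧
      ∀ t < Ns.length, Cv g x n (b.getD t (x 0)) (Ns.getD t 0) := by
  have hpw := incq_sound hinc
  obtain ⟨b, hb1, hb2, hb3, hb4⟩ := exists_enum P Ns.length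
    (fun t v => Cv g x n v (Ns.getD t 0)) (by
      intro t ht
      refine hcov _ ?_
      rw [List.getD_eq_getElem _ _ ht]
      exact List.getElem_mem ht) (by
      intro s hs t ht hst v _ h1 h2
      rw [List.getD_eq_getElem _ _ hs] at h1
      rw [List.getD_eq_getElem _ _ ht] at h2
      rcases Nat.lt_or_gt_of_ne hst with h3 | h3
      · exact incompat h1 h2 (List.pairwise_iff_getElem.mp hpw s t hs ht h3)
      · exact incompat h2 h1 (List.pairwise_iff_getElem.mp hpw t s ht hs h3))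
  have hbl : b.length = m := by rw [← hPc, ← hb2, List.toFinset_card_of_nodup hb1]
  refine ⟨b, hb1, hb2, hbl, by omega, fun t ht => ?_⟩
  rw [List.getD_eq_getElem _ _ (by omega)]
  exact hb4 t (by omega) ht

/-- the initial knowledge -/
noncomputable def kap0 (n mk : ℕ) (Ns : List ℕ) : ℕ → ℕ :=
  List.rec (motive := fun _ => ℕ → ℕ) (fun _ => nat_lit 0)
    (fun F _ ih o => Nat.lor (Nat.shiftLeft (swp n mk F) o)
      (ih (Nat.add o (Nat.mul (nat_lit 2) n)))) Ns

theorem kap0_cons {n : ℕ} {val : ℕ → Bool} : ∀ {Ns : List ℕ} {s : ℕ},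
    (∀ t < Ns.length, Hold n val (2 * n * (s + t)) (Ns.getD t 0)) →
    Cons (kap0 n (2 ^ n - 1) Ns (2 * n * s)) val := by
  intro Ns
  induction Ns with
  | nil => intro s _ t ht; exact absurd ht (by simp [kap0])
  | cons F Gs ih =>
    intro s h
    have e : kap0 n (2 ^ n - 1) (F :: Gs) (2 * n * s) = Nat.lor
      (Nat.shiftLeft (swp n (2 ^ n - 1) F) (2 * n * s))
      (kap0 n (2 ^ n - 1) Gs (2 * n * s + 2 * n)) := rfl
    rw [e]
    have h0 := h 0 (by simp)
    rw [add_zero] at h0
    have e2 : 2 * n * s + 2 * n = 2 * n * (s + 1) := by ring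
    rw [e2]
    refine (upd h0).lor (ih (fun t ht => ?_))
    have h1 := h (t + 1) (by simpa using ht)
    have e3 : s + 1 + t = s + (t + 1) := by omega
    rw [e3]
    exact h1

/-- refutation: no clique covers -/
theorem refute {n m nc : ℕ} {offs : List ℕ} {tb : LT} {Ns : List ℕ} {P : Finset X}
    (hn : 0 < n) (hPc : P.card = m) (hinc : incq n (2 ^ n - 1) Ns = true)
    (hoffs : offs = (List.range m).map (fun s => 2 * n * s))
    (hNs : ∀ F ∈ Ns, ∃ v ∈ P, Cv g x n v F)
    (hcov : ∀ c ≤ nc, ∃ F ∈ tb.get c, ∃ v ∈ P, Cv g x n v F) {fuel s : ℕ}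
    (hrun : run n (2 ^ n - 1) nc offs tb (fun _ _ _ _ => false) fuel
      (kap0 n (2 ^ n - 1) Ns 0) s (fun _ => true) = true) : False := by
  obtain ⟨b, -, hb2, hb3, -, hb5⟩ := enum_b hPc hinc hNs
  have hA : Adm n nc offs tb (valOf n (rwo g x b)) := by
    refine adm hb3 hoffs (fun c hc => ?_)
    obtain ⟨F, hF, v, hv, h1⟩ := hcov c hc
    rw [← hb2, List.mem_toFinset] at hv
    exact ⟨F, hF, v, hv, h1⟩
  have hc : Cons (kap0 n (2 ^ n - 1) Ns (2 * n * 0)) (valOf n (rwo g x b)) := by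
    apply kap0_cons
    intro t ht
    rw [zero_add]
    exact hold_of_cv (hb5 t ht)
  rw [mul_zero] at hc
  refine (run_sound (A := fun val => Adm n nc offs tb val) (P := fun _ => False) hn
    (fun _ h => h) ?_ _ _ _ _ hrun).1 _ hA hc
  intro t κ s k h
  exact absurd h (by decide)

/-! ### checking the clauses -/

noncomputable def pchk (n NB : ℕ) (tb : LT) (pl : List (List (List ℕ))) : ℕ → Bool :=
  List.rec (motive := fun _ => ℕ → Bool) (fun _ => true)
    (fun parts _ ih c => bc (partOK n NB (tb.get c) parts) (st (Nat.succ c) ih) false) pl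

theorem pchk_sound {n NB : ℕ} {tb : LT} : ∀ {pl : List (List (List ℕ))} {c : ℕ},
    pchk n NB tb pl c = true → ∀ t < pl.length, partOK n NB (tb.get (c + t)) (pl.getD t []) = true := by
  intro pl
  induction pl with
  | nil => intro c _ t ht; exact absurd ht (by simp)
  | cons parts pl ih =>
    intro c h t ht
    have e : pchk n NB tb (parts :: pl) c = bc (partOK n NB (tb.get c) parts)
      (st (Nat.succ c) (pchk n NB tb pl)) false := rfl
    rw [e, bc_eq, st_eq] at h
    split_ifs at h with h1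
    cases t with
    | zero => exact h1
    | succ t =>
      have h2 := ih h t (by simpa using ht)
      have e2 : c + (t + 1) = Nat.succ c + t := by omega
      rw [e2]
      exact h2

def plen (k : ℕ) (pl : List (List (List ℕ))) : Bool := pl.all (fun p => Nat.beq p.length (k + 1))

theorem plen_sound {k : ℕ} {pl : List (List (List ℕ))} (h : plen k pl = true) {t : ℕ}
    (ht : t < pl.length) : (pl.getD t []).length = k + 1 := by
  rw [plen, List.all_eq_true] at h
  rw [List.getD_eq_getElem _ _ ht]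
  have := h _ (List.getElem_mem ht)
  rwa [beq_iff] at this

theorem cover_clauses {n k NB nc : ℕ} {C : List ℕ} {A P : Finset X} {tb : LT}
    {pl : List (List (List ℕ))} (hA : A.image g.a = A)
    (hFr : Fr g x n C (A \ (P ∪ P.image g.a)))
    (hNB : NBr g x n NB) (hP : Clique g P) {y : Ch X} (hy : Good g (k + 1) A y)
    (hpl : pl.length = nc + 1) (h1 : plen k pl = true) (h2 : pchk n NB tb pl 0 = true) :
    ∀ c ≤ nc, ∃ F ∈ tb.get c, ∃ v ∈ P, Cv g x n v F := by
  intro c hc
  have h3 := pchk_sound h2 c (by omega)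
  rw [zero_add] at h3
  exact part_cover hA hFr hNB hP hy (plen_sound h1 (by omega)) h3

/-- the faces `Ns` are given by clauses with one face -/
noncomputable def nsOK (tb : LT) (nc : ℕ) (ni Ns : List ℕ) : Bool :=
  (Nat.beq ni.length Ns.length) &&
  ((List.range ni.length).all (fun t => Nat.ble (ni.getD t 0) nc &&
    (tb.get (ni.getD t 0)).all (fun F => Nat.beq F (Ns.getD t 0))))

theorem nsOK_sound {n nc : ℕ} {tb : LT} {ni Ns : List ℕ} {P : Finset X}
    (h : nsOK tb nc ni Ns = true)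
    (hcov : ∀ c ≤ nc, ∃ F ∈ tb.get c, ∃ v ∈ P, Cv g x n v F) :
    ∀ F ∈ Ns, ∃ v ∈ P, Cv g x n v F := by
  intro F hF
  rw [List.mem_iff_getElem] at hF
  obtain ⟨t, ht, rfl⟩ := hF
  rw [nsOK, Bool.and_eq_true, beq_iff, List.all_eq_true] at h
  have h1 := h.2 t (List.mem_range.mpr (by omega))
  rw [Bool.and_eq_true, Nat.ble_eq, List.all_eq_true] at h1
  obtain ⟨F, hF, v, hv, h2⟩ := hcov _ h1.1
  have h3 := h1.2 F hF
  rw [beq_iff, List.getD_eq_getElem _ _ ht] at h3
  exact ⟨v, hv, h3 ▸ h2⟩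

end

/-- data of a refutation -/
structure RD where
  C : List ℕ
  NB : ℕ
  nc : ℕ
  tb : LT
  pl : List (List (List ℕ))
  ni : List ℕ
  Ns : List ℕ
  fuel : ℕ
  s : ℕ

noncomputable def RD.chk (n m k : ℕ) (d : RD) : Bool :=
  (nbOK n d.C d.NB && (Nat.beq d.pl.length (d.nc + 1) && (plen k d.pl &&
    (pchk n d.NB d.tb d.pl 0 && (nsOK d.tb d.nc d.ni d.Ns && (incq n (2 ^ n - 1) d.Ns &&
      st (2 ^ n - 1) (fun mk => st (kap0 n mk d.Ns 0) (fun κ0 =>
        run n mk d.nc ((List.range m).map (fun s => 2 * n * s)) d.tb (fun _ _ _ _ => false)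
          d.fuel κ0 d.s (fun _ => true)))))))))

theorem RD.refutes {n m k : ℕ} {d : RD} (h : d.chk n m k = true) (hn : 0 < n)
    {X : Type} [Fintype X] [DecidableEq X] {g : SG X} {x : ℕ → X} {A P : Finset X}
    (hA : A.image g.a = A) (hFr : Fr g x n d.C (A \ (P ∪ P.image g.a))) (hP : Clique g P)
    (hPc : P.card = m) {y : Ch X} (hy : Good g (k + 1) A y) : False := by
  rw [RD.chk] at h
  simp only [Bool.and_eq_true, st_eq, beq_iff] at h
  obtain ⟨h1, h2, h3, h4, h5, h6, h7⟩ := h
  have hcov := cover_clauses hA hFr (nbOK_sound hFr.inj hFr.sg h1) hP hy h2 h3 h4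
  exact refute hn hPc h6 rfl (nsOK_sound h5 hcov) hcov h7

end Pool.Agent.H63.RP
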