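import Pool.Graph.R_seed8.TH651.RP5.S16

/-!
Intersecting good cycles.
-/

set_option autoImplicit false
set_option linter.unusedSectionVars false

namespace Pool.Agent.H63.RP

open Pool.Agent.TH651.RP5

section

variable {X : Type} [Fintype X] [DecidableEq X] {g : SG X}

theorem mem_Q {P : Finset X} {u : X} : u ∈ P ∪ P.image g.a ↔ u ∈ P ∨ g.a u ∈ P := by
  rw [Finset.mem_union, mem_image_iff g.ha]

theorem a_mem_Q {P : Finset X} {u : X} : g.a u ∈ P ∪ P.image g.a ↔ u ∈ P ∪ P.image g.a := by
  rw [mem_Q, mem_Q, g.ha]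
  exact or_comm

/-- lower bound for the number of pairs -/
theorem lb : ∀ (k : ℕ) (A : Finset X) (y : Ch X), A.image g.a = A → Good g k A y →
    (k + 1) * (k + 2) ≤ A.card := by
  intro k
  induction k with
  | zero =>
    intro A y hA hy
    obtain ⟨P, hPc, hP, hPA⟩ := Good.exists_clique g hy
    have := sdiff_Q_card hA hPA hP
    omega
  | succ k ih =>
    intro A y hA hy
    obtain ⟨P, hPc, hP, hPA⟩ := Good.exists_clique g hy
    have h1 := sdiff_Q_card hA hPA hP
    have h2 := ih _ _ (A_inv g hA) (Good.desc g hP hy)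
    nlinarith

theorem supp_one {k : ℕ} {A : Finset X} {y : Ch X} (hA : A.image g.a = A) (hy : Good g k A y)
    {F : Finset X} (hF : y F = 1) : F.card = k + 1 ∧ Clique g F ∧ F ⊆ A :=
  Good.supp g hA hy F (by rw [hF]; exact one_ne_zero)

/-- small good cycles do not vanish -/
theorem nz : ∀ (k : ℕ) (A : Finset X) (y : Ch X), A.image g.a = A → Good g k A y →
    A.card < (k + 2) * (k + 3) → ∃ F, y F = 1 := by
  intro k
  induction k with
  | zero =>
    intro A y hA hy hc
    by_cases hno : ∀ F : Finset X, F.card = 0 + 2 → Clique g F → ¬ F ⊆ A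
    · obtain ⟨-, h1⟩ := Good.top g hy hno
      by_contra hcon
      push Not at hcon
      apply h1
      funext F
      by_contra hne
      exact hcon F (z2_ne_zero.mp hne)
    · push Not at hno
      obtain ⟨P, hPc, hP, hPA⟩ := hno
      have h1 := sdiff_Q_card hA hPA hP
      have h2 : A \ (P ∪ P.image g.a) = ∅ := by
        by_contra hne
        obtain ⟨v, hv⟩ := Finset.nonempty_iff_ne_empty.mpr hne
        have h3 := inv_mem (A_inv g (P := P) hA) hv
        have h4 : ({v, g.a v} : Finset X) ⊆ A \ (P ∪ P.image g.a) := by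
          intro w hw
          rw [Finset.mem_insert, Finset.mem_singleton] at hw
          rcases hw with rfl | rfl
          · exact hv
          · exact h3
        have h5 := Finset.card_le_card h4
        rw [Finset.card_pair (fun e => g.ne v e.symm)] at h5
        omega
      have h3 : A = P ∪ P.image g.a := by
        have := sdiff_union_Q hA hPA
        rw [h2, Finset.empty_union] at this
        exact this.symm
      rw [h3] at hy
      have h4 := Good.last g hP hy
      obtain ⟨v, -, hv⟩ := Finset.exists_ne_zero_of_sum_ne_zero (by rw [h4]; exact one_ne_zero)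
      exact ⟨_, z2_ne_zero.mp hv⟩
  | succ k ih =>
    intro A y hA hy hc
    by_cases hno : ∀ F : Finset X, F.card = k + 1 + 2 → Clique g F → ¬ F ⊆ A
    · obtain ⟨-, h1⟩ := Good.top g hy hno
      by_contra hcon
      push Not at hcon
      apply h1
      funext F
      by_contra hne
      exact hcon F (z2_ne_zero.mp hne)
    · push Not at hno
      obtain ⟨P, hPc, hP, hPA⟩ := hno
      have h1 := sdiff_Q_card hA hPA hP
      obtain ⟨F, hF⟩ := ih _ _ (A_inv g (P := P) hA) (Good.desc g hP hy) (by nlinarith)
      obtain ⟨v, -, hv, -⟩ := cover_step (Good.supp g hA hy) hF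
      exact ⟨_, hv⟩

/-- symmetric cycles and their sequences -/
theorem down_seq {A : Finset X} : ∀ (k : ℕ) (y : Ch X), Supp g k A y →
    act g.a y = y → (0 < k → bd y = 0) → ∃ e : ℕ → Ch X, (∀ j ≤ k, Supp g j A (e j)) ∧
      (∀ j < k, bd (e (j + 1)) = e j + act g.a (e j)) ∧ e k + act g.a (e k) = y := by
  intro k
  induction k with
  | zero =>
    intro y hs hi _
    obtain ⟨e, he, hy⟩ := norm_of_invariant g hs hi
    refine ⟨fun _ => e, ?_, ?_, hy.symm⟩
    · intro j hj
      have : j = 0 := by omega
      subst this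
      exact he
    · intro j hj
      omega
  | succ k ih =>
    intro y hs hi hb
    obtain ⟨e, he, hy⟩ := norm_of_invariant g hs hi
    have hact : act g.a e = e + y := by
      rw [hy, ← add_assoc, ch_add_self, zero_add]
    have h1 : act g.a (bd e) = bd e := by
      rw [act_bd, hact, bd_add, hb (by omega), add_zero]
    obtain ⟨f, hf1, hf2, hf3⟩ := ih (bd e) he.bd h1 (fun _ => bd_bd e)
    refine ⟨Function.update f (k + 1) e, ?_, ?_, ?_⟩
    · intro j hj
      by_cases hjk : j = k + 1
      · subst hjk
        rw [Function.update_self]; exact he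
      · rw [Function.update_of_ne hjk]; exact hf1 j (by omega)
    · intro j hj
      rw [Function.update_of_ne (show j ≠ k + 1 by omega)]
      by_cases hjk : j = k
      · subst hjk
        rw [Function.update_self]; exact hf3.symm
      · rw [Function.update_of_ne (by omega)]; exact hf2 j (by omega)
    · rw [Function.update_self]; exact hy.symm

theorem Supp.mono' {k : ℕ} {A B : Finset X} {c : Ch X} (h : Supp g k A c) (hAB : A ⊆ B) :
    Supp g k B c := fun F hF => ⟨(h F hF).1, (h F hF).2.1, (h F hF).2.2.trans hAB⟩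

/-- restriction of a symmetric good cycle to its support -/
theorem good_restrict {k : ℕ} {A B : Finset X} {y : Ch X} (hA : A.image g.a = A)
    (hc : A.card < (k + 2) * (k + 3)) (hy : Good g k A y) (hi : act g.a y = y) (hBA : B ⊆ A)
    (hB : ∀ F, y F = 1 → F ⊆ B) : Good g k B y := by
  have hs : Supp g k B y := by
    intro F hF
    have h1 := Good.supp g hA hy F hF
    exact ⟨h1.1, h1.2.1, hB F (z2_ne_zero.mp hF)⟩
  obtain ⟨e, he1, he2, he3⟩ := down_seq k y hs hi (by
    intro hk
    obtain ⟨k', rfl⟩ : ∃ k', k = k' + 1 := ⟨k - 1, by omega⟩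
    exact Good.cycle g hy)
  obtain ⟨c, r, hS, hr, hyc⟩ := hy
  rcases z2_cases (bd (e 0) ∅) with h0 | h0
  · exfalso
    have hS' : Smith g (k + 1) A (fun j => if j = k + 1 then r else c j + e j) := by
      refine ⟨?_, ?_, ?_⟩
      · intro j hj
        by_cases hjk : j = k + 1
        · subst hjk
          simp only [if_true]
          exact hr
        · simp only [hjk, if_false]
          exact (hS.supp j (by omega)).add (Supp.mono' (he1 j (by omega)) hBA)
      · intro j hj
        have h1 : ¬ j = k + 1 := by omega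
        simp only [h1, if_false]
        by_cases hjk : j = k
        · subst hjk
          simp only [if_true]
          have h2 : c j + act g.a (c j) + bd r = e j + act g.a (e j) := by rw [← hyc, he3]
          have h3 : bd r = (c j + act g.a (c j)) + (e j + act g.a (e j)) := by
            rw [← h2, ← add_assoc, ch_add_self, zero_add]
          rw [h3, act_add]
          abel
        · have h2 : ¬ j + 1 = k + 1 := by omega
          simp only [h2, if_false]
          rw [bd_add, hS.step j (by omega), he2 j (by omega), act_add]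
          abel
      · have h1 : ¬ (0 : ℕ) = k + 1 := by omega
        simp only [h1, if_false]
        rw [bd_add, Pi.add_apply, hS.base, h0, add_zero]
    have hg : Good g (k + 1) A (r + act g.a r + bd 0) := by
      refine ⟨_, 0, hS', Supp.zero g _ _, ?_⟩
      simp only [if_true]
    have h1 := lb (k + 1) A _ hA hg
    have h2 : (k + 1 + 1) * (k + 1 + 2) = (k + 2) * (k + 3) := by ring
    omega
  · exact ⟨e, 0, ⟨he1, he2, h0⟩, Supp.zero g _ _, by rw [bd_zero, add_zero]; exact he3.symm⟩

variable (g) in
/-- intersecting symmetric good cycles -/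
structure IntC (k : ℕ) (A : Finset X) (y : Ch X) : Prop where
  good : Good g k A y
  inv : act g.a y = y
  meet : ∀ F G : Finset X, y F = 1 → y G = 1 → ∃ u ∈ F, u ∈ G ∨ g.a u ∈ G

/-- where two extended faces meet -/
theorem meet_insert {Q F G : Finset X} (hQ : ∀ u, g.a u ∈ Q ↔ u ∈ Q) {e e' : X} (he : e ∈ Q)
    (he' : e' ∈ Q) (hF : Disjoint F Q) (hG : Disjoint G Q)
    (hFG : ¬ ∃ u ∈ F, u ∈ G ∨ g.a u ∈ G)
    (hm : ∃ u ∈ insert e F, u ∈ insert e' G ∨ g.a u ∈ insert e' G) : e = e' ∨ g.a e = e' := by
  obtain ⟨u, hu, h1⟩ := hm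
  rw [Finset.mem_insert] at hu
  rw [Finset.mem_insert, Finset.mem_insert] at h1
  rw [Finset.disjoint_left] at hF hG
  rcases hu with rfl | hu
  · rcases h1 with (h1 | h1) | (h1 | h1)
    · exact Or.inl h1
    · exact absurd he (hG h1)
    · exact Or.inr h1
    · exact absurd ((hQ u).mpr he) (hG h1)
  · rcases h1 with (h1 | h1) | (h1 | h1)
    · exact absurd (h1 ▸ he') (hF hu)
    · exact absurd ⟨u, hu, Or.inl h1⟩ hFG
    · exact absurd ((hQ u).mp (h1 ▸ he')) (hF hu)
    · exact absurd ⟨u, hu, Or.inr h1⟩ hFG

theorem D_anti_eq {k : ℕ} {A P : Finset X} {y : Ch X} (hP : Clique g P)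
    (h : IntC g (k + 1) A y) (hPy : y P = 1) : D g (P.image g.a) y = D g P y := by
  have hres : res (P ∪ P.image g.a) y = 0 := by
    funext F
    unfold res
    split_ifs with hd
    · by_contra hne
      obtain ⟨u, hu, h1⟩ := h.meet F P (z2_ne_zero.mp hne) hPy
      exact Finset.disjoint_left.mp hd hu (mem_Q.mpr h1)
    · rfl
  have h1 := D_add_D_anti g hP y
  rw [hres, Good.cycle g h.good, bd_zero, add_zero] at h1
  have h2 : res (P ∪ P.image g.a) (0 : Ch X) = 0 := by
    funext F
    unfold res
    split_ifs <;> rfl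
  rw [h2] at h1
  have h3 : D g P y + (D g P y + D g (P.image g.a) y) = D g P y := by rw [h1, add_zero]
  rw [← add_assoc, ch_add_self, zero_add] at h3
  exact h3

theorem IntC.desc {k : ℕ} {A P : Finset X} {y : Ch X} (hA : A.image g.a = A)
    (h : IntC g (k + 1) A y) (hPy : y P = 1) :
    IntC g k (A \ (P ∪ P.image g.a)) (D g P y) := by
  obtain ⟨-, hP, hPA⟩ := supp_one hA h.good hPy
  have hDD := D_anti_eq hP h hPy
  have hgood := Good.desc g hP h.good
  refine ⟨hgood, ?_, ?_⟩
  · rw [act_D, h.inv, hDD]
  · intro F G hF hG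
    by_contra hcon
    have hA' : (A \ (P ∪ P.image g.a)).image g.a = A \ (P ∪ P.image g.a) := A_inv g hA
    obtain ⟨hF1, -, hF2⟩ := supp_one hA' hgood hF
    obtain ⟨-, -, hG2⟩ := supp_one hA' hgood hG
    have dF : Disjoint F (P ∪ P.image g.a) := Finset.disjoint_of_subset_left hF2 Finset.sdiff_disjoint
    have dG : Disjoint G (P ∪ P.image g.a) := Finset.disjoint_of_subset_left hG2 Finset.sdiff_disjoint
    obtain ⟨e, he, h1, ha1⟩ := cover_step (Good.supp g hA h.good) hF
    obtain ⟨e', he', h2, -⟩ := cover_step (Good.supp g hA h.good) hG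
    have hF' : D g (P.image g.a) y F = 1 := by rw [hDD]; exact hF
    obtain ⟨v, hv, h3, ha3⟩ := cover_step (Good.supp g hA h.good) hF'
    have hQ : ∀ u, g.a u ∈ P ∪ P.image g.a ↔ u ∈ P ∪ P.image g.a := fun u => a_mem_Q
    have m1 := meet_insert hQ (Finset.mem_union_left _ he) (Finset.mem_union_left _ he') dF dG hcon
      (h.meet _ _ h1 h2)
    have m2 := meet_insert hQ (Finset.mem_union_right _ hv) (Finset.mem_union_left _ he') dF dG hcon
      (h.meet _ _ h3 h2)
    have k1 : e = e' := by
      rcases m1 with m1 | m1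
      · exact m1
      · exfalso
        refine Clique.not_anti hP hP he he he ?_
        rw [mem_image_iff g.ha, m1]; exact he'
    have k2 : v = g.a e := by
      rcases m2 with m2 | m2
      · exfalso
        rw [m2] at hv
        exact Clique.not_anti hP hP he' he' he' hv
      · rw [k1, ← m2, g.ha]
    obtain ⟨u, hu⟩ : F.Nonempty := by rw [← Finset.card_pos]; omega
    have a1 := ha1 u hu
    have a2 := ha3 u hu
    rw [k2] at a2
    exact g.excl a1 a2

end

end Pool.Agent.H63.RP
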