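import Pool.Agent.H63.RP.IntB

/-!
Intersecting good cycles of dimension one and two.
-/

set_option autoImplicit false
set_option linter.unusedSectionVars false

namespace Pool.Agent.H63.RP

open Pool.Agent.TH651.RP5

section

variable {X : Type} [Fintype X] [DecidableEq X] {g : SG X}

/-- in a cycle, a face is contained in at least two faces -/
theorem second {k : ℕ} {A : Finset X} {y : Ch X} (hy : Good g (k + 1) A y) {F : Finset X} {v : X}
    (hv : v ∉ F) (h : y (insert v F) = 1) : ∃ w, w ∉ F ∧ w ≠ v ∧ y (insert w F) = 1 := by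
  have h1 := congrFun (Good.cycle g hy) F
  simp only [bd, Pi.zero_apply] at h1
  rw [← Finset.add_sum_erase _ _ (Finset.mem_compl.mpr hv), h] at h1
  have h2 : ∑ w ∈ Fᶜ.erase v, y (insert w F) ≠ 0 := by
    intro h3
    rw [h3, add_zero] at h1
    exact one_ne_zero h1
  obtain ⟨w, hw, hne⟩ := Finset.exists_ne_zero_of_sum_ne_zero h2
  rw [Finset.mem_erase, Finset.mem_compl] at hw
  exact ⟨w, hw.2, hw.1, z2_ne_zero.mp hne⟩

variable (g) in
/-- same pair -/
def Sp (v w : X) : Prop := v = w ∨ v = g.a w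

theorem Sp.symm {v w : X} (h : Sp g v w) : Sp g w v := by
  rcases h with rfl | rfl
  · exact Or.inl rfl
  · exact Or.inr (g.ha w).symm

theorem Sp.trans {u v w : X} (h : Sp g u v) (h' : Sp g v w) : Sp g u w := by
  rcases h with rfl | rfl
  · exact h'
  · rcases h' with rfl | rfl
    · exact Or.inr rfl
    · exact Or.inl (g.ha w)

theorem Sp.anti {v w : X} (h : Sp g v w) : Sp g (g.a v) w := by
  rcases h with rfl | rfl
  · exact Or.inr rfl
  · exact Or.inl (g.ha w)

theorem Sp.of_adj {v w : X} (h : g.Adj v w) : ¬ Sp g v w := by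
  rintro (rfl | rfl)
  · exact g.irr _ h
  · exact g.irr' _ (g.symm h)

theorem three_pairs {p z r s t : X} (npz : ¬ Sp g p z) (npr : ¬ Sp g p r) (nzr : ¬ Sp g z r)
    (c1 : (Sp g s p ∨ Sp g s z) ∨ (Sp g t p ∨ Sp g t z))
    (c2 : (Sp g s r ∨ Sp g s p) ∨ (Sp g t r ∨ Sp g t p))
    (c3 : (Sp g s r ∨ Sp g s z) ∨ (Sp g t r ∨ Sp g t z)) : Sp g s p ∨ Sp g s z ∨ Sp g s r := by
  by_contra hn
  rw [not_or, not_or] at hn
  obtain ⟨n1, n2, n3⟩ := hn
  have d1 : Sp g t p ∨ Sp g t z := by
    rcases c1 with (h | h) | h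
    · exact absurd h n1
    · exact absurd h n2
    · exact h
  have d2 : Sp g t r ∨ Sp g t p := by
    rcases c2 with (h | h) | h
    · exact absurd h n3
    · exact absurd h n1
    · exact h
  have d3 : Sp g t r ∨ Sp g t z := by
    rcases c3 with (h | h) | h
    · exact absurd h n3
    · exact absurd h n2
    · exact h
  rcases d1 with d1 | d1
  · rcases d3 with d3 | d3
    · exact npr (d1.symm.trans d3)
    · exact npz (d1.symm.trans d3)
  · rcases d2 with d2 | d2
    · exact nzr (d1.symm.trans d2)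
    · exact npz (d2.symm.trans d1)

theorem meet_pair {s t u1 u2 : X} (h : ∃ u ∈ ({s, t} : Finset X), u ∈ ({u1, u2} : Finset X) ∨
    g.a u ∈ ({u1, u2} : Finset X)) :
    (Sp g s u1 ∨ Sp g s u2) ∨ (Sp g t u1 ∨ Sp g t u2) := by
  obtain ⟨u, hu, h1⟩ := h
  have h2 : Sp g u u1 ∨ Sp g u u2 := by
    rw [Finset.mem_insert, Finset.mem_singleton, Finset.mem_insert, Finset.mem_singleton] at h1
    rcases h1 with (h1 | h1) | (h1 | h1)
    · exact Or.inl (Or.inl h1)
    · exact Or.inr (Or.inl h1)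
    · exact Or.inl (Or.inr (by rw [← h1, g.ha]))
    · exact Or.inr (Or.inr (by rw [← h1, g.ha]))
  rw [Finset.mem_insert, Finset.mem_singleton] at hu
  rcases hu with rfl | rfl
  · exact Or.inl h2
  · exact Or.inr h2

/-- the second edge at `z` -/
theorem pair_edge {A : Finset X} {y : Ch X} (hA : A.image g.a = A) (h : IntC g 1 A y) {p z : X}
    (hpz : p ≠ z) (hF : y {p, z} = 1) : ∃ q, g.Adj q z ∧ ¬ Sp g q p ∧ y {q, z} = 1 := by
  have apz : g.Adj p z := (supp_one hA h.good hF).2.1 p (by simp) z (by simp) hpz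
  obtain ⟨q, hq1, hq2, hq3⟩ := second (F := {z}) (v := p) h.good
    (by rw [Finset.mem_singleton]; exact hpz) hF
  rw [Finset.mem_singleton] at hq1
  have aqz : g.Adj q z := (supp_one hA h.good hq3).2.1 q (by simp) z (by simp) hq1
  refine ⟨q, aqz, ?_, hq3⟩
  rintro (e | e)
  · exact hq2 e
  · rw [e] at aqz
    exact g.excl (g.symm apz) (g.symm aqz)

theorem int_one_pairs {A : Finset X} (hA : A.image g.a = A) (hc : A.card < 12) {y : Ch X}
    (h : IntC g 1 A y) : ∃ p z r : X, p ∈ A ∧ z ∈ A ∧ r ∈ A ∧ ¬ Sp g p z ∧ ¬ Sp g p r ∧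
      ¬ Sp g z r ∧ ∀ F, y F = 1 → ∀ s ∈ F, Sp g s p ∨ Sp g s z ∨ Sp g s r := by
  obtain ⟨F, hF⟩ := nz 1 A y hA h.good (by omega)
  obtain ⟨hF1, hF2, hF3⟩ := supp_one hA h.good hF
  obtain ⟨p, z, hpz, rfl⟩ := Finset.card_eq_two.mp hF1
  have apz : g.Adj p z := hF2 p (by simp) z (by simp) hpz
  obtain ⟨r, arp, nrz, hr3⟩ := pair_edge hA h hpz.symm (by rw [Finset.pair_comm]; exact hF)
  obtain ⟨q, aqz, nqp, hq3⟩ := pair_edge hA h hpz hF
  have npz := Sp.of_adj apz
  have npr : ¬ Sp g p r := fun h1 => Sp.of_adj arp h1.symm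
  have nzr : ¬ Sp g z r := fun h1 => nrz h1.symm
  have hrq : Sp g r q := by
    rcases meet_pair (h.meet _ _ hr3 hq3) with (h1 | h1) | (h1 | h1)
    · exact h1
    · exact absurd h1 nrz
    · exact absurd h1.symm nqp
    · exact absurd h1 npz
  refine ⟨p, z, r, hF3 (by simp), hF3 (by simp), (supp_one hA h.good hr3).2.2 (by simp), npz,
    npr, nzr, ?_⟩
  intro F hF'
  obtain ⟨h1, h2, h3⟩ := supp_one hA h.good hF'
  obtain ⟨s, t, hst, rfl⟩ := Finset.card_eq_two.mp h1
  have c1 := meet_pair (h.meet _ _ hF' hF)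
  have c2 := meet_pair (h.meet _ _ hF' hr3)
  have c3 : (Sp g s r ∨ Sp g s z) ∨ (Sp g t r ∨ Sp g t z) := by
    rcases meet_pair (h.meet _ _ hF' hq3) with (h1 | h1) | (h1 | h1)
    · exact Or.inl (Or.inl (h1.trans hrq.symm))
    · exact Or.inl (Or.inr h1)
    · exact Or.inr (Or.inl (h1.trans hrq.symm))
    · exact Or.inr (Or.inr h1)
  intro v hv
  rw [Finset.mem_insert, Finset.mem_singleton] at hv
  rcases hv with rfl | rfl
  · exact three_pairs npz npr nzr c1 c2 c3
  · exact three_pairs npz npr nzr c1.symm c2.symm c3.symm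

theorem nSp_iff {p z : X} : ¬ Sp g p z ↔ p ≠ z ∧ p ≠ g.a z := not_or

/-- intersecting good cycles of dimension one are hexagons -/
theorem int_one {A : Finset X} (hA : A.image g.a = A) (hc : A.card < 12) {y : Ch X}
    (h : IntC g 1 A y) : ∃ B : Finset X, B ⊆ A ∧ B.image g.a = B ∧ B.card = 6 ∧
      (∀ F, y F = 1 → F ⊆ B) ∧ ∀ b : X, ∃ F, y F = 1 ∧ b ∉ F ∧ g.a b ∉ F := by
  obtain ⟨p, z, r, hpA, hzA, hrA, npz, npr, nzr, hall⟩ := int_one_pairs hA hc h
  set S : Finset X := {p, z, r} with hS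
  have hS3 : S.card = 3 := by
    rw [hS, Finset.card_insert_of_notMem, Finset.card_pair (nSp_iff.mp nzr).1]
    rw [Finset.mem_insert, Finset.mem_singleton, not_or]
    exact ⟨(nSp_iff.mp npz).1, (nSp_iff.mp npr).1⟩
  have hSA : S ⊆ A := by
    intro v hv
    rw [hS, Finset.mem_insert, Finset.mem_insert, Finset.mem_singleton] at hv
    rcases hv with rfl | rfl | rfl <;> assumption
  set B := S ∪ S.image g.a with hB
  have hBA : B ⊆ A := Q_sub hA hSA
  have hBi : B.image g.a = B := Q_inv g S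
  have hmS : ∀ v, v ∈ S ↔ v = p ∨ v = z ∨ v = r := by
    intro v
    rw [hS, Finset.mem_insert, Finset.mem_insert, Finset.mem_singleton]
  have hdisj : Disjoint S (S.image g.a) := by
    rw [Finset.disjoint_left]
    intro v hv hv2
    rw [mem_image_iff g.ha, hmS] at hv2
    rw [hmS] at hv
    have k1 : ∀ w, g.a v = w → Sp g v w := fun w e => Or.inr (by rw [← e, g.ha])
    rcases hv with rfl | rfl | rfl
    · rcases hv2 with h1 | h1 | h1
      · exact g.ne _ h1
      · exact npz (k1 _ h1)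
      · exact npr (k1 _ h1)
    · rcases hv2 with h1 | h1 | h1
      · exact npz (k1 _ h1).symm
      · exact g.ne _ h1
      · exact nzr (k1 _ h1)
    · rcases hv2 with h1 | h1 | h1
      · exact npr (k1 _ h1).symm
      · exact nzr (k1 _ h1).symm
      · exact g.ne _ h1
  have hBc : B.card = 6 := by
    rw [hB, Finset.card_union_of_disjoint hdisj, Finset.card_image_of_injective _ g.ha.injective]
    omega
  have hmB : ∀ v w, w ∈ S → Sp g v w → v ∈ B := by
    intro v w hw hvw
    rw [hB, mem_Q]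
    rcases hvw with rfl | rfl
    · exact Or.inl hw
    · right; rw [g.ha]; exact hw
  have hsub : ∀ F, y F = 1 → F ⊆ B := by
    intro F hF v hv
    rcases hall F hF v hv with h1 | h1 | h1
    · exact hmB v p ((hmS p).mpr (Or.inl rfl)) h1
    · exact hmB v z ((hmS z).mpr (Or.inr (Or.inl rfl))) h1
    · exact hmB v r ((hmS r).mpr (Or.inr (Or.inr rfl))) h1
  refine ⟨B, hBA, hBi, hBc, hsub, ?_⟩
  have hgB : Good g 1 B y := good_restrict hA (by omega) h.good h.inv hBA hsub
  obtain ⟨x, hx⟩ := hexagon hBi (by omega) hgB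
  have hf := full_hex hx hgB
  have f5 : fs g x 5 = {x 0, x 1} := by
    have : FS 5 = {0, 2} := by decide +kernel
    rw [fs, this, Finset.image_insert, Finset.image_singleton]
    congr 1
  have f33 : fs g x 33 = {x 0, g.a (x 2)} := by
    have : FS 33 = {0, 5} := by decide +kernel
    rw [fs, this, Finset.image_insert, Finset.image_singleton]
    congr 1
  have f20 : fs g x 20 = {x 1, x 2} := by
    have : FS 20 = {2, 4} := by decide +kernel
    rw [fs, this, Finset.image_insert, Finset.image_singleton]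
    congr 1
  have y5 := hf 5 (by decide +kernel)
  have y33 := hf 33 (by decide +kernel)
  have y20 := hf 20 (by decide +kernel)
  rw [f5] at y5
  rw [f33] at y33
  rw [f20] at y20
  have i01 : ¬ Sp g (x 0) (x 1) :=
    nSp_iff.mpr (hx.inj 0 (by norm_num) 1 (by norm_num) (by norm_num))
  have i02 : ¬ Sp g (x 0) (x 2) :=
    nSp_iff.mpr (hx.inj 0 (by norm_num) 2 (by norm_num) (by norm_num))
  have i12 : ¬ Sp g (x 1) (x 2) :=
    nSp_iff.mpr (hx.inj 1 (by norm_num) 2 (by norm_num) (by norm_num))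
  have key : ∀ b u v : X, ¬ Sp g b u → ¬ Sp g b v → b ∉ ({u, v} : Finset X) ∧
      g.a b ∉ ({u, v} : Finset X) := by
    intro b u v h1 h2
    rw [Finset.mem_insert, Finset.mem_singleton, Finset.mem_insert, Finset.mem_singleton]
    constructor
    · rintro (e | e)
      · exact h1 (Or.inl e)
      · exact h2 (Or.inl e)
    · rintro (e | e)
      · exact h1 (Or.inr (by rw [← e, g.ha]))
      · exact h2 (Or.inr (by rw [← e, g.ha]))
  intro b
  by_cases h0 : Sp g b (x 0)
  · refine ⟨_, y20, key b _ _ (fun h1 => i01 (h0.symm.trans h1))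
      (fun h1 => i02 (h0.symm.trans h1))⟩
  · by_cases h1 : Sp g b (x 1)
    · refine ⟨_, y33, key b _ _ h0 (fun h2 => i12 (h1.symm.trans ?_))⟩
      rcases h2 with h2 | h2
      · right; exact h2
      · left; rw [h2, g.ha]
    · exact ⟨_, y5, key b _ _ h0 h1⟩

end

end Pool.Agent.H63.RP
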