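import Pool.Agent.H63.RP.IntB2

/-!
Intersecting good cycles of dimension two on eight pairs.
-/

set_option autoImplicit false
set_option linter.unusedSectionVars false
set_option maxRecDepth 100000

namespace Pool.Agent.H63.RP

open Pool.Agent.TH651.RP5

section

variable {X : Type} [Fintype X] [DecidableEq X] {g : SG X}

theorem sp_clique {P : Finset X} (hP : Clique g P) {u v : X} (hu : u ∈ P) (hv : v ∈ P)
    (h : Sp g u v) : u = v := by
  rcases h with h | h
  · exact h
  · exfalso
    refine Clique.not_anti hP hP hv hv hv ?_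
    rw [mem_image_iff g.ha, ← h]; exact hu

/-- the two extensions of a face of the link -/
theorem two_ext {A T : Finset X} {y : Ch X} (hA : A.image g.a = A) (h : IntC g 2 A y)
    (hT : y T = 1) {f : Finset X} (hf : D g T y f = 1) : ∃ t t' : X, t ∈ T ∧ t' ∈ T ∧ t ≠ t' ∧
      y (insert t f) = 1 ∧ y (insert (g.a t') f) = 1 := by
  obtain ⟨-, hTc, hTA⟩ := supp_one hA h.good hT
  obtain ⟨t, ht, h1, ha1⟩ := cover_step (Good.supp g hA h.good) hf
  have hf' : D g (T.image g.a) y f = 1 := by rw [D_anti_eq hTc h hT]; exact hf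
  obtain ⟨v, hv, h2, ha2⟩ := cover_step (Good.supp g hA h.good) hf'
  rw [mem_image_iff g.ha] at hv
  refine ⟨t, g.a v, ht, hv, ?_, h1, by rw [g.ha]; exact h2⟩
  intro e
  have hfc := (supp_one (A_inv g (P := T) hA) (Good.desc g hTc h.good) hf).1
  obtain ⟨u, hu⟩ : f.Nonempty := by rw [← Finset.card_pos]; omega
  have a1 := ha1 u hu
  have a2 := ha2 u hu
  rw [e] at a1
  exact g.excl a2 a1

/-- a face with one vertex in `T` -/
theorem claim1 {A T B : Finset X} {y : Ch X} (hA : A.image g.a = A) (h : IntC g 2 A y)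
    (hT : y T = 1) (hBi : B.image g.a = B) (hB : ∀ F, D g T y F = 1 → F ⊆ B)
    (hav : ∀ b : X, ∃ F, D g T y F = 1 ∧ b ∉ F ∧ g.a b ∉ F) {a : X} {e : Finset X} (ha : a ∈ T)
    (he : Disjoint e (T ∪ T.image g.a)) (hy : y (insert a e) = 1) : e ⊆ B := by
  by_contra hcon
  obtain ⟨-, hTc, hTA⟩ := supp_one hA h.good hT
  have hae : a ∉ e := fun h1 => Finset.disjoint_left.mp he h1 (Finset.mem_union_left _ ha)
  have hec : e.card = 2 := by
    have := (supp_one hA h.good hy).1
    rw [Finset.card_insert_of_notMem hae] at this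
    omega
  have hD : D g T y e = 0 := by
    rcases z2_cases (D g T y e) with h1 | h1
    · exact h1
    · exact absurd (hB _ h1) hcon
  have hD2 : ∑ v ∈ T, y (insert v e) = 0 := by
    rw [← hD]
    simp only [D, he, if_true]
  rw [← Finset.add_sum_erase _ _ ha, hy] at hD2
  have h2 : ∑ w ∈ T.erase a, y (insert w e) ≠ 0 := by
    intro h3
    rw [h3, add_zero] at hD2
    exact one_ne_zero hD2
  obtain ⟨t', ht', hne⟩ := Finset.exists_ne_zero_of_sum_ne_zero h2
  rw [Finset.mem_erase] at ht'
  have hy' := z2_ne_zero.mp hne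
  -- the vertices of `e`
  rw [Finset.not_subset] at hcon
  obtain ⟨z, hz, hzB⟩ := hcon
  obtain ⟨b, hb⟩ : ∃ b, e.erase z = {b} := Finset.card_eq_one.mp (by
    rw [Finset.card_erase_of_mem hz, hec])
  have heb : ∀ u ∈ e, u = z ∨ u = b := by
    intro u hu
    by_cases h1 : u = z
    · exact Or.inl h1
    · right
      have : u ∈ e.erase z := Finset.mem_erase.mpr ⟨h1, hu⟩
      rw [hb, Finset.mem_singleton] at this
      exact this
  obtain ⟨f, hf, hb1, hb2⟩ := hav b
  obtain ⟨t, -, htT, -, -, hyt, -⟩ := two_ext hA h hT hf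
  have hfs := supp_one (A_inv g (P := T) hA) (Good.desc g hTc h.good) hf
  have hfd : Disjoint f (T ∪ T.image g.a) :=
    Finset.disjoint_of_subset_left hfs.2.2 Finset.sdiff_disjoint
  have hfB := hB f hf
  have hno : ¬ ∃ u ∈ f, u ∈ e ∨ g.a u ∈ e := by
    rintro ⟨u, hu, h1 | h1⟩
    · rcases heb u h1 with rfl | rfl
      · exact hzB (hfB hu)
      · exact hb1 hu
    · rcases heb _ h1 with h3 | h3
      · exact hzB (by rw [← h3]; exact inv_mem hBi (hfB hu))
      · exact hb2 (by rw [← h3, g.ha]; exact hu)
  have hQ : ∀ u, g.a u ∈ T ∪ T.image g.a ↔ u ∈ T ∪ T.image g.a := fun u => a_mem_Q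
  have m1 := meet_insert hQ (Finset.mem_union_left _ htT) (Finset.mem_union_left _ ha) hfd he hno
    (h.meet _ _ hyt hy)
  have m2 := meet_insert hQ (Finset.mem_union_left _ htT) (Finset.mem_union_left _ ht'.2) hfd he
    hno (h.meet _ _ hyt hy')
  have s1 : ∀ w, w ∈ T → (t = w ∨ g.a t = w) → t = w := by
    intro w hw h1
    refine sp_clique hTc htT hw ?_
    rcases h1 with h1 | h1
    · exact Or.inl h1
    · exact Or.inr (by rw [← h1, g.ha])
  exact ht'.1 ((s1 _ ht'.2 m2).symm.trans (s1 _ ha m1))

/-- the support of an intersecting good cycle of dimension two -/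
theorem claim2 {A T B : Finset X} {y : Ch X} (hA : A.image g.a = A) (h : IntC g 2 A y)
    (hT : y T = 1) (hBi : B.image g.a = B) (hB : ∀ F, D g T y F = 1 → F ⊆ B)
    (hav : ∀ b : X, ∃ F, D g T y F = 1 ∧ b ∉ F ∧ g.a b ∉ F) {E : Finset X} {a z : X}
    (haE : a ∈ E) (haT : a ∈ T) (hzE : z ∈ E) (hE : y E = 1)
    (hz : z ∉ T ∪ T.image g.a) : z ∈ B := by
  by_contra hzB
  obtain ⟨-, hTc, hTA⟩ := supp_one hA h.good hT
  obtain ⟨hEc, hEcl, -⟩ := supp_one hA h.good hE
  have haz : a ≠ z := fun e => hz (e ▸ Finset.mem_union_left _ haT)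
  have c1 : ((E.erase a).erase z).card = 1 := by
    rw [Finset.card_erase_of_mem (Finset.mem_erase.mpr ⟨haz.symm, hzE⟩),
      Finset.card_erase_of_mem haE]
    omega
  obtain ⟨b, hb⟩ := Finset.card_eq_one.mp c1
  have hbE : b ∈ (E.erase a).erase z := by rw [hb]; exact Finset.mem_singleton_self b
  rw [Finset.mem_erase, Finset.mem_erase] at hbE
  obtain ⟨hbz, hba, hbE⟩ := hbE
  have hEe : E = insert b {a, z} := by
    have e1 : E.erase a = insert z ((E.erase a).erase z) :=
      (Finset.insert_erase (Finset.mem_erase.mpr ⟨haz.symm, hzE⟩)).symm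
    have e2 : E = insert a (E.erase a) := (Finset.insert_erase haE).symm
    rw [e2, e1, hb]
    ext v
    simp only [Finset.mem_insert, Finset.mem_singleton]
    tauto
  -- a face with exactly one vertex in `T`
  have one : ∀ c : X, c ∉ T ∪ T.image g.a → y (insert c {a, z}) = 1 → False := by
    intro c hc hyc
    have h1 : Disjoint ({c, z} : Finset X) (T ∪ T.image g.a) := by
      rw [Finset.disjoint_left]
      intro v hv
      rw [Finset.mem_insert, Finset.mem_singleton] at hv
      rcases hv with rfl | rfl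
      · exact hc
      · exact hz
    have h2 : y (insert a {c, z}) = 1 := by rw [Finset.insert_comm]; exact hyc
    exact hzB (claim1 hA h hT hBi hB hav haT h1 h2 (by simp))
  by_cases hbT : b ∈ T ∪ T.image g.a
  · have hyb : y (insert b {a, z}) = 1 := by rw [← hEe]; exact hE
    obtain ⟨c, hc1, hc2, hc3⟩ := second (F := {a, z}) (v := b) h.good (by
      rw [Finset.mem_insert, Finset.mem_singleton, not_or]; exact ⟨hba, hbz⟩) hyb
    rw [Finset.mem_insert, Finset.mem_singleton, not_or] at hc1
    have hcl := (supp_one hA h.good hc3).2.1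
    have acz : g.Adj z c := hcl z (by simp) c (by simp) (fun e => hc1.2 e.symm)
    have abz : g.Adj z b := hEcl z hzE b hbE (fun e => hbz e.symm)
    have hcb : ¬ Sp g c b := by
      rintro (e | e)
      · exact hc2 e
      · rw [e] at acz; exact g.excl abz acz
    by_cases hcT : c ∈ T ∪ T.image g.a
    · obtain ⟨f, hf, -, -⟩ := hav z
      obtain ⟨t, t', ht, ht', htt, hyt, hyt'⟩ := two_ext hA h hT hf
      have hfs := supp_one (A_inv g (P := T) hA) (Good.desc g hTc h.good) hf
      have hfd : Disjoint f (T ∪ T.image g.a) :=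
        Finset.disjoint_of_subset_left hfs.2.2 Finset.sdiff_disjoint
      rw [Finset.disjoint_left] at hfd
      have hfB := hB f hf
      have haQ : a ∈ T ∪ T.image g.a := Finset.mem_union_left _ haT
      -- `s` is the pair of `a` or of `w`
      have key : ∀ s w : X, s ∈ T ∪ T.image g.a → w ∈ T ∪ T.image g.a →
          y (insert s f) = 1 → y (insert w {a, z}) = 1 → Sp g s a ∨ Sp g s w := by
        intro s w hs hw h1 h2
        obtain ⟨u, hu, h3⟩ := h.meet _ _ h1 h2
        rw [Finset.mem_insert] at hu
        simp only [Finset.mem_insert, Finset.mem_singleton] at h3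
        have h4 : Sp g u w ∨ Sp g u a ∨ Sp g u z := by
          rcases h3 with (h3 | h3 | h3) | (h3 | h3 | h3)
          · exact Or.inl (Or.inl h3)
          · exact Or.inr (Or.inl (Or.inl h3))
          · exact Or.inr (Or.inr (Or.inl h3))
          · exact Or.inl (Or.inr (by rw [← h3, g.ha]))
          · exact Or.inr (Or.inl (Or.inr (by rw [← h3, g.ha])))
          · exact Or.inr (Or.inr (Or.inr (by rw [← h3, g.ha])))
        have hQs : ∀ p q : X, Sp g p q → q ∈ T ∪ T.image g.a → p ∈ T ∪ T.image g.a := by
          intro p q hpq hq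
          rcases hpq with rfl | rfl
          · exact hq
          · exact a_mem_Q.mpr hq
        rcases hu with rfl | hu
        · rcases h4 with h4 | h4 | h4
          · exact Or.inr h4
          · exact Or.inl h4
          · exact absurd (hQs _ _ h4.symm hs) hz
        · exfalso
          rcases h4 with h4 | h4 | h4
          · exact hfd hu (hQs _ _ h4 hw)
          · exact hfd hu (hQs _ _ h4 haQ)
          · apply hzB
            rcases h4 with h4 | h4
            · rw [← h4]; exact hfB hu
            · have h5 : z = g.a u := by rw [h4, g.ha]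
              rw [h5]; exact inv_mem hBi (hfB hu)
      have both : ∀ s, s ∈ T ∪ T.image g.a → y (insert s f) = 1 → Sp g s a := by
        intro s hs h1
        rcases key s b hs hbT h1 hyb with h2 | h2
        · exact h2
        · rcases key s c hs hcT h1 hc3 with h3 | h3
          · exact h3
          · exact absurd (h3.symm.trans h2) hcb
      have r1 := both t (Finset.mem_union_left _ ht) hyt
      have r2 := both (g.a t') (a_mem_Q.mpr (Finset.mem_union_left _ ht')) hyt'
      have r3 : Sp g t' a := by
        have := r2.anti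
        rwa [g.ha] at this
      exact htt ((sp_clique hTc ht haT r1).trans (sp_clique hTc ht' haT r3).symm)
    · exact one c hcT hc3
  · exact one b hbT (by rw [← hEe]; exact hE)

/-- the four-cliques do not cover the icosahedron -/
noncomputable def E4 : ED where
  n := 6
  m := 4
  C := M6
  Fs := ICO
  Ns := T4
  cands := E3.cands.take 4
  covT := E3.covT
  tbl := []
  reps := []

end

end Pool.Agent.H63.RP
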