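import Pool.Agent.H63.RP.Geo

/-!
Leaves of the classification trees: comparison of a signed graph with a representative.
-/

set_option autoImplicit false
set_option linter.unusedSectionVars false

namespace Pool.Agent.H63.RP

open Pool.Agent.TH651.RP5

/-- collect the bits of `S` at the positions `prev` -/
noncomputable def gath (S : ℕ) (prev : List ℕ) : ℕ :=
  List.rec (motive := fun _ => ℕ) (nat_lit 0)
    (fun p _ ih => Nat.add (Nat.land (Nat.shiftRight S p) (nat_lit 1)) (Nat.mul (nat_lit 2) ih)) prev

/-- `d` : remaining code, `prev` : positions, `mk` : `2 ^ length - 1`, `sg` : signs,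
`us` : used positions -/
noncomputable def relC (S : ℕ) (rep : List ℕ) : ℕ → List ℕ → ℕ → ℕ → ℕ → Bool :=
  List.rec (motive := fun _ => ℕ → List ℕ → ℕ → ℕ → ℕ → Bool)
    (fun _ _ _ _ us => Nat.beq us (nat_lit 131071))
    (fun c _ ih d prev mk sg us =>
      st (Nat.land (Nat.shiftRight d (nat_lit 1)) (nat_lit 31)) (fun q =>
      st (Nat.land d (nat_lit 1)) (fun e =>
      st (Nat.shiftRight S (Nat.mul q (nat_lit 17))) (fun Sq =>
        bc (Nat.beq (Nat.xor (Nat.xor (gath Sq prev) sg)
            (Nat.mul e mk)) c)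
          (st (Nat.shiftRight d (nat_lit 6)) (fun d' =>
            st (Nat.add (Nat.mul (nat_lit 2) mk) (nat_lit 1)) (fun mk' =>
            st (Nat.lor us (Nat.shiftLeft (nat_lit 1) q)) (fun us' =>
            st (Nat.add e (Nat.mul (nat_lit 2) sg)) (fun sg' =>
                ih d' (q :: prev) mk' sg' us'))))) false)))) rep

/-! ### soundness of the comparison -/

theorem testBit_add_double {b n : ℕ} (hb : b ≤ 1) (i : ℕ) :
    (b + 2 * n).testBit i = if i = 0 then (b == 1) else n.testBit (i - 1) := by
  cases i with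
  | zero =>
    rw [if_pos rfl, Nat.testBit_zero]
    rcases Nat.le_one_iff_eq_zero_or_eq_one.mp hb with rfl | rfl
    · simp
    · have : (1 + 2 * n) % 2 = 1 := by omega
      rw [this]; rfl
  | succ i =>
    rw [if_neg (by omega), Nat.testBit_succ, Nat.add_sub_cancel]
    congr 1
    omega

theorem land_one_le (a : ℕ) : Nat.land a 1 ≤ 1 := by
  have : Nat.land a 1 = a % 2 := Nat.and_one_is_mod a
  omega

theorem land_shr_one {S p : ℕ} : (Nat.land (Nat.shiftRight S p) 1 == 1) = S.testBit p := by
  have h : Nat.land (Nat.shiftRight S p) 1 = (S >>> p) % 2 := Nat.and_one_is_mod _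
  rw [h, Nat.testBit_eq_decide_div_mod_eq, ← Nat.shiftRight_eq_div_pow]
  rcases Nat.mod_two_eq_zero_or_one (S >>> p) with h1 | h1 <;> rw [h1] <;> rfl

theorem testBit_gath (S : ℕ) : ∀ (prev : List ℕ) (t : ℕ),
    (gath S prev).testBit t = (decide (t < prev.length) && S.testBit (prev.getD t 0)) := by
  intro prev
  induction prev with
  | nil => intro t; simp [gath]
  | cons p prev ih =>
    intro t
    have e : gath S (p :: prev) = Nat.land (Nat.shiftRight S p) 1 + 2 * gath S prev := rfl
    rw [e, testBit_add_double (land_one_le _)]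
    cases t with
    | zero => rw [if_pos rfl, land_shr_one]; simp
    | succ t =>
      rw [if_neg (by omega), Nat.add_sub_cancel, ih]
      simp

/-- the relation between signed positions and codes -/
def Rel (S : ℕ) : List (ℕ × ℕ) → List ℕ → Prop
  | [], [] => True
  | (q, e) :: ws, c :: cs => Rel S ws cs ∧ e ≤ 1 ∧ ∀ t < ws.length,
      c.testBit t = (S.testBit (17 * q + (ws.getD t (0, 0)).1) ^^ (e == 1) ^^
        ((ws.getD t (0, 0)).2 == 1))
  | _, _ => False

theorem Rel.length {S : ℕ} : ∀ {ws : List (ℕ × ℕ)} {cs : List ℕ}, Rel S ws cs →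
    ws.length = cs.length
  | [], [], _ => rfl
  | (_, _) :: _, _ :: _, h => by
    rw [List.length_cons, List.length_cons, Rel.length h.1]
  | [], _ :: _, h => absurd h (by simp [Rel])
  | (_, _) :: _, [], h => absurd h (by simp [Rel])

theorem Rel.get {S : ℕ} : ∀ {ws : List (ℕ × ℕ)} {cs : List ℕ}, Rel S ws cs →
    ∀ i j, i < j → j < ws.length → (cs.getD i 0).testBit (j - i - 1) =
      (S.testBit (17 * (ws.getD i (0, 0)).1 + (ws.getD j (0, 0)).1) ^^
        ((ws.getD i (0, 0)).2 == 1) ^^ ((ws.getD j (0, 0)).2 == 1))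
  | [], [], _, i, j, _, h => absurd h (by simp)
  | (q, e) :: ws, c :: cs, h, i, j, hij, hj => by
    obtain ⟨h1, h2, h3⟩ := h
    rw [List.length_cons] at hj
    cases i with
    | zero =>
      cases j with
      | zero => omega
      | succ j =>
        have := h3 j (by omega)
        simpa using this
    | succ i =>
      cases j with
      | zero => omega
      | succ j =>
        have := Rel.get h1 i j (by omega) (by omega)
        have e2 : j + 1 - (i + 1) - 1 = j - i - 1 := by omega
        rw [e2]
        simpa using this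
  | [], _ :: _, h, _, _, _, _ => absurd h (by simp [Rel])
  | (_, _) :: _, [], h, _, _, _, _ => absurd h (by simp [Rel])

theorem Rel.le {S : ℕ} : ∀ {ws : List (ℕ × ℕ)} {cs : List ℕ}, Rel S ws cs →
    ∀ i < ws.length, (ws.getD i (0, 0)).2 ≤ 1
  | [], [], _, i, h => absurd h (by simp)
  | (q, e) :: ws, c :: cs, h, i, hi => by
    obtain ⟨h1, h2, h3⟩ := h
    rw [List.length_cons] at hi
    cases i with
    | zero => simpa using h2
    | succ i =>
      have := Rel.le h1 i (by omega)
      simpa using this
  | [], _ :: _, h, _, _ => absurd h (by simp [Rel])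
  | (_, _) :: _, [], h, _, _ => absurd h (by simp [Rel])

theorem relC_sound (S : ℕ) : ∀ (rep : List ℕ) (d : ℕ) (ws : List (ℕ × ℕ)) (acc : List ℕ)
    (mk sg us : ℕ), Rel S ws acc → mk = 2 ^ ws.length - 1 →
    (∀ t, sg.testBit t = (decide (t < ws.length) && ((ws.getD t (0, 0)).2 == 1))) →
    (∀ i, us.testBit i = true → i ∈ ws.map Prod.fst) →
    relC S rep d (ws.map Prod.fst) mk sg us = true →
    ∃ ws' : List (ℕ × ℕ), Rel S ws' (rep.reverse ++ acc) ∧
      ∀ i < 17, i ∈ ws'.map Prod.fst := by
  intro rep
  induction rep with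
  | nil =>
    intro d ws acc mk sg us h1 _ _ h4 h5
    refine ⟨ws, by simpa using h1, fun i hi => h4 i ?_⟩
    have e : relC S [] d (ws.map Prod.fst) mk sg us = Nat.beq us 131071 := rfl
    rw [e, beq_iff] at h5
    rw [h5]
    have : (131071 : ℕ) = 2 ^ 17 - 1 := by norm_num
    rw [this, Nat.testBit_two_pow_sub_one, decide_eq_true_eq]
    exact hi
  | cons c rep ih =>
    intro d ws acc mk sg us h1 h2 h3 h4 h5
    set q := Nat.land (Nat.shiftRight d 1) 31 with hq
    set e := Nat.land d 1 with he
    have e1 : relC S (c :: rep) d (ws.map Prod.fst) mk sg us =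
      st (Nat.land (Nat.shiftRight d 1) 31) (fun q =>
      st (Nat.land d 1) (fun e =>
      st (Nat.shiftRight S (Nat.mul q 17)) (fun Sq =>
        bc (Nat.beq (Nat.xor (Nat.xor (gath Sq (ws.map Prod.fst)) sg)
            (Nat.mul e mk)) c)
          (st (Nat.shiftRight d 6) (fun d' =>
            st (Nat.add (Nat.mul 2 mk) 1) (fun mk' =>
            st (Nat.lor us (Nat.shiftLeft 1 q)) (fun us' =>
            st (Nat.add e (Nat.mul 2 sg)) (fun sg' =>
                relC S rep d' (q :: ws.map Prod.fst) mk' sg' us'))))) false))) := rfl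
    rw [e1] at h5
    simp only [st_eq] at h5
    rw [← hq, ← he, bc_eq] at h5
    split_ifs at h5 with h6
    rw [beq_iff] at h6
    have hele : e ≤ 1 := land_one_le d
    have key : ∀ t < ws.length, c.testBit t = (S.testBit (17 * q + (ws.getD t (0, 0)).1) ^^
        (e == 1) ^^ ((ws.getD t (0, 0)).2 == 1)) := by
      intro t ht
      have e2 : c.testBit t = ((gath (Nat.shiftRight S (Nat.mul q 17))
          (ws.map Prod.fst)).testBit t ^^ sg.testBit t ^^ (Nat.mul e mk).testBit t) := by
        rw [← h6]
        refine (Nat.testBit_xor (Nat.xor (gath (Nat.shiftRight S (Nat.mul q 17))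
          (ws.map Prod.fst)) sg) (Nat.mul e mk) t).trans ?_
        congr 1
        exact Nat.testBit_xor (gath (Nat.shiftRight S (Nat.mul q 17)) (ws.map Prod.fst)) sg t
      have e3 : (Nat.mul e mk).testBit t = (e == 1) := by
        rcases Nat.le_one_iff_eq_zero_or_eq_one.mp hele with h | h
        · rw [h]
          have : Nat.mul 0 mk = 0 := Nat.zero_mul mk
          rw [this, Nat.zero_testBit]; rfl
        · rw [h]
          have : Nat.mul 1 mk = mk := Nat.one_mul mk
          rw [this, h2, Nat.testBit_two_pow_sub_one]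
          simp [ht]
      have e4 : Nat.mul q 17 = 17 * q := Nat.mul_comm q 17
      have e5 : ((ws.map Prod.fst).getD t 0) = (ws.getD t (0, 0)).1 := by
        rw [List.getD_eq_getElem _ _ (by simpa using ht), List.getElem_map,
          List.getD_eq_getElem _ _ ht]
      rw [e2, e3, testBit_gath, h3 t, testBit_shr, e4, e5]
      simp only [List.length_map, ht, decide_true, Bool.true_and]
      rw [Bool.xor_assoc, Bool.xor_assoc]
      congr 1
      exact Bool.xor_comm _ _
    obtain ⟨ws', h7, h8⟩ := ih (Nat.shiftRight d 6) ((q, e) :: ws) (c :: acc)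
      (Nat.add (Nat.mul 2 mk) 1) (Nat.add e (Nat.mul 2 sg)) (Nat.lor us (Nat.shiftLeft 1 q))
      ⟨h1, hele, key⟩ (by
        rw [List.length_cons, pow_succ]
        have e6 : Nat.add (Nat.mul 2 mk) 1 = 2 * mk + 1 := rfl
        have h9 : 1 ≤ 2 ^ ws.length := Nat.one_le_two_pow
        rw [e6, h2]
        omega) (by
        intro t
        have e6 : Nat.add e (Nat.mul 2 sg) = e + 2 * sg := rfl
        rw [e6, testBit_add_double hele]
        cases t with
        | zero => simp
        | succ t =>
          rw [if_neg (by omega), Nat.add_sub_cancel, h3 t]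
          simp) (by
        intro i hi
        rw [testBit_lor, Bool.or_eq_true] at hi
        rw [List.map_cons, List.mem_cons]
        rcases hi with hi | hi
        · exact Or.inr (h4 i hi)
        · have h9 : (Nat.shiftLeft 1 q).testBit i = decide (i = q) := testBit_one_shiftLeft q i
          rw [h9, decide_eq_true_eq] at hi
          exact Or.inl hi) h5
    refine ⟨ws', ?_, h8⟩
    rw [List.reverse_cons, List.append_assoc]
    exact h7

/-- `S` codes the signs `C` -/
def SqC (S : ℕ) (C : List ℕ) : Prop := ∀ p < 17, ∀ q < 17, p ≠ q →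
  S.testBit (17 * p + q) = (if p < q then (C.getD q 0).testBit p else (C.getD p 0).testBit q)

/-- comparison of the two codings of a representative -/
def repOK (C U : List ℕ) : Bool :=
  Nat.beq U.length 17 && (List.range 17).all (fun j => (List.range j).all (fun i =>
    (C.getD j 0).testBit i == (U.getD (16 - i) 0).testBit (j - i - 1)))

theorem rel_relOK {S : ℕ} {C C' U : List ℕ} (hS : SqC S C) (hU : repOK C' U = true) {d : ℕ}
    (h : relC S U d [] 0 0 0 = true) : ∃ lam, relOK 17 C lam C' = true := by
  rw [repOK, Bool.and_eq_true, beq_iff, List.all_eq_true] at hU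
  obtain ⟨hUl, hU⟩ := hU
  obtain ⟨ws, h1, h2⟩ := relC_sound S U d [] [] 0 0 0 (by trivial) (by simp) (by simp)
    (by simp) h
  rw [List.append_nil] at h1
  have hl : ws.length = 17 := by rw [h1.length, List.length_reverse, hUl]
  have hset : (ws.map Prod.fst).toFinset = Finset.range 17 := by
    symm
    refine Finset.eq_of_subset_of_card_le ?_ ?_
    · intro i hi
      rw [List.mem_toFinset]
      exact h2 i (Finset.mem_range.mp hi)
    · refine (List.toFinset_card_le _).trans ?_
      rw [List.length_map, hl, Finset.card_range]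
  have hnd : (ws.map Prod.fst).Nodup := by
    apply nodup_of_card
    rw [hset, List.length_map, hl, Finset.card_range]
  have hlt : ∀ i < 17, (ws.getD i (0, 0)).1 < 17 := by
    intro i hi
    rw [← Finset.mem_range, ← hset, List.mem_toFinset, List.getD_eq_getElem _ _ (by omega)]
    exact List.mem_map_of_mem (List.getElem_mem _)
  have hne : ∀ i j, i < j → j < 17 → (ws.getD i (0, 0)).1 ≠ (ws.getD j (0, 0)).1 := by
    intro i j hij hj he
    rw [List.getD_eq_getElem _ _ (by omega), List.getD_eq_getElem _ _ (by omega)] at he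
    have h3 : (ws.map Prod.fst)[i]'(by rw [List.length_map]; omega) =
        (ws.map Prod.fst)[j]'(by rw [List.length_map]; omega) := by
      rw [List.getElem_map, List.getElem_map]; exact he
    have := (List.Nodup.getElem_inj_iff hnd).mp h3
    omega
  have hle := h1.le
  refine ⟨ws.map (fun w => 2 * w.1 + w.2), ?_⟩
  have hlam : ∀ i < 17, (ws.map (fun w => 2 * w.1 + w.2)).getD i 0 =
      2 * (ws.getD i (0, 0)).1 + (ws.getD i (0, 0)).2 := by
    intro i hi
    rw [List.getD_eq_getElem _ _ (by rw [List.length_map]; omega), List.getElem_map,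
      List.getD_eq_getElem _ _ (by omega)]
  rw [relOK, List.all_eq_true]
  intro j hj
  rw [List.mem_range] at hj
  rw [Bool.and_eq_true, Nat.ble_eq, List.all_eq_true]
  refine ⟨?_, ?_⟩
  · rw [hlam j hj]
    have := hlt j hj
    have := hle j (by omega)
    omega
  · intro i hi
    rw [List.mem_range] at hi
    have hi17 : i < 17 := by omega
    rw [Bool.and_eq_true]
    have a1 := hle i (by omega)
    have a2 := hle j (by omega)
    have a3 := hlt i hi17
    have a4 := hlt j hj
    have a5 := hne i j hi hj
    have b1 : (2 * (ws.getD i (0, 0)).1 + (ws.getD i (0, 0)).2) / 2 = (ws.getD i (0, 0)).1 := by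
      omega
    have b2 : (2 * (ws.getD j (0, 0)).1 + (ws.getD j (0, 0)).2) / 2 = (ws.getD j (0, 0)).1 := by
      omega
    constructor
    · rw [hlam i hi17, hlam j hj, b1, b2, Bool.not_eq_true', ← Bool.not_eq_true, beq_iff]
      exact a5
    · rw [beq_iff_eq, hlam i hi17, hlam j hj, nadj, b1, b2, ← hS _ a3 _ a4 a5]
      have c1 := hU j (List.mem_range.mpr hj)
      rw [List.all_eq_true] at c1
      have c2 := c1 i (List.mem_range.mpr hi)
      rw [beq_iff_eq] at c2
      have c3 := h1.get i j hi (by omega)
      have c4 : U.reverse.getD i 0 = U.getD (16 - i) 0 := by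
        rw [List.getD_eq_getElem _ _ (by rw [List.length_reverse]; omega), List.getElem_reverse,
          List.getD_eq_getElem _ _ (by omega)]
        congr 1
        omega
      rw [c4] at c3
      rw [c2, c3, Bool.xor_assoc]
      congr 1
      generalize (ws.getD i (0, 0)).2 = e1 at a1 ⊢
      generalize (ws.getD j (0, 0)).2 = e2 at a2 ⊢
      generalize (ws.getD i (0, 0)).1 = p1
      generalize (ws.getD j (0, 0)).1 = p2
      have h9 : (2 * p1 + e1 + (2 * p2 + e2)) % 2 = (e1 + e2) % 2 := by omega
      rw [h9]
      rcases Nat.le_one_iff_eq_zero_or_eq_one.mp a1 with rfl | rfl <;>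
        rcases Nat.le_one_iff_eq_zero_or_eq_one.mp a2 with rfl | rfl <;> rfl

end Pool.Agent.H63.RP
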