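import Pool.Agent.H63.RP.Leaf

/-!
Leaves of the classification trees: the symmetric matrix of signs.
-/

set_option autoImplicit false
set_option linter.unusedSectionVars false

namespace Pool.Agent.H63.RP

open Pool.Agent.TH651.RP5

/-- spread the eleven bits of `r` to the multiples of `17` -/
noncomputable def sprd (r : ℕ) : ℕ :=
  Nat.land (Nat.mul r (nat_lit 1461523938416389008123852738184089783721235906561))
    (nat_lit 1496589094695499186470450515180624054925945538215937)

noncomputable def sprdS (r : ℕ) : List ℕ → ℕ :=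
  List.rec (motive := fun _ => ℕ) (nat_lit 0) (fun i _ ih =>
    bc (Nat.beq (Nat.land (Nat.shiftRight r i) (nat_lit 1)) (nat_lit 0)) ih
      (Nat.lor (Nat.shiftLeft (nat_lit 1) (Nat.mul (nat_lit 17) i)) ih))

noncomputable def sprdOK : ℕ → Bool :=
  Nat.rec true (fun r ih => bc (Nat.beq (sprd r) (sprdS r [0, 1, 2, 3, 4, 5, 6, 7, 8, 9, 10]))
    ih false)

theorem sprdOK_spec : ∀ N, sprdOK N = true → ∀ r < N,
    sprd r = sprdS r [0, 1, 2, 3, 4, 5, 6, 7, 8, 9, 10] := by
  intro N
  induction N with
  | zero => intro _ r hr; omega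
  | succ N ih =>
    intro h r hr
    have e : sprdOK (N + 1) = bc (Nat.beq (sprd N) (sprdS N [0, 1, 2, 3, 4, 5, 6, 7, 8, 9, 10]))
      (sprdOK N) false := rfl
    rw [e, bc_eq] at h
    split_ifs at h with h1
    rcases Nat.lt_or_ge r N with h2 | h2
    · exact ih h r h2
    · have : r = N := by omega
      rw [this]
      exact (beq_iff _ _).mp h1

theorem sprdOK_2048 : sprdOK 2048 = true := by decide +kernel

theorem testBit_sprdS (r : ℕ) : ∀ (L : List ℕ) (m : ℕ),
    (sprdS r L).testBit m = true ↔ ∃ i ∈ L, m = 17 * i ∧ r.testBit i = true := by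
  intro L
  induction L with
  | nil => intro m; simp [sprdS]
  | cons i L ih =>
    intro m
    have e : sprdS r (i :: L) = bc (Nat.beq (Nat.land (Nat.shiftRight r i) 1) 0) (sprdS r L)
      (Nat.lor (Nat.shiftLeft 1 (17 * i)) (sprdS r L)) := rfl
    rw [e, bc_eq]
    split_ifs with h
    · rw [ih]
      constructor
      · rintro ⟨j, hj, h1, h2⟩
        exact ⟨j, List.mem_cons_of_mem _ hj, h1, h2⟩
      · rintro ⟨j, hj, h1, h2⟩
        rcases List.mem_cons.mp hj with rfl | hj
        · rw [bit0_eq h] at h2; exact absurd h2 (by decide)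
        · exact ⟨j, hj, h1, h2⟩
    · rw [Bool.not_eq_true] at h
      have h9 : (Nat.shiftLeft 1 (17 * i)).testBit m = decide (m = 17 * i) :=
        testBit_one_shiftLeft _ _
      rw [testBit_lor, Bool.or_eq_true, h9, decide_eq_true_eq, ih]
      constructor
      · rintro (h1 | ⟨j, hj, h1, h2⟩)
        · exact ⟨i, List.mem_cons_self, h1, bit0_ne h⟩
        · exact ⟨j, List.mem_cons_of_mem _ hj, h1, h2⟩
      · rintro ⟨j, hj, h1, h2⟩
        rcases List.mem_cons.mp hj with rfl | hj
        · exact Or.inl h1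
        · exact Or.inr ⟨j, hj, h1, h2⟩

theorem testBit_of_lt {r i : ℕ} (hr : r < 2048) (h : r.testBit i = true) : i < 11 := by
  by_contra hcon
  have h2 : r < 2 ^ i := lt_of_lt_of_le hr (by
    have : (2048 : ℕ) = 2 ^ 11 := by norm_num
    rw [this]
    exact Nat.pow_le_pow_right (by norm_num) (by omega))
  rw [Nat.testBit_lt_two_pow h2] at h
  exact absurd h (by decide)

theorem testBit_sprd {r : ℕ} (hr : r < 2048) (m : ℕ) :
    (sprd r).testBit m = true ↔ ∃ i, m = 17 * i ∧ r.testBit i = true := by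
  rw [sprdOK_spec 2048 sprdOK_2048 r hr, testBit_sprdS]
  constructor
  · rintro ⟨i, -, h⟩
    exact ⟨i, h⟩
  · rintro ⟨i, h1, h2⟩
    have h3 := testBit_of_lt hr h2
    refine ⟨i, ?_, h1, h2⟩
    interval_cases i <;> decide

/-- row and column -/
theorem testBit_rc {r c p q : ℕ} (hr : r < 2048) (hp : p < 17) (hq : q < 17) (hc : c < 17) :
    (Nat.lor (Nat.shiftLeft r (17 * c)) (Nat.shiftLeft (sprd r) c)).testBit (17 * p + q) = true ↔
      (p = c ∧ r.testBit q = true) ∨ (q = c ∧ r.testBit p = true) := by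
  rw [testBit_lor, Bool.or_eq_true, testBit_shl, testBit_shl, Bool.and_eq_true, Bool.and_eq_true,
    decide_eq_true_eq, decide_eq_true_eq, testBit_sprd hr]
  constructor
  · rintro (⟨h1, h2⟩ | ⟨h1, i, h2, h3⟩)
    · left
      have h4 := testBit_of_lt hr h2
      have h5 : p = c := by omega
      refine ⟨h5, ?_⟩
      subst h5
      have : 17 * p + q - 17 * p = q := by omega
      rwa [this] at h2
    · right
      have h4 := testBit_of_lt hr h3
      have h5 : q = c := by omega
      refine ⟨h5, ?_⟩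
      have : p = i := by omega
      rw [this]; exact h3
  · rintro (⟨rfl, h⟩ | ⟨rfl, h⟩)
    · left
      refine ⟨by omega, ?_⟩
      have : 17 * p + q - 17 * p = q := by omega
      rw [this]; exact h
    · right
      exact ⟨by omega, p, by omega, h⟩

noncomputable def sqm (S0 r0 r1 r2 r3 r4 r5 : ℕ) : ℕ :=
  Nat.lor S0 (Nat.lor (Nat.lor (Nat.shiftLeft r0 (nat_lit 187)) (Nat.shiftLeft (sprd r0) (nat_lit 11)))
  (Nat.lor (Nat.lor (Nat.shiftLeft r1 (nat_lit 204)) (Nat.shiftLeft (sprd r1) (nat_lit 12)))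
  (Nat.lor (Nat.lor (Nat.shiftLeft r2 (nat_lit 221)) (Nat.shiftLeft (sprd r2) (nat_lit 13)))
  (Nat.lor (Nat.lor (Nat.shiftLeft r3 (nat_lit 238)) (Nat.shiftLeft (sprd r3) (nat_lit 14)))
  (Nat.lor (Nat.lor (Nat.shiftLeft r4 (nat_lit 255)) (Nat.shiftLeft (sprd r4) (nat_lit 15)))
  (Nat.lor (Nat.shiftLeft r5 (nat_lit 272)) (Nat.shiftLeft (sprd r5) (nat_lit 16))))))))

/-- the matrix of the base -/
def s0OK (S0 : ℕ) (C : List ℕ) : Bool :=
  Nat.beq C.length 11 &&
  (List.range 17).all (fun p => (List.range 17).all (fun q =>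
    S0.testBit (17 * p + q) == (Nat.ble (p + 1) 11 && (Nat.ble (q + 1) 11 &&
      (if p < q then (C.getD q 0).testBit p else (if q < p then (C.getD p 0).testBit q
        else false)))))) 

theorem sqm_SqC {S0 : ℕ} {C : List ℕ} (h : s0OK S0 C = true) {r0 r1 r2 r3 r4 r5 : ℕ}
    (h0 : r0 < 2048) (h1 : r1 < 2048) (h2 : r2 < 2048) (h3 : r3 < 2048) (h4 : r4 < 2048)
    (h5 : r5 < 2048) : SqC (sqm S0 r0 r1 r2 r3 r4 r5) (C ++ [r0, r1, r2, r3, r4, r5]) := by
  rw [s0OK, Bool.and_eq_true, beq_iff, List.all_eq_true] at h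
  obtain ⟨hC, hS⟩ := h
  intro p hp q hq hpq
  have hS1 := hS p (List.mem_range.mpr hp)
  rw [List.all_eq_true] at hS1
  have hS2 := hS1 q (List.mem_range.mpr hq)
  rw [beq_iff_eq] at hS2
  have hlo : ∀ j < 11, (C ++ [r0, r1, r2, r3, r4, r5]).getD j 0 = C.getD j 0 :=
    fun j hj => getD_append_left (by omega)
  have hhi : ∀ s, (C ++ [r0, r1, r2, r3, r4, r5]).getD (11 + s) 0 =
      [r0, r1, r2, r3, r4, r5].getD s 0 := by
    intro s
    rw [List.getD_append_right _ _ _ _ (by omega), hC, Nat.add_sub_cancel_left]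
  have c0 := testBit_rc h0 hp hq (c := 11) (by norm_num)
  have c1 := testBit_rc h1 hp hq (c := 12) (by norm_num)
  have c2 := testBit_rc h2 hp hq (c := 13) (by norm_num)
  have c3 := testBit_rc h3 hp hq (c := 14) (by norm_num)
  have c4 := testBit_rc h4 hp hq (c := 15) (by norm_num)
  have c5 := testBit_rc h5 hp hq (c := 16) (by norm_num)
  have a0 := fun i => testBit_of_lt (i := i) h0
  have a1 := fun i => testBit_of_lt (i := i) h1
  have a2 := fun i => testBit_of_lt (i := i) h2
  have a3 := fun i => testBit_of_lt (i := i) h3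
  have a4 := fun i => testBit_of_lt (i := i) h4
  have a5 := fun i => testBit_of_lt (i := i) h5
  have hm : (sqm S0 r0 r1 r2 r3 r4 r5).testBit (17 * p + q) = true ↔
      S0.testBit (17 * p + q) = true ∨ ((p = 11 ∧ r0.testBit q = true) ∨
        (q = 11 ∧ r0.testBit p = true)) ∨ ((p = 12 ∧ r1.testBit q = true) ∨
        (q = 12 ∧ r1.testBit p = true)) ∨ ((p = 13 ∧ r2.testBit q = true) ∨
        (q = 13 ∧ r2.testBit p = true)) ∨ ((p = 14 ∧ r3.testBit q = true) ∨
        (q = 14 ∧ r3.testBit p = true)) ∨ ((p = 15 ∧ r4.testBit q = true) ∨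
        (q = 15 ∧ r4.testBit p = true)) ∨ ((p = 16 ∧ r5.testBit q = true) ∨
        (q = 16 ∧ r5.testBit p = true)) := by
    rw [← c0, ← c1, ← c2, ← c3, ← c4, ← c5]
    unfold sqm
    simp only [testBit_lor (a := S0), testBit_lor (a := Nat.lor (Nat.shiftLeft _ _) _),
      Bool.or_eq_true]
  rw [Bool.eq_iff_iff, hm, hS2]
  clear hm c0 c1 c2 c3 c4 c5 hS2 hS1 hS
  have hp' : p < 11 ∨ ∃ s, s < 6 ∧ p = 11 + s := by
    by_cases h : p < 11
    · exact Or.inl h
    · exact Or.inr ⟨p - 11, by omega, by omega⟩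
  have hq' : q < 11 ∨ ∃ s, s < 6 ∧ q = 11 + s := by
    by_cases h : q < 11
    · exact Or.inl h
    · exact Or.inr ⟨q - 11, by omega, by omega⟩
  rcases hp' with hp' | ⟨s, hs, rfl⟩
  · rcases hq' with hq' | ⟨t, ht, rfl⟩
    · rw [hlo p hp', hlo q hq']
      have e1 : Nat.ble (p + 1) 11 = true := Nat.ble_eq.mpr hp'
      have e2 : Nat.ble (q + 1) 11 = true := Nat.ble_eq.mpr hq'
      rw [e1, e2, Bool.true_and, Bool.true_and]
      constructor
      · rintro (h | h)
        · by_cases hlt : p < q
          · rw [if_pos hlt] at h ⊢; exact h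
          · rw [if_neg hlt] at h ⊢
            rw [if_pos (by omega)] at h; exact h
        · omega
      · intro h
        left
        by_cases hlt : p < q
        · rw [if_pos hlt] at h ⊢; exact h
        · rw [if_neg hlt] at h ⊢
          rw [if_pos (by omega)]; exact h
    · have e2 : Nat.ble (11 + t + 1) 11 = false := by
        rw [← Bool.not_eq_true, Nat.ble_eq]; omega
      rw [e2, hhi]
      simp only [Bool.false_and, Bool.and_false]
      rw [if_pos (show p < 11 + t by omega)]
      have n1 : ¬ p = 11 := by omega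
      have n2 : ¬ p = 12 := by omega
      have n3 : ¬ p = 13 := by omega
      have n4 : ¬ p = 14 := by omega
      have n5 : ¬ p = 15 := by omega
      have n6 : ¬ p = 16 := by omega
      interval_cases t <;> simp [n1, n2, n3, n4, n5, n6]
  · have e1 : Nat.ble (11 + s + 1) 11 = false := by
      rw [← Bool.not_eq_true, Nat.ble_eq]; omega
    rw [e1, hhi]
    simp only [Bool.false_and]
    rcases hq' with hq' | ⟨t, ht, rfl⟩
    · rw [if_neg (show ¬ 11 + s < q by omega)]
      have n1 : ¬ q = 11 := by omega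
      have n2 : ¬ q = 12 := by omega
      have n3 : ¬ q = 13 := by omega
      have n4 : ¬ q = 14 := by omega
      have n5 : ¬ q = 15 := by omega
      have n6 : ¬ q = 16 := by omega
      interval_cases s <;> simp [n1, n2, n3, n4, n5, n6]
    · rw [hhi]
      have b0 : ∀ i, r0.testBit (11 + i) = false := fun i => by
        rw [← Bool.not_eq_true]; intro h; have := a0 _ h; omega
      have b1 : ∀ i, r1.testBit (11 + i) = false := fun i => by
        rw [← Bool.not_eq_true]; intro h; have := a1 _ h; omega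
      have b2 : ∀ i, r2.testBit (11 + i) = false := fun i => by
        rw [← Bool.not_eq_true]; intro h; have := a2 _ h; omega
      have b3 : ∀ i, r3.testBit (11 + i) = false := fun i => by
        rw [← Bool.not_eq_true]; intro h; have := a3 _ h; omega
      have b4 : ∀ i, r4.testBit (11 + i) = false := fun i => by
        rw [← Bool.not_eq_true]; intro h; have := a4 _ h; omega
      have b5 : ∀ i, r5.testBit (11 + i) = false := fun i => by
        rw [← Bool.not_eq_true]; intro h; have := a5 _ h; omega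
      simp only [b0, b1, b2, b3, b4, b5]
      have hz : ∀ j i, ([r0, r1, r2, r3, r4, r5].getD j 0).testBit (11 + i) = false := by
        intro j i
        by_cases hj : j < 6
        · interval_cases j <;> simp only [List.getD_cons_zero, List.getD_cons_succ, b0, b1, b2,
            b3, b4, b5]
        · rw [List.getD_eq_default _ _ (by simp; omega), Nat.zero_testBit]
      have hf : (if 11 + s < 11 + t then ([r0, r1, r2, r3, r4, r5].getD t 0).testBit (11 + s)
          else ([r0, r1, r2, r3, r4, r5].getD s 0).testBit (11 + t)) = false := by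
        split_ifs
        · exact hz _ _
        · exact hz _ _
      rw [hf]
      simp

end Pool.Agent.H63.RP
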