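import Pool.Agent.H63.RP.Leaf2

/-!
Classification of the extensions of eleven pairs by a clique with six vertices.
-/

set_option autoImplicit false
set_option linter.unusedSectionVars false

namespace Pool.Agent.H63.RP

open Pool.Agent.TH651.RP5

noncomputable def leaf2 (S0 : ℕ) (reps : LT) (ord : Bool) (t κ s : ℕ) (k : ℕ → Bool) : Bool :=
  bc (Nat.beq (Nat.land (Nat.lor κ (Nat.shiftRight κ (nat_lit 11)))
    (nat_lit 2657158550871164185170323923332499455))
    (nat_lit 2657158550871164185170323923332499455))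
  (st (Nat.land (Nat.shiftRight κ (nat_lit 0)) (nat_lit 2047)) (fun r0 =>
  st (Nat.land (Nat.shiftRight κ (nat_lit 22)) (nat_lit 2047)) (fun r1 =>
  st (Nat.land (Nat.shiftRight κ (nat_lit 44)) (nat_lit 2047)) (fun r2 =>
  st (Nat.land (Nat.shiftRight κ (nat_lit 66)) (nat_lit 2047)) (fun r3 =>
  st (Nat.land (Nat.shiftRight κ (nat_lit 88)) (nat_lit 2047)) (fun r4 =>
  st (Nat.land (Nat.shiftRight κ (nat_lit 110)) (nat_lit 2047)) (fun r5 =>
  bc (Nat.beq t (nat_lit 1023))
    (st (Nat.land s (nat_lit 2596148429267413814265248164610047)) (fun d =>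
     st (Nat.shiftRight s (nat_lit 111)) (fun s' =>
     st (sqm S0 r0 r1 r2 r3 r4 r5) (fun S =>
      bc (relC S (reps.get (Nat.land d (nat_lit 511))) (Nat.shiftRight d (nat_lit 9)) []
        (nat_lit 0) (nat_lit 0) (nat_lit 0)) (k s') false))))
    (bc (Nat.beq t (nat_lit 1022)) (bc ord (bc (Nat.ble r4 r5) false (k s)) false) false)))))))) false

noncomputable def leafT (jobs : List ℕ) (t κ s : ℕ) (k : ℕ → Bool) : Bool :=
  bc (Nat.beq t (nat_lit 1021)) (bc (anyEq κ jobs) (st (Nat.shiftRight s (nat_lit 12)) k) false)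
    false

theorem mask_bits : ∀ s < 6, ∀ i < 11,
    (2657158550871164185170323923332499455 : ℕ).testBit (22 * s + i) = true := by
  decide +kernel

def offs6 : List ℕ := [0, 22, 44, 66, 88, 110]

/-- data of a classification -/
structure SD where
  C : List ℕ
  S0 : ℕ
  NB : ℕ
  nc : ℕ
  tb : LT
  pl : List (List (List ℕ))
  ni : List ℕ
  Ns : List ℕ
  ord : Bool

/-- check of the representatives -/
def repsOK (repsC : List (List ℕ)) (reps : LT) : Prop :=
  ∀ j < 512, reps.get j = [] ∨ (j < repsC.length ∧ repOK (repsC.getD j []) (reps.get j) = true)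

noncomputable def repsOKb (repsC : List (List ℕ)) (reps : LT) : Bool :=
  (List.range 512).all (fun j => (reps.get j).isEmpty ||
    (Nat.ble (j + 1) repsC.length && repOK (repsC.getD j []) (reps.get j)))

theorem repsOK_of {repsC : List (List ℕ)} {reps : LT} (h : repsOKb repsC reps = true) :
    repsOK repsC reps := by
  intro j hj
  rw [repsOKb, List.all_eq_true] at h
  have h1 := h j (List.mem_range.mpr hj)
  rw [Bool.or_eq_true, Bool.and_eq_true, Nat.ble_eq, List.isEmpty_iff] at h1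
  rcases h1 with h1 | h1
  · exact Or.inl h1
  · exact Or.inr ⟨by omega, h1.2⟩

section

variable {X : Type} [Fintype X] [DecidableEq X] {g : SG X} {x : ℕ → X}

theorem rows_of_full {κ : ℕ} {b : List X}
    (hfull : Nat.land (Nat.lor κ (Nat.shiftRight κ 11)) 2657158550871164185170323923332499455 =
      2657158550871164185170323923332499455) (hc : Cons κ (valOf 11 (rwo g x b))) :
    ∀ s < 6, Nat.land (Nat.shiftRight κ (22 * s)) 2047 = row g x 11 (b.getD s (x 0)) := by
  intro s hs
  apply Nat.eq_of_testBit_eq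
  intro i
  have e1 : (2047 : ℕ) = 2 ^ 11 - 1 := by norm_num
  rw [testBit_land, testBit_shr, e1, Nat.testBit_two_pow_sub_one, Bool.eq_iff_iff,
    Bool.and_eq_true, decide_eq_true_eq, testBit_row]
  constructor
  · rintro ⟨h1, h2⟩
    refine ⟨h2, ?_⟩
    have h3 := hc _ h1
    have h4 : valOf 11 (rwo g x b) (22 * s + i) = rwo g x b s i := valOf_lo h2
    rw [h4] at h3
    exact rwo_true.mp h3
  · rintro ⟨h1, h2⟩
    refine ⟨?_, h1⟩
    have h3 := mask_bits s hs i h1
    rw [← hfull, testBit_land, Bool.and_eq_true, testBit_lor, Bool.or_eq_true, testBit_shr] at h3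
    rcases h3.1 with h4 | h4
    · exact h4
    · exfalso
      have h5 := hc _ h4
      have h6 : valOf 11 (rwo g x b) (22 * s + (i + 11)) = !(rwo g x b s i) := valOf_hi h1
      have h7 : 11 + (22 * s + i) = 22 * s + (i + 11) := by omega
      rw [h7, h6, rwo_true.mpr h2] at h5
      exact absurd h5 (by decide)

variable (g x) in
/-- valuations of the enumerations of `Q` -/
def Av (d : SD) (Q : Finset X) (val : ℕ → Bool) : Prop := ∃ b : List X, b.Nodup ∧
  b.toFinset = Q ∧ b.length = 6 ∧ (∀ t < d.Ns.length, Cv g x 11 (b.getD t (x 0)) (d.Ns.getD t 0)) ∧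
  (d.ord = true → row g x 11 (b.getD 4 (x 0)) ≤ row g x 11 (b.getD 5 (x 0))) ∧
  val = valOf 11 (rwo g x b)

variable (g) in
def Res (repsC : List (List ℕ)) (A : Finset X) : Prop :=
  ∃ j < repsC.length, ∃ x' : ℕ → X, Fr g x' 17 (repsC.getD j []) A

theorem list6 (f : X → ℕ) (b : List X) (d : X) (h : b.length = 6) :
    b.map f = [f (b.getD 0 d), f (b.getD 1 d), f (b.getD 2 d), f (b.getD 3 d), f (b.getD 4 d),
      f (b.getD 5 d)] := by
  match b, h with
  | [_, _, _, _, _, _], _ => rfl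

theorem leaf2_sound {d : SD} {repsC : List (List ℕ)} {reps : LT} (hr : repsOK repsC reps)
    (hs0 : s0OK d.S0 d.C = true) {A Q : Finset X} (hA : A.image g.a = A)
    (hQ : Clique g Q) (hQA : Q ⊆ A) (hFr : Fr g x 11 d.C (A \ (Q ∪ Q.image g.a)))
    (t κ s : ℕ) (k : ℕ → Bool) (h : leaf2 d.S0 reps d.ord t κ s k = true) :
    (∀ val, Av g x d Q val → Cons κ val → Res g repsC A) ∧ ∃ s', k s' = true := by
  have hC : d.C.length = 11 := by
    rw [s0OK, Bool.and_eq_true, beq_iff] at hs0
    exact hs0.1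
  unfold leaf2 at h
  rw [bc_eq] at h
  split_ifs at h with hf
  rw [beq_iff] at hf
  simp only [st_eq] at h
  rw [bc_eq] at h
  by_cases h1 : Nat.beq t 1023 = true
  · rw [if_pos h1, bc_eq] at h
    split_ifs at h with h2
    refine ⟨?_, _, h⟩
    rintro val ⟨b, hb1, hb2, hb3, -, -, rfl⟩ hc
    have hrows := rows_of_full hf hc
    have g0 := hrows 0 (by norm_num)
    have g1 := hrows 1 (by norm_num)
    have g2 := hrows 2 (by norm_num)
    have g3 := hrows 3 (by norm_num)
    have g4 := hrows 4 (by norm_num)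
    have g5 := hrows 5 (by norm_num)
    simp only [Nat.mul_zero, Nat.reduceMul] at g0 g1 g2 g3 g4 g5
    rw [g0, g1, g2, g3, g4, g5] at h2
    have hlt : ∀ s, row g x 11 (b.getD s (x 0)) < 2048 := fun s => row_lt
    have hsq := sqm_SqC hs0 (hlt 0) (hlt 1) (hlt 2) (hlt 3) (hlt 4) (hlt 5)
    set j := Nat.land (Nat.land s 2596148429267413814265248164610047) 511 with hj
    have hj2 : j < 512 := by
      have : Nat.land (Nat.land s 2596148429267413814265248164610047) 511 ≤ 511 := Nat.and_le_right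
      omega
    rcases hr j hj2 with h3 | ⟨h3, h4⟩
    · rw [h3] at h2
      have e : ∀ S d, relC S [] d [] 0 0 0 = Nat.beq 0 131071 := fun _ _ => rfl
      rw [e] at h2
      exact absurd h2 (by decide)
    · obtain ⟨lam, hlam⟩ := rel_relOK hsq h4 h2
      have hF1 := hFr.ext (b := b) hC hb1 (by rw [hb2]; exact hQ)
        (by rw [hb2]; exact Finset.sdiff_disjoint)
      rw [hb2, hb3, sdiff_union_Q hA hQA] at hF1
      rw [← list6 (row g x 11) b (x 0) hb3] at hlam
      exact ⟨j, h3, relabel hF1 hlam⟩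
  · rw [if_neg h1, bc_eq] at h
    split_ifs at h with h2
    rw [bc_eq] at h
    split_ifs at h with h3
    rw [bc_eq] at h
    split_ifs at h with h4
    refine ⟨?_, _, h⟩
    rintro val ⟨b, hb1, hb2, hb3, -, hb5, rfl⟩ hc
    exfalso
    have hrows := rows_of_full hf hc
    have g4 := hrows 4 (by norm_num)
    have g5 := hrows 5 (by norm_num)
    simp only [Nat.reduceMul] at g4 g5
    rw [g4, g5, Nat.ble_eq] at h4
    exact h4 (hb5 h3)

theorem leafT_sound {P : (ℕ → Bool) → Prop} {A : (ℕ → Bool) → Prop} {jobs : List ℕ}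
    (hj : ∀ κ ∈ jobs, ∀ val, A val → Cons κ val → P val) (t κ s : ℕ) (k : ℕ → Bool)
    (h : leafT jobs t κ s k = true) :
    (∀ val, A val → Cons κ val → P val) ∧ ∃ s', k s' = true := by
  unfold leafT at h
  rw [bc_eq] at h
  split_ifs at h with h1
  rw [bc_eq, st_eq] at h
  split_ifs at h with h2
  exact ⟨hj κ (anyEq_sound h2), _, h⟩

/-- swap the last two entries, if necessary -/
theorem enum_ord {Ns : List ℕ} {Q : Finset X} {ord : Bool} (hQc : Q.card = 6)
    (hinc : incq 11 (2 ^ 11 - 1) Ns = true) (hcov : ∀ F ∈ Ns, ∃ v ∈ Q, Cv g x 11 v F)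
    (hord : ord = true → Ns.length ≤ 4) :
    ∃ b : List X, b.Nodup ∧ b.toFinset = Q ∧ b.length = 6 ∧
      (∀ t < Ns.length, Cv g x 11 (b.getD t (x 0)) (Ns.getD t 0)) ∧
      (ord = true → row g x 11 (b.getD 4 (x 0)) ≤ row g x 11 (b.getD 5 (x 0))) := by
  obtain ⟨b, hb1, hb2, hb3, -, hb5⟩ := enum_b hQc hinc hcov
  by_cases ho : ord = true → row g x 11 (b.getD 4 (x 0)) ≤ row g x 11 (b.getD 5 (x 0))
  · exact ⟨b, hb1, hb2, hb3, hb5, ho⟩
  · rw [Classical.not_imp] at ho
    obtain ⟨ho1, ho2⟩ := ho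
    have hN := hord ho1
    match b, hb3 with
    | [b0, b1, b2, b3, b4, b5], _ =>
      have hp : List.Perm [b0, b1, b2, b3, b5, b4] [b0, b1, b2, b3, b4, b5] := by
        refine List.Perm.cons _ (List.Perm.cons _ (List.Perm.cons _ (List.Perm.cons _ ?_)))
        exact List.Perm.swap _ _ _
      refine ⟨[b0, b1, b2, b3, b5, b4], hp.nodup_iff.mpr hb1, ?_, rfl, ?_, ?_⟩
      · rw [← hb2]
        ext v
        rw [List.mem_toFinset, List.mem_toFinset, hp.mem_iff]
      · intro t ht
        have h1 := hb5 t ht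
        have ht4 : t < 4 := by omega
        interval_cases t
        · exact h1
        · exact h1
        · exact h1
        · exact h1
      · intro _
        have h2 : ¬ row g x 11 b4 ≤ row g x 11 b5 := ho2
        show row g x 11 b5 ≤ row g x 11 b4
        omega

noncomputable def SD.chk (d : SD) : Bool :=
  (s0OK d.S0 d.C && (nbOK 11 d.C d.NB && (Nat.beq d.pl.length (d.nc + 1) && (plen 3 d.pl &&
    (pchk 11 d.NB d.tb d.pl 0 && (nsOK d.tb d.nc d.ni d.Ns && (incq 11 (2 ^ 11 - 1) d.Ns &&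
      (!d.ord || Nat.ble d.Ns.length 4))))))))

noncomputable def SD.job (d : SD) (reps : LT) (p : ℕ × ℕ) : Bool :=
  run 11 2047 d.nc offs6 d.tb (leaf2 d.S0 reps d.ord) 1000000 p.1 p.2 (fun _ => true)

noncomputable def SD.top (d : SD) (jobs : List ℕ) (s : ℕ) : Bool :=
  run 11 2047 d.nc offs6 d.tb (leafT jobs) 1000000 (kap0 11 2047 d.Ns 0) s (fun _ => true)

theorem SD.classify {d : SD} {repsC : List (List ℕ)} {reps : LT} (hr : repsOK repsC reps)
    (hd : d.chk = true) {jobs : List ℕ} {s : ℕ}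
    (hj : ∀ κ ∈ jobs, ∃ s', d.job reps (κ, s') = true) (htop : d.top jobs s = true)
    {A Q : Finset X} (hA : A.image g.a = A) (hQ : Clique g Q) (hQA : Q ⊆ A) (hQc : Q.card = 6)
    (hFr : Fr g x 11 d.C (A \ (Q ∪ Q.image g.a))) {y : Ch X} (hy : Good g 4 A y) :
    Res g repsC A := by
  rw [SD.chk] at hd
  simp only [Bool.and_eq_true, beq_iff] at hd
  obtain ⟨h0, h1, h2, h3, h4, h5, h6, h7⟩ := hd
  have hcov := cover_clauses hA hFr (nbOK_sound hFr.inj hFr.sg h1) hQ hy h2 h3 h4
  obtain ⟨b, hb1, hb2, hb3, hb4, hb5⟩ := enum_ord (ord := d.ord) hQc h6 (nsOK_sound h5 hcov) (by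
    intro ho
    rw [ho] at h7
    simpa using h7)
  have e2047 : (2047 : ℕ) = 2 ^ 11 - 1 := by norm_num
  have hAdm : ∀ val, Av g x d Q val → Adm 11 d.nc offs6 d.tb val := by
    rintro val ⟨b, hb1, hb2, hb3, -, -, rfl⟩
    refine adm hb3 (by decide) (fun c hc => ?_)
    obtain ⟨F, hF, v, hv, h1⟩ := hcov c hc
    rw [← hb2, List.mem_toFinset] at hv
    exact ⟨F, hF, v, hv, h1⟩
  have hjobs : ∀ κ ∈ jobs, ∀ val, Av g x d Q val → Cons κ val → Res g repsC A := by
    intro κ hκ
    obtain ⟨s', hs'⟩ := hj κ hκ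
    rw [SD.job, e2047] at hs'
    exact (run_sound (P := fun _ => Res g repsC A) (by norm_num) hAdm
      (leaf2_sound hr h0 hA hQ hQA hFr) _ _ _ _ hs').1
  have hc : Cons (kap0 11 (2 ^ 11 - 1) d.Ns (2 * 11 * 0)) (valOf 11 (rwo g x b)) := by
    apply kap0_cons
    intro t ht
    rw [zero_add]
    exact hold_of_cv (hb4 t ht)
  rw [mul_zero] at hc
  rw [SD.top, e2047] at htop
  exact (run_sound (P := fun _ => Res g repsC A) (by norm_num) hAdm
    (leafT_sound hjobs) _ _ _ _ htop).1 _ ⟨b, hb1, hb2, hb3, hb4, hb5, rfl⟩ hc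

end

end Pool.Agent.H63.RP
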