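import Pool.Agent.H63.RP.Final
import Pool.Graph.R_seed8.TH651.RP5.Topo2

/-!
Every triangulation of real projective 5-space has at least 24 vertices.
-/

set_option autoImplicit false

namespace Pool.Agent.H63.RP

open Pool.Agent.TH651.RP5

/-- A finite geometric simplicial complex in a Euclidean space whose underlying space is
homeomorphic to the 5-sphere with antipodal points identified has at least 24 vertices. -/
theorem main (n : ℕ) (K : Geometry.SimplicialComplex ℝ (EuclideanSpace ℝ (Fin n)))
    (hfin : K.faces.Finite)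
    (h : Nonempty (Homeomorph (↥K.space)
        (Quot (fun x y : Metric.sphere (0 : EuclideanSpace ℝ (Fin 6)) 1 =>
          (x : EuclideanSpace ℝ (Fin 6)) = (y : EuclideanSpace ℝ (Fin 6)) ∨
          (x : EuclideanSpace ℝ (Fin 6)) = -(y : EuclideanSpace ℝ (Fin 6)))))) :
    24 ≤ K.vertices.ncard := by
  classical
  obtain ⟨Ψ⟩ := h
  have hL : K.vertices.Finite := by
    have h1 : (fun v : EuclideanSpace ℝ (Fin n) => ({v} : Finset _)) '' K.vertices ⊆ K.faces := by
      rintro _ ⟨v, hv, rfl⟩
      exact hv
    refine Set.Finite.of_finite_image (hfin.subset h1) ?_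
    intro v _ w _ e
    exact Finset.singleton_injective e
  have : Fintype K.vertices := hL.fintype
  obtain ⟨s, hs, c, hS⟩ := exists_smith K hL Ψ
  have hcard : Fintype.card K.vertices = K.vertices.ncard := by
    rw [← Nat.card_eq_fintype_card]
    rfl
  have hgood : Good (SG.ofSign s hs) 5 (Finset.univ : Finset (K.vertices × Bool))
      (c 5 + act (SG.ofSign s hs).a (c 5) + bd 0) :=
    ⟨c, 0, hS, Supp.zero _ _ _, rfl⟩
  by_contra hcon
  refine thm_le (g := SG.ofSign s hs) (n := K.vertices.ncard) ?_ ?_ (by omega) hgood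
  · ext v
    rw [mem_image_iff (SG.ofSign s hs).ha]
    simp
  · rw [Finset.card_univ, Fintype.card_prod, hcard, Fintype.card_bool, mul_comm]

end Pool.Agent.H63.RP
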