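import Pool.Agent.H63.RP.Main

/-!
For some dimension `d` (namely `d = 5`) no triangulation of real projective `d`-space has exactly
`(d + 2).choose 2 + (d - 1) / 2` vertices.
-/

set_option autoImplicit false

namespace Pool.Agent.H63.RP.NoMinimalRP5

/-- There is a dimension `d ≥ 1` such that no finite geometric simplicial complex whose underlying
space is homeomorphic to the `d`-sphere with antipodal points identified has exactly
`(d + 2).choose 2 + (d - 1) / 2` vertices. -/
theorem result : ∃ d : ℕ, 1 ≤ d ∧
    ∀ (n : ℕ) (K : Geometry.SimplicialComplex ℝ (EuclideanSpace ℝ (Fin n))), K.faces.Finite →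
      Nonempty (Homeomorph (↥K.space)
        (Quot (fun x y : Metric.sphere (0 : EuclideanSpace ℝ (Fin (d + 1))) 1 =>
          (x : EuclideanSpace ℝ (Fin (d + 1))) = (y : EuclideanSpace ℝ (Fin (d + 1))) ∨
          (x : EuclideanSpace ℝ (Fin (d + 1))) = -(y : EuclideanSpace ℝ (Fin (d + 1)))))) →
      K.vertices.ncard ≠ (d + 2).choose 2 + (d - 1) / 2 := by
  refine ⟨5, by norm_num, fun n K hfin h hc => ?_⟩
  have h1 := Pool.Agent.H63.RP.main n K hfin h
  have h2 : (5 + 2).choose 2 + (5 - 1) / 2 = 23 := by decide
  omega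

end Pool.Agent.H63.RP.NoMinimalRP5
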