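import Pool.Graph.R_seed8.TH651.RP5.Top
import Pool.Agent.H63.RP.Engine

/-!
Rainbow faces: a good cycle has a face which is transversal to a given partition into cliques.
-/

set_option autoImplicit false
set_option linter.unusedSectionVars false

namespace Pool.Agent.H63.RP

open Pool.Agent.TH651.RP5

section Rainbow

variable {X : Type} [Fintype X] [DecidableEq X] (g : SG X)

def Uni : List (Finset X) → Finset X
  | [] => ∅
  | P :: Ps => (P ∪ P.image g.a) ∪ Uni Ps

def Dis : List (Finset X) → Prop
  | [] => True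
  | P :: Ps => Disjoint (P ∪ P.image g.a) (Uni g Ps) ∧ Dis Ps

theorem rainbow : ∀ (Ps : List (Finset X)) (k : ℕ) (A : Finset X) (y : Ch X),
    Ps.length = k + 1 → (∀ P ∈ Ps, Clique g P) → Dis g Ps → A = Uni g Ps → Good g k A y →
    ∃ vs : List X, List.Forall₂ (fun v P => v ∈ P) vs Ps ∧ y vs.toFinset = 1 := by
  intro Ps
  induction Ps with
  | nil => intro k A y h; simp at h
  | cons P Ps ih =>
    intro k A y hlen hcl hdis hA hy
    have hP := hcl P List.mem_cons_self
    cases k with
    | zero =>
      have : Ps = [] := by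
        rw [List.length_cons] at hlen
        exact List.eq_nil_of_length_eq_zero (by omega)
      subst this
      have hA' : A = P ∪ P.image g.a := by rw [hA]; simp [Uni]
      subst hA'
      have h1 := Good.last g hP hy
      obtain ⟨v, hv, hne⟩ := Finset.exists_ne_zero_of_sum_ne_zero (by rw [h1]; exact one_ne_zero)
      exact ⟨[v], List.Forall₂.cons hv List.Forall₂.nil, by
        rw [List.toFinset_cons, List.toFinset_nil]
        simpa using z2_ne_zero.mp hne⟩
    | succ k =>
      have h1 := Good.desc g hP hy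
      have h2 : A \ (P ∪ P.image g.a) = Uni g Ps := by
        rw [hA, Uni, Finset.union_sdiff_left]
        exact Finset.sdiff_eq_self_of_disjoint hdis.1.symm
      obtain ⟨vs, h3, h4⟩ := ih k _ _ (by rw [List.length_cons] at hlen; omega)
        (fun Q hQ => hcl Q (List.mem_cons_of_mem _ hQ)) hdis.2 h2 h1
      have hd : Disjoint vs.toFinset (P ∪ P.image g.a) := by
        by_contra h
        simp only [D, h, if_false] at h4
        exact zero_ne_one h4
      simp only [D, hd, if_true] at h4
      obtain ⟨v, hv, hne⟩ := Finset.exists_ne_zero_of_sum_ne_zero (by rw [h4]; exact one_ne_zero)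
      refine ⟨v :: vs, List.Forall₂.cons hv h3, ?_⟩
      rw [List.toFinset_cons]
      exact z2_ne_zero.mp hne

theorem mem_Uni {Ps : List (Finset X)} {v : X} :
    v ∈ Uni g Ps ↔ ∃ P ∈ Ps, v ∈ P ∪ P.image g.a := by
  induction Ps with
  | nil => simp [Uni]
  | cons P Ps ih =>
    rw [Uni, Finset.mem_union, ih]
    simp only [List.mem_cons, exists_eq_or_imp]

end Rainbow

/-! ### literals -/

def lit (n u : ℕ) : ℕ := if u < n then 2 * u else 2 * (u - n) + 1

def pr (n u : ℕ) : ℕ := if u < n then u else u - n

theorem lit_div (n u : ℕ) : lit n u / 2 = pr n u := by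
  unfold lit pr
  split_ifs <;> omega

theorem lit_lt {n u : ℕ} (h : u < 2 * n) : lit n u < 2 * n := by
  unfold lit
  split_ifs <;> omega

theorem pr_lt {n u : ℕ} (h : u < 2 * n) : pr n u < n := by
  unfold pr
  split_ifs <;> omega

section Lv

variable {X : Type} [Fintype X] [DecidableEq X] (g : SG X) (x : ℕ → X)

def lv (n u : ℕ) : X := lt g x (lit n u)

theorem lv_lo {n i : ℕ} (h : i < n) : lv g x n i = x i := by
  rw [lv, lit, if_pos h, lt_even]

theorem lv_hi (n i : ℕ) : lv g x n (n + i) = g.a (x i) := by
  rw [lv, lit, if_neg (by omega), Nat.add_sub_cancel_left, lt_odd]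

variable {g x}

theorem lv_or {n u : ℕ} : lv g x n u = x (pr n u) ∨ lv g x n u = g.a (x (pr n u)) := by
  unfold pr
  split_ifs with h
  · left; exact lv_lo g x h
  · right
    have : u = n + (u - n) := by omega
    rw [this, lv_hi, Nat.add_sub_cancel_left]

theorem lv_mem_pair {n u : ℕ} :
    ({lv g x n u, g.a (lv g x n u)} : Finset X) = {x (pr n u), g.a (x (pr n u))} := by
  rcases lv_or (g := g) (x := x) (n := n) (u := u) with h | h
  · rw [h]
  · rw [h, g.ha, Finset.pair_comm]

theorem lv_adj {n : ℕ} {C : List ℕ} (hi : Inj g x n) (hs : Sg g x n C) {u v : ℕ}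
    (hu : u < 2 * n) (hv : v < 2 * n) :
    g.Adj (lv g x n u) (lv g x n v) ↔
      pr n u ≠ pr n v ∧ nadj C (lit n u) (lit n v) = false := by
  by_cases h : pr n u = pr n v
  · refine ⟨fun h1 => ?_, fun h1 => absurd h h1.1⟩
    exfalso
    rcases lv_or (g := g) (x := x) (n := n) (u := u) with h2 | h2 <;>
      rcases lv_or (g := g) (x := x) (n := n) (u := v) with h3 | h3 <;> rw [h2, h3, h] at h1
    · exact g.irr _ h1
    · exact g.irr' _ h1
    · exact g.irr' _ (g.symm h1)
    · exact g.irr _ h1
  · have h1 := nadj_spec' hi hs (lit_lt hu) (lit_lt hv) (by rw [lit_div, lit_div]; exact h)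
    unfold lv
    rw [← not_iff_not, ← h1, not_and, Bool.not_eq_false]
    exact ⟨fun h2 _ => h2, fun h2 => h2 h⟩

end Lv

/-! ### checks -/

def nbOK (n : ℕ) (C : List ℕ) (NB : ℕ) : Bool :=
  (List.range (2 * n)).all (fun u => (List.range (2 * n)).all (fun v =>
    NB.testBit (2 * n * u + v) ==
      (!(Nat.beq (pr n u) (pr n v)) && !(nadj C (lit n u) (lit n v)))))

noncomputable def clq (w NB : ℕ) (L : List ℕ) : ℕ → Bool :=
  List.rec (motive := fun _ => ℕ → Bool) (fun _ => true)
    (fun u _ ih cm => bc (Nat.beq (Nat.land (Nat.shiftRight cm u) (nat_lit 1)) (nat_lit 0)) false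
      (st (Nat.land cm (Nat.shiftRight NB (Nat.mul w u))) (fun cm' => ih cm'))) L

noncomputable def anyEq (fm : ℕ) (Fs : List ℕ) : Bool :=
  List.rec (motive := fun _ => Bool) false (fun F _ ih => bc (Nat.beq F fm) true ih) Fs

noncomputable def trv (w NB : ℕ) (Fs : List ℕ) (parts : List (List ℕ)) : ℕ → ℕ → Bool :=
  List.rec (motive := fun _ => ℕ → ℕ → Bool) (fun _ fm => anyEq fm Fs)
    (fun L _ ih cm fm => List.rec (motive := fun _ => Bool) true
      (fun u _ ih2 => bc (Nat.beq (Nat.land (Nat.shiftRight cm u) (nat_lit 1)) (nat_lit 0)) ih2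
        (bc (st (Nat.land cm (Nat.shiftRight NB (Nat.mul w u))) (fun cm' =>
          st (Nat.lor fm (Nat.shiftLeft (nat_lit 1) u)) (fun fm' => ih cm' fm'))) ih2 false)) L) parts

noncomputable def msk (L : List ℕ) : ℕ :=
  List.rec (motive := fun _ => ℕ) (nat_lit 0)
    (fun u _ ih => Nat.lor (Nat.shiftLeft (nat_lit 1) u) ih) L

noncomputable def msks (parts : List (List ℕ)) : ℕ :=
  List.rec (motive := fun _ => ℕ) (nat_lit 0) (fun L _ ih => Nat.lor (msk L) ih) parts

noncomputable def lens (parts : List (List ℕ)) : ℕ :=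
  List.rec (motive := fun _ => ℕ) (nat_lit 0) (fun L _ ih => Nat.add L.length ih) parts

noncomputable def partOK (n NB : ℕ) (Fs : List ℕ) (parts : List (List ℕ)) : Bool :=
  (parts.all (fun L => clq (2 * n) NB L (2 ^ (2 * n) - 1))) &&
  (Nat.beq (lens parts) n && (Nat.beq (Nat.land (Nat.lor (msks parts)
    (Nat.shiftRight (msks parts) n)) (2 ^ n - 1)) (2 ^ n - 1) &&
    trv (2 * n) NB Fs parts (2 ^ (2 * n) - 1) 0))


/-! ### soundness -/

theorem testBit_land {a b i : ℕ} : (Nat.land a b).testBit i = (a.testBit i && b.testBit i) :=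
  Nat.testBit_and a b i

theorem testBit_lor {a b i : ℕ} : (Nat.lor a b).testBit i = (a.testBit i || b.testBit i) :=
  Nat.testBit_or a b i

theorem testBit_shr {a n i : ℕ} : (Nat.shiftRight a n).testBit i = a.testBit (n + i) :=
  Nat.testBit_shiftRight a

theorem testBit_shl {a n i : ℕ} :
    (Nat.shiftLeft a n).testBit i = (decide (n ≤ i) && a.testBit (i - n)) :=
  Nat.testBit_shiftLeft a

theorem bit0_ne {c u : ℕ} (h : Nat.beq (Nat.land (Nat.shiftRight c u) 1) 0 = false) :
    c.testBit u = true := by
  rw [← Bool.not_eq_true, beq_iff] at h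
  rw [Nat.testBit]
  rw [bne_iff_ne, ne_eq, Nat.land_comm]
  exact h

theorem bit0_eq {c u : ℕ} (h : Nat.beq (Nat.land (Nat.shiftRight c u) 1) 0 = true) :
    c.testBit u = false := by
  rw [beq_iff] at h
  rw [Nat.testBit, ← Bool.not_eq_true, bne_iff_ne, ne_eq, not_not, Nat.land_comm]
  exact h

theorem clq_sound (w NB : ℕ) : ∀ (L : List ℕ) (cm : ℕ), clq w NB L cm = true →
    (∀ u ∈ L, cm.testBit u = true) ∧ L.Pairwise (fun u v => NB.testBit (w * u + v) = true) := by
  intro L
  induction L with
  | nil => intro cm _; exact ⟨by simp, List.Pairwise.nil⟩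
  | cons u L ih =>
    intro cm h
    have e : clq w NB (u :: L) cm =
      bc (Nat.beq (Nat.land (Nat.shiftRight cm u) 1) 0) false
      (st (Nat.land cm (Nat.shiftRight NB (Nat.mul w u))) (fun cm' => clq w NB L cm')) := rfl
    rw [e, bc_eq, st_eq] at h
    split_ifs at h with h1
    rw [Bool.not_eq_true] at h1
    obtain ⟨h2, h3⟩ := ih _ h
    refine ⟨?_, List.pairwise_cons.mpr ⟨?_, h3⟩⟩
    · intro v hv
      rcases List.mem_cons.mp hv with rfl | hv
      · exact bit0_ne h1
      · have := h2 v hv
        rw [testBit_land, Bool.and_eq_true] at this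
        exact this.1
    · intro v hv
      have := h2 v hv
      rw [testBit_land, Bool.and_eq_true, testBit_shr] at this
      exact this.2

theorem anyEq_sound {fm : ℕ} {Fs : List ℕ} (h : anyEq fm Fs = true) : fm ∈ Fs := by
  induction Fs with
  | nil => exact absurd h (by simp [anyEq])
  | cons F Fs ih =>
    have e : anyEq fm (F :: Fs) = bc (Nat.beq F fm) true (anyEq fm Fs) := rfl
    rw [e, bc_eq] at h
    split_ifs at h with h1
    · rw [beq_iff] at h1
      rw [h1]; exact List.mem_cons_self
    · exact List.mem_cons_of_mem _ (ih h)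

/-- the mask of a list of bits -/
def mk2 (us : List ℕ) : ℕ := us.foldr (fun u m => Nat.lor (Nat.shiftLeft 1 u) m) 0

theorem testBit_mk2 {us : List ℕ} {i : ℕ} : (mk2 us).testBit i = true ↔ i ∈ us := by
  induction us with
  | nil => simp [mk2]
  | cons u us ih =>
    have e : mk2 (u :: us) = Nat.lor (Nat.shiftLeft 1 u) (mk2 us) := rfl
    rw [e, testBit_lor, Bool.or_eq_true, ih, List.mem_cons]
    have h : (Nat.shiftLeft 1 u).testBit i = decide (i = u) := testBit_one_shiftLeft u i
    rw [h, decide_eq_true_eq]

theorem trv_sound (w NB : ℕ) (Fs : List ℕ) : ∀ (parts : List (List ℕ)) (cm fm : ℕ),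
    trv w NB Fs parts cm fm = true → ∀ us : List ℕ, List.Forall₂ (fun u L => u ∈ L) us parts →
    (∀ u ∈ us, cm.testBit u = true) → us.Pairwise (fun u v => NB.testBit (w * u + v) = true) →
    ∃ F ∈ Fs, ∀ i, F.testBit i = true → fm.testBit i = true ∨ i ∈ us := by
  intro parts
  induction parts with
  | nil =>
    intro cm fm h us hus _ _
    exact ⟨fm, anyEq_sound h, fun i hi => Or.inl hi⟩
  | cons L parts ih =>
    intro cm fm h us hus hcm hpw
    rw [List.forall₂_cons_right_iff] at hus
    obtain ⟨u, us', hu, hus', rfl⟩ := hus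
    have key : ∀ (M : List ℕ), u ∈ M → (List.rec (motive := fun _ => Bool) true
        (fun u _ ih2 => bc (Nat.beq (Nat.land (Nat.shiftRight cm u) 1) 0) ih2
        (bc (st (Nat.land cm (Nat.shiftRight NB (Nat.mul w u))) (fun cm' =>
          st (Nat.lor fm (Nat.shiftLeft 1 u)) (fun fm' => trv w NB Fs parts cm' fm'))) ih2 false))
        M : Bool) = true →
        trv w NB Fs parts (Nat.land cm (Nat.shiftRight NB (Nat.mul w u)))
          (Nat.lor fm (Nat.shiftLeft 1 u)) = true := by
      intro M
      induction M with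
      | nil => intro hM; exact absurd hM List.not_mem_nil
      | cons v M ihM =>
        intro hM hrec
        have hrec' : bc (Nat.beq (Nat.land (Nat.shiftRight cm v) 1) 0)
          (List.rec (motive := fun _ => Bool) true
            (fun u _ ih2 => bc (Nat.beq (Nat.land (Nat.shiftRight cm u) 1) 0) ih2
            (bc (st (Nat.land cm (Nat.shiftRight NB (Nat.mul w u))) (fun cm' =>
              st (Nat.lor fm (Nat.shiftLeft 1 u)) (fun fm' => trv w NB Fs parts cm' fm')))
                ih2 false)) M : Bool)
          (bc (st (Nat.land cm (Nat.shiftRight NB (Nat.mul w v))) (fun cm' =>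
            st (Nat.lor fm (Nat.shiftLeft 1 v)) (fun fm' => trv w NB Fs parts cm' fm')))
            (List.rec (motive := fun _ => Bool) true
            (fun u _ ih2 => bc (Nat.beq (Nat.land (Nat.shiftRight cm u) 1) 0) ih2
            (bc (st (Nat.land cm (Nat.shiftRight NB (Nat.mul w u))) (fun cm' =>
              st (Nat.lor fm (Nat.shiftLeft 1 u)) (fun fm' => trv w NB Fs parts cm' fm')))
                ih2 false)) M : Bool) false) = true := hrec
        rw [bc_eq, bc_eq, st_eq, st_eq] at hrec'
        split_ifs at hrec' with h1 h2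
        · rcases List.mem_cons.mp hM with e | hM
          · rw [← e] at h1
            have h3 := hcm u List.mem_cons_self
            rw [bit0_eq h1] at h3
            exact absurd h3 (by decide)
          · exact ihM hM hrec'
        · rcases List.mem_cons.mp hM with e | hM
          · rw [e]; exact h2
          · exact ihM hM hrec'
    have h1 := key L hu h
    rw [List.pairwise_cons] at hpw
    obtain ⟨F, hF, hF2⟩ := ih _ _ h1 us' hus' (by
      intro v hv
      rw [testBit_land, Bool.and_eq_true, testBit_shr]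
      exact ⟨hcm v (List.mem_cons_of_mem _ hv), hpw.1 v hv⟩) hpw.2
    refine ⟨F, hF, fun i hi => ?_⟩
    rcases hF2 i hi with h2 | h2
    · rw [testBit_lor, Bool.or_eq_true] at h2
      rcases h2 with h2 | h2
      · exact Or.inl h2
      · have h3 : (Nat.shiftLeft 1 u).testBit i = decide (i = u) := testBit_one_shiftLeft u i
        rw [h3, decide_eq_true_eq] at h2
        exact Or.inr (h2 ▸ List.mem_cons_self)
    · exact Or.inr (List.mem_cons_of_mem _ h2)

theorem testBit_msk {L : List ℕ} {i : ℕ} : (msk L).testBit i = true ↔ i ∈ L := by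
  have e : msk L = mk2 L := by
    induction L with
    | nil => rfl
    | cons u L ih =>
      have e : msk (u :: L) = Nat.lor (Nat.shiftLeft 1 u) (msk L) := rfl
      rw [e, ih]; rfl
  rw [e, testBit_mk2]

theorem testBit_msks {parts : List (List ℕ)} {i : ℕ} :
    (msks parts).testBit i = true ↔ i ∈ parts.flatten := by
  induction parts with
  | nil => simp [msks]
  | cons L parts ih =>
    have e : msks (L :: parts) = Nat.lor (msk L) (msks parts) := rfl
    rw [e, testBit_lor, Bool.or_eq_true, testBit_msk, ih, List.flatten_cons, List.mem_append]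

theorem lens_eq (parts : List (List ℕ)) : lens parts = parts.flatten.length := by
  induction parts with
  | nil => rfl
  | cons L parts ih =>
    have e : lens (L :: parts) = L.length + lens parts := rfl
    rw [e, ih, List.flatten_cons, List.length_append]

end Pool.Agent.H63.RP
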