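import Pool.Agent.H63.RP.Reps

/-!
Data: clauses over the graph with eleven pairs, class 0.
-/

set_option autoImplicit false
set_option maxRecDepth 100000
set_option maxHeartbeats 0

namespace Pool.Agent.H63.RP

def tb0 : LT := (.nd (.nd (.nd (.nd (.nd (.nd (.nd (.nd .lf [3411968, 3538944, 3801088] .lf) [1323008, 1449984] (.nd .lf [319488, 442368, 491520, 753664] .lf)) [2944] (.nd (.nd .lf [1248, 1472, 1856] .lf) [142, 204, 212] (.nd .lf [3411968, 753664, 983040, 3014656, 3538944] .lf))) [19200] (.nd (.nd (.nd .lf [376832, 491520, 950272] .lf) [884736, 950272] (.nd .lf [290816, 417792, 442368, 491520, 753664] .lf)) [25856] (.nd (.nd .lf [290816, 417792, 245760, 442368] .lf) [202, 204, 212] .lf))) [2103312] (.nd (.nd (.nd (.nd .lf [212, 216, 232] .lf) [319488, 434176] (.nd .lf [884736, 983040, 3014656, 3801088] .lf)) [3149840] (.nd (.nd .lf [2949120, 3014656, 3801088] .lf) [405504,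 413696, 1449984] (.nd .lf [376832, 491520, 983040, 3014656, 3801088] .lf))) [2099220] (.nd (.nd (.nd .lf [753664, 983040, 2949120] .lf) [3801088, 3932160] (.nd .lf [405504, 1445888, 3411968, 188416, 417792] .lf)) [18176] (.nd (.nd .lf [1323008, 1445888, 3538944, 3801088] .lf) [1218, 1728, 1856] .lf)))) [22784] (.nd (.nd (.nd (.nd (.nd .lf [188416, 442368, 475136] .lf) [3280896, 3411968] (.nd .lf [376832, 491520, 983040, 2818048] .lf)) [1060896] (.nd (.nd .lf [2818048, 3014656, 3932160] .lf) [290816, 417792, 434176] (.nd .lf [319488, 442368, 491520, 983040, 2818048] .lf))) [2164740] (.nd (.nd (.nd .lf [475136, 491520, 950272] .lf) [2818048, 2949120] (.nd .lf [198, 706, 1666, 92, 204] .lf)) [115200] (.nd (.nd .lf [405504, 1323008, 188416, 417792] .lf) [706, 1666, 708] .lf))) [215040] (.nd (.nd (.nd (.nd .lf [245760, 491520, 884736] .lf) [245760, 475136] (.nd .lf [159744, 417792, 442368,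 491520, 884736] .lf)) [4400] (.nd (.nd .lf [159744, 417792, 376832, 442368] .lf) [1191936, 1445888, 3411968] .lf)) [2692] (.nd (.nd (.nd .lf [464, 480, 1440] .lf) [159744, 319488, 417792] (.nd .lf [1323008, 1445888, 2818048, 3014656, 3538944] .lf)) [159744, 413696] (.nd (.nd .lf [3411968, 2818048, 3014656, 3538944] .lf) [3280896, 3538944, 3932160] .lf))))) [153600] (.nd (.nd (.nd (.nd (.nd (.nd .lf [92, 216, 232] .lf) [2494464, 3280896] (.nd .lf [245760, 491520, 983040, 2949120] .lf)) [28928] (.nd (.nd .lf [2555904, 3014656, 3801088] .lf) [290816, 405504, 1449984] (.nd .lf [188416, 442368, 491520, 983040, 2949120] .lf))) [2295808] (.nd (.nd (.nd .lf [232, 240, 464] .lf) [2555904, 2818048] (.nd .lf [198, 646, 204, 120, 216] .lf)) [9504] (.nd (.nd .lf [198, 646, 92, 204] .lf) [413696, 417792, 434176] .lf))) [6416] (.nd (.nd (.nd (.nd .lf [434176, 442368, 475136] .lf) [120, 232] (.nd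 .lf [78, 204, 216, 240, 432] .lf)) [1052720] (.nd (.nd .lf [78, 204, 184, 216] .lf) [582, 706, 1666] .lf)) [2196] (.nd (.nd (.nd .lf [884736, 983040, 2818048] .lf) [78, 156, 204] (.nd .lf [1191936, 1445888, 2949120, 3014656, 3538944] .lf)) [78, 202] (.nd (.nd .lf [3280896, 2949120, 3014656, 3538944] .lf) [2494464, 3538944, 3801088] .lf)))) [2234368] (.nd (.nd (.nd (.nd (.nd .lf [319488, 245760, 442368] .lf) [188416, 319488] (.nd .lf [753664, 983040, 3014656, 3932160] .lf)) [12576] (.nd (.nd .lf [1440, 1472, 1856] .lf) [198, 202, 708] (.nd .lf [245760, 491520, 983040, 3014656, 3932160] .lf))) [68100] (.nd (.nd (.nd .lf [368, 480, 1440] .lf) [1966080, 3932160] (.nd .lf [405504, 1323008, 417792, 245760, 442368] .lf)) [50688] (.nd (.nd .lf [1191936, 1445888, 3538944, 3932160] .lf) [1445888, 3411968, 1449984] .lf))) [84480] (.nd (.nd (.nd (.nd .lf [184, 240, 464] .lf) [753664, 884736]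 (.nd .lf [142, 204, 216, 240, 368] .lf)) [58368] (.nd (.nd .lf [142, 204, 120, 216] .lf) [1323008, 1445888, 3280896] .lf)) [2448] (.nd (.nd (.nd .lf [950272, 983040, 2949120] .lf) [142, 198, 708] (.nd .lf [3280896, 884736, 983040, 3014656, 3538944] .lf)) [1191936, 1323008] (.nd (.nd .lf [188416, 442368, 491520, 884736] .lf) [1666, 1728, 1856] .lf)))))) [75] (.nd (.nd (.nd (.nd (.nd (.nd (.nd .lf [92, 184, 216] .lf) [1218, 1602] (.nd .lf [120, 240, 480, 1440] .lf)) [524302] (.nd (.nd .lf [2555904, 1966080, 3014656] .lf) [290816, 405504, 1191936] (.nd .lf [92, 216, 240, 480, 1440] .lf))) [1121] (.nd (.nd (.nd .lf [232, 240, 368] .lf) [1248, 1376] (.nd .lf [198, 582, 204, 184, 216] .lf)) [2686980] (.nd (.nd .lf [198, 582, 156, 204] .lf) [413696, 188416, 417792] .lf))) [557059] (.nd (.nd (.nd (.nd .lf [434176, 376832, 442368] .lf) [120, 184] (.nd .lf [78, 198, 706, 1728, 1920] .lf)) [98818]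 (.nd (.nd .lf [78, 198, 706, 1666] .lf) [582, 706, 1218] .lf)) [303105] (.nd (.nd (.nd .lf [432, 480, 1376] .lf) [78, 198, 646] (.nd .lf [582, 706, 1440, 1472, 1728] .lf)) [78, 142] (.nd (.nd .lf [1602, 1440, 1472, 1728] .lf) [2494464, 1966080, 3538944] .lf)))) [1091] (.nd (.nd (.nd (.nd (.nd .lf [156, 120, 216] .lf) [92, 156] (.nd .lf [368, 480, 1472, 1920] .lf)) [589830] (.nd (.nd .lf [1440, 960, 1472] .lf) [198, 582, 202] (.nd .lf [120, 240, 480, 1472, 1920] .lf))) [1056801] (.nd (.nd (.nd .lf [368, 480, 1248] .lf) [960, 1920] (.nd .lf [405504, 1191936, 417792, 376832, 442368] .lf)) [3145752] (.nd (.nd .lf [582, 706, 1728, 1920] .lf) [1445888, 2494464, 1449984] .lf))) [1048617] (.nd (.nd (.nd (.nd .lf [184, 240, 368] .lf) [368, 432] (.nd .lf [142, 198, 706, 1728, 1856] .lf)) [2097180] (.nd (.nd .lf [142, 198, 706, 1602] .lf) [646, 706, 1602] .lf)) [819201] (.nd (.nd (.nd .lf [950272,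 983040, 2555904] .lf) [142, 198, 582] (.nd .lf [1602, 432, 480, 1472, 1728] .lf)) [582, 646] (.nd (.nd .lf [92, 216, 240, 432] .lf) [1666, 960, 1728] .lf))))) [524299] (.nd (.nd (.nd (.nd (.nd (.nd .lf [188416, 376832, 442368] .lf) [1602, 1666] (.nd .lf [184, 240, 480, 1376] .lf)) [66054] (.nd (.nd .lf [1376, 1472, 1920] .lf) [290816, 188416, 417792] (.nd .lf [156, 216, 240, 480, 1376] .lf))) [9249] (.nd (.nd (.nd .lf [475136, 491520, 753664] .lf) [1376, 1440] (.nd .lf [198, 706, 1602, 156, 204] .lf)) [1048632] (.nd (.nd .lf [405504, 1191936, 319488, 417792] .lf) [706, 1218, 708] .lf))) [105] (.nd (.nd (.nd (.nd .lf [120, 240, 432] .lf) [245760, 376832] (.nd .lf [159744, 405504, 1445888, 3538944, 3932160] .lf)) [622594] (.nd (.nd .lf [159744, 405504, 1445888, 3411968] .lf) [1191936, 1445888, 2494464] .lf)) [1318913] (.nd (.nd (.nd .lf [464, 480, 1248] .lf) [159744, 405504, 1323008]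 (.nd .lf [646, 706, 1376, 1472, 1728] .lf)) [159744, 290816] (.nd (.nd .lf [1666, 1376, 1472, 1728] .lf) [1602, 1728, 1920] .lf)))) [33795] (.nd (.nd (.nd (.nd (.nd .lf [212, 184, 216] .lf) [156, 212] (.nd .lf [432, 480, 1472, 1856] .lf)) [34306] (.nd (.nd .lf [2949120, 1966080, 3014656] .lf) [405504, 1191936, 413696] (.nd .lf [184, 240, 480, 1472, 1856] .lf))) [41985] (.nd (.nd (.nd .lf [753664, 983040, 2555904] .lf) [1856, 1920] (.nd .lf [405504, 1445888, 3280896, 319488, 417792] .lf)) [3670024] (.nd (.nd .lf [646, 706, 1728, 1856] .lf) [1218, 960, 1728] .lf))) [1572873] (.nd (.nd (.nd (.nd .lf [376832, 491520, 753664] .lf) [432, 464] (.nd .lf [290816, 405504, 1445888, 3538944, 3801088] .lf)) [2621452] (.nd (.nd .lf [290816, 405504, 1445888, 3280896] .lf) [202, 92, 204] .lf)) [1835009] (.nd (.nd (.nd .lf [1248, 960, 1472] .lf) [142, 92, 204] (.nd .lf [1666, 368, 480, 1472, 1728]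 .lf)) [646, 708] (.nd (.nd .lf [156, 216, 240, 368] .lf) [3411968, 1966080, 3538944] .lf)))))))

def pl0 : List (List (List ℕ)) := [[[0], [1, 2], [3, 4, 5], [6, 7, 8, 9, 10]], [[11], [12, 13], [14, 15, 16], [17, 18, 19, 20, 21]], [[0], [1, 2], [3, 4, 5], [17, 18, 19, 20, 21]], [[11], [12, 13], [14, 15, 16], [6, 7, 8, 9, 10]], [[0], [1, 2], [14, 9, 10], [4, 5, 6, 7, 8]], [[11], [12, 13], [3, 20, 21], [15, 16, 17, 18, 19]], [[0], [1, 2], [14, 15, 16], [6, 7, 8, 9, 10]], [[11], [12, 13], [3, 4, 5], [17, 18, 19, 20, 21]], [[0], [1, 2], [14, 15, 16], [17, 18, 19, 20, 21]], [[11], [12, 13], [3, 4, 5], [6, 7, 8, 9, 10]], [[0], [12, 5], [2, 3, 4], [6, 7, 8, 9, 10]], [[11], [1, 16], [13, 14, 15], [17, 18, 19, 20, 21]], [[0], [12, 20], [2, 3, 4], [5, 6, 7, 8, 10]], [[11], [1, 9], [13, 14, 15], [16, 17, 18, 19, 21]], [[0], [12, 20], [2, 3, 4], [16, 17, 18, 19, 21]], [[11], [1, 9], [13, 14, 15],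 [5, 6, 7, 8, 10]], [[0], [12, 5], [2, 3, 4, 6], [7, 8, 9, 10]], [[11], [1, 16], [13, 14, 15, 17], [18, 19, 20, 21]], [[0], [12, 13], [3, 4, 5], [6, 7, 8, 9, 10]], [[11], [1, 2], [14, 15, 16], [17, 18, 19, 20, 21]], [[0], [12, 13], [3, 4, 5], [17, 18, 19, 20, 21]], [[11], [1, 2], [14, 15, 16], [6, 7, 8, 9, 10]], [[0], [12, 13], [14, 15, 16], [6, 7, 8, 9, 10]], [[11], [1, 2], [3, 4, 5], [17, 18, 19, 20, 21]], [[0], [12, 13], [14, 15, 16], [17, 18, 19, 20, 21]], [[11], [1, 2], [3, 4, 5], [6, 7, 8, 9, 10]], [[0], [12, 13], [3, 4, 20], [16, 17, 18, 19, 21]], [[11], [1, 2], [14, 15, 9], [5, 6, 7, 8, 10]], [[0], [12, 13, 18], [14, 15, 16], [17, 19, 20, 21]], [[11], [1, 2, 7], [3, 4, 5], [6, 8, 9, 10]], [[0], [12, 20], [2, 19, 21], [14, 15, 16, 17, 18]], [[11], [1, 9], [13, 8, 10], [3, 4, 5, 6, 7]], [[2], [0, 1], [3, 4, 5], [17, 18, 19, 20, 21]], [[13], [11, 12], [14, 15, 16], [6, 7, 8, 9,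 10]], [[2], [0, 1], [14, 15, 16], [6, 7, 8, 9, 10]], [[13], [11, 12], [3, 4, 5], [17, 18, 19, 20, 21]], [[2], [0, 1], [14, 15, 16], [17, 18, 19, 20, 21]], [[13], [11, 12], [3, 4, 5], [6, 7, 8, 9, 10]], [[0, 1], [13, 15], [14, 9], [5, 6, 7, 8, 10]], [[11, 12], [2, 4], [3, 20], [16, 17, 18, 19, 21]], [[0, 1], [13, 15], [14, 16], [6, 7, 8, 9, 10]], [[11, 12], [2, 4], [3, 5], [17, 18, 19, 20, 21]], [[0, 1], [13, 15], [14, 16], [17, 18, 19, 20, 21]], [[11, 12], [2, 4], [3, 5], [6, 7, 8, 9, 10]], [[0, 3], [1, 2], [4, 5], [17, 18, 19, 20, 21]], [[11, 14], [12, 13], [15, 16], [6, 7, 8, 9, 10]], [[0, 3], [1, 2], [15, 16, 19], [17, 18, 20, 21]], [[11, 14], [12, 13], [4, 5, 8], [6, 7, 9, 10]], [[11, 16], [1, 2], [3, 4, 21], [17, 18, 19, 20]], [[0, 5], [12, 13], [14, 15, 10], [6, 7, 8, 9]], [[0, 3], [12, 20], [2, 4], [5, 6, 7, 8, 10]], [[11, 14], [1, 9], [13, 15], [16, 17, 18, 19, 21]], [[0,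 3], [12, 20], [2, 4], [16, 17, 18, 19, 21]], [[11, 14], [1, 9], [13, 15], [5, 6, 7, 8, 10]], [[0, 3], [12, 20], [2, 21], [15, 16, 17, 18, 19]], [[11, 14], [1, 9], [13, 10], [4, 5, 6, 7, 8]], [[2], [0, 1], [3, 4, 5], [6, 7, 8, 9, 10]], [[0, 1], [2, 7], [3, 4, 5], [6, 8, 9, 10]], [[13], [11, 12], [14, 15, 16], [17, 18, 19, 20, 21]], [[11, 12], [13, 18], [14, 15, 16], [17, 19, 20, 21]], [[2], [0, 1], [14, 15, 9], [5, 6, 7, 8, 10]], [[13], [11, 12], [3, 4, 20], [16, 17, 18, 19, 21]], [[11, 2], [1, 6], [14, 15, 9], [5, 7, 8, 10]], [[0, 13], [12, 17], [3, 4, 20], [16, 18, 19, 21]], [[0, 1], [13, 10], [7, 8, 9], [3, 4, 5, 6]], [[11, 12], [2, 21], [18, 19, 20], [14, 15, 16, 17]], [[0, 1], [2, 9], [14, 10], [4, 5, 6, 7, 8]], [[11, 12], [13, 20], [3, 21], [15, 16, 17, 18, 19]], [[0, 3], [1, 2], [4, 5], [6, 7, 8, 9, 10]], [[11, 14], [12, 13], [15, 16], [17, 18, 19, 20, 21]], [[11, 2], [12, 4],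 [3, 5, 6], [7, 8, 9, 10]], [[0, 13], [1, 15], [14, 16, 17], [18, 19, 20, 21]], [[0, 3], [12, 4], [13, 5], [6, 7, 8, 9, 10]], [[0, 3], [12, 5], [2, 4, 7], [6, 8, 9, 10]], [[11, 14], [1, 15], [2, 16], [17, 18, 19, 20, 21]], [[11, 14], [1, 16], [13, 15, 18], [17, 19, 20, 21]], [[0, 5], [12, 4], [13, 14, 8], [6, 7, 9, 10]], [[11, 16], [1, 15], [2, 3, 19], [17, 18, 20, 21]], [[11, 4], [1, 2, 7], [3, 5, 6], [8, 9, 10]], [[0, 15], [12, 13, 18], [14, 16, 17], [19, 20, 21]], [[0, 5], [1, 6], [7, 8, 9], [13, 14, 15, 10]], [[11, 16], [12, 17], [18, 19, 20], [2, 3, 4, 21]], [[0, 5], [1, 10], [14, 8, 9], [2, 4, 6, 7]], [[11, 16], [12, 21], [3, 19, 20], [13, 15, 17, 18]], [[11, 7], [12, 13, 8], [14, 15, 9], [5, 6, 10]], [[0, 18], [1, 2, 19], [3, 4, 20], [16, 17, 21]], [[0, 10], [1, 9], [13, 8], [3, 4, 5, 6, 7]], [[11, 21], [12, 20], [2, 19], [14, 15, 16, 17, 18]], [[2], [0, 1], [3, 4, 5, 7], [6,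 8, 9, 10]], [[0, 3], [2, 21], [1, 7, 9], [4, 5, 6, 8]], [[13], [11, 12], [14, 15, 16, 18], [17, 19, 20, 21]], [[11, 14], [13, 10], [12, 18, 20], [15, 16, 17, 19]], [[2], [0, 1], [3, 4, 5, 6], [7, 8, 9, 10]], [[11, 2], [1, 9], [3, 4, 6], [5, 7, 8, 10]], [[0, 3], [2, 21], [1, 6, 9], [4, 5, 7, 8]], [[11, 2], [1, 6], [3, 4, 5], [7, 8, 9, 10]], [[13], [11, 12], [14, 15, 16, 17], [18, 19, 20, 21]], [[0, 13], [12, 20], [14, 15, 17], [16, 18, 19, 21]], [[11, 14], [13, 10], [12, 17, 20], [15, 16, 18, 19]], [[0, 13], [12, 17], [14, 15, 16], [18, 19, 20, 21]], [[0, 1], [2, 3], [4, 5, 6], [7, 8, 9, 10]], [[0, 6], [1, 9], [2, 3, 4], [5, 7, 8, 10]], [[11, 12], [13, 14], [15, 16, 17], [18, 19, 20, 21]], [[11, 17], [12, 20], [13, 14, 15], [16, 18, 19, 21]], [[0, 1], [2, 7], [14, 9, 10], [4, 5, 6, 8]], [[0, 1], [2, 7], [14, 15, 9], [5, 6, 8, 10]], [[11, 12], [13, 18], [3, 20, 21], [15, 16, 17, 19]],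 [[11, 12], [13, 18], [3, 4, 20], [16, 17, 19, 21]], [[0, 1], [2, 6], [14, 15, 9], [5, 7, 8, 10]], [[11, 12], [13, 17], [3, 4, 20], [16, 18, 19, 21]], [[0, 3], [1, 2], [4, 5, 7], [6, 8, 9, 10]], [[0, 6], [1, 2], [3, 4, 5], [7, 8, 9, 10]], [[11, 14], [12, 13], [15, 16, 18], [17, 19, 20, 21]], [[11, 17], [12, 13], [14, 15, 16], [18, 19, 20, 21]], [[0, 6], [1, 2], [14, 9, 10], [4, 5, 7, 8]], [[11, 7], [1, 2], [14, 15, 9], [5, 6, 8, 10]], [[11, 17], [12, 13], [3, 20, 21], [15, 16, 18, 19]], [[0, 18], [12, 13], [3, 4, 20], [16, 17, 19, 21]], [[0, 6], [1, 9], [13, 8, 10], [3, 4, 5, 7]], [[0, 6], [1, 9], [13, 14, 10], [4, 5, 7, 8]], [[11, 17], [12, 20], [2, 19, 21], [14, 15, 16, 18]], [[11, 17], [12, 20], [2, 3, 21], [15, 16, 18, 19]], [[0, 10], [14, 9], [1, 2, 7], [4, 5, 6, 8]], [[11, 21], [3, 20], [12, 13, 18], [15, 16, 17, 19]], [[11, 7], [1, 6], [13, 8, 10], [14, 15, 16, 9]], [[0, 10],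 [14, 9], [1, 2, 6], [4, 5, 7, 8]], [[0, 18], [12, 17], [2, 19, 21], [3, 4, 5, 20]], [[11, 21], [3, 20], [12, 13, 17], [15, 16, 18, 19]], [[0, 3], [12, 4], [2, 7, 9], [5, 6, 8, 10]], [[0, 3], [4, 5], [1, 2, 7], [6, 8, 9, 10]], [[11, 14], [1, 15], [13, 18, 20], [16, 17, 19, 21]], [[11, 14], [15, 16], [12, 13, 18], [17, 19, 20, 21]], [[0, 3], [12, 4], [2, 6, 9], [5, 7, 8, 10]], [[11, 14], [1, 15], [13, 17, 20], [16, 18, 19, 21]], [[11, 4], [5, 6], [1, 2, 3], [7, 8, 9, 10]], [[0, 6], [1, 7], [4, 5, 20], [2, 3, 19, 21]], [[0, 15], [16, 17], [12, 13, 14], [18, 19, 20, 21]], [[11, 17], [12, 18], [15, 16, 9], [13, 14, 8, 10]], [[0, 5], [12, 4], [2, 3, 7], [6, 8, 9, 10]], [[11, 16], [1, 15], [13, 14, 18], [17, 19, 20, 21]], [[0, 5], [12, 4], [2, 3, 6], [7, 8, 9, 10]], [[11, 4], [1, 3, 6], [2, 7, 9], [5, 8, 10]], [[11, 16], [1, 15], [13, 14, 17], [18, 19, 20, 21]], [[0, 15], [12, 14, 17], [13,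 18, 20], [16, 19, 21]], [[0, 5], [1, 6], [2, 3, 4], [7, 8, 9, 10]], [[0, 6], [1, 7], [13, 5, 8], [3, 4, 20, 21]], [[11, 16], [12, 17], [13, 14, 15], [18, 19, 20, 21]], [[11, 17], [12, 18], [2, 16, 19], [14, 15, 9, 10]], [[0, 5], [1, 6], [2, 4, 7], [14, 8, 9, 10]], [[0, 5], [12, 8], [6, 9, 10], [2, 3, 4, 7]], [[11, 16], [12, 17], [13, 15, 18], [3, 19, 20, 21]], [[11, 16], [1, 19], [17, 20, 21], [13, 14, 15, 18]], [[0, 5], [12, 8], [7, 9, 10], [2, 3, 4, 6]], [[11, 16], [1, 19], [18, 20, 21], [13, 14, 15, 17]], [[0, 6], [1, 7], [13, 8, 10], [3, 4, 5, 20]], [[11, 7], [12, 13, 8], [3, 4, 5], [6, 9, 10]], [[11, 17], [12, 18], [2, 19, 21], [14, 15, 16, 9]], [[0, 18], [1, 2, 19], [14, 15, 16], [17, 20, 21]], [[0, 6], [1, 7], [13, 5, 8], [14, 15, 9, 10]], [[0, 6], [1, 7, 9], [13, 14, 10], [4, 5, 8]], [[11, 17], [12, 18], [2, 16, 19], [3, 4, 20, 21]], [[11, 17], [12, 18, 20], [2, 3, 21], [15,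 16, 19]], [[0, 10], [12, 8], [2, 6, 9], [3, 4, 5, 7]], [[11, 21], [1, 19], [13, 17, 20], [14, 15, 16, 18]], [[11, 7], [12, 13, 8], [3, 5, 6], [15, 9, 10]], [[0, 10], [12, 8], [2, 7, 9], [3, 4, 5, 6]], [[0, 18], [1, 2, 19], [14, 16, 17], [4, 20, 21]], [[11, 21], [1, 19], [13, 18, 20], [14, 15, 16, 17]], [[0, 1], [2, 9], [3, 4, 7], [5, 6, 8, 10]], [[0, 3], [2, 4], [1, 7, 9], [5, 6, 8, 10]], [[11, 12], [13, 20], [14, 15, 18], [16, 17, 19, 21]], [[11, 14], [13, 15], [12, 18, 20], [16, 17, 19, 21]], [[0, 1], [2, 9], [3, 4, 6], [5, 7, 8, 10]], [[0, 3], [2, 4], [1, 6, 9], [5, 7, 8, 10]], [[11, 12], [13, 20], [14, 15, 17], [16, 18, 19, 21]], [[11, 14], [13, 15], [12, 17, 20], [16, 18, 19, 21]], [[11, 2], [1, 3], [4, 5, 6], [7, 8, 9, 10]], [[11, 2], [1, 3], [4, 5, 7], [6, 8, 9, 10]], [[0, 13], [12, 14], [15, 16, 17], [18, 19, 20, 21]], [[0, 13], [12, 14], [15, 16, 18], [17, 19, 20, 21]], [[11,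 9], [1, 10], [2, 3, 7], [4, 5, 6, 8]], [[0, 20], [12, 21], [13, 14, 18], [15, 16, 17, 19]], [[11, 9], [1, 10], [2, 3, 6], [4, 5, 7, 8]], [[0, 20], [12, 21], [13, 14, 17], [15, 16, 18, 19]], [[0, 10], [1, 2, 7], [14, 8, 9], [4, 5, 6]], [[11, 21], [12, 13, 18], [3, 19, 20], [15, 16, 17]], [[0, 10], [1, 2, 6], [14, 8, 9], [4, 5, 7]], [[11, 21], [12, 13, 17], [3, 19, 20], [15, 16, 18]], [[11, 4], [3, 5], [1, 2, 7], [6, 8, 9, 10]], [[0, 15], [14, 16], [12, 13, 18], [17, 19, 20, 21]], [[11, 4], [3, 5], [1, 2, 6], [7, 8, 9, 10]], [[0, 15], [14, 16], [12, 13, 17], [18, 19, 20, 21]], [[0, 5], [12, 4, 8], [2, 3, 7], [6, 9, 10]], [[11, 16], [1, 15, 19], [13, 14, 18], [17, 20, 21]], [[0, 5], [12, 4, 8], [2, 3, 6], [7, 9, 10]], [[11, 16], [1, 15, 19], [13, 14, 17], [18, 20, 21]], [[11, 8], [1, 6, 9], [13, 5, 10], [3, 4, 7]], [[0, 19], [12, 17, 20], [2, 16, 21], [14, 15, 18]], [[11, 8], [1, 7,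 9], [13, 5, 10], [3, 4, 6]], [[0, 19], [12, 18, 20], [2, 16, 21], [14, 15, 17]], [[2, 9], [3, 7], [0, 1, 10], [4, 5, 6, 8]], [[1, 7], [2, 4], [0, 3, 5], [6, 8, 9, 10]], [[13, 20], [14, 18], [11, 12, 21], [15, 16, 17, 19]], [[12, 18], [13, 15], [11, 14, 16], [17, 19, 20, 21]], [[2, 9], [3, 6], [0, 1, 10], [4, 5, 7, 8]], [[2, 4], [3, 5], [0, 1, 6], [7, 8, 9, 10]], [[13, 20], [14, 17], [11, 12, 21], [15, 16, 18, 19]], [[13, 15], [14, 16], [11, 12, 17], [18, 19, 20, 21]], [[2, 4], [5, 6], [0, 1, 3], [7, 8, 9, 10]], [[2, 4], [5, 7], [0, 1, 3], [6, 8, 9, 10]], [[2, 9], [4, 6], [0, 1, 3], [5, 7, 8, 10]], [[2, 9], [4, 7], [0, 1, 3], [5, 6, 8, 10]], [[13, 15], [16, 17], [11, 12, 14], [18, 19, 20, 21]], [[13, 15], [16, 18], [11, 12, 14], [17, 19, 20, 21]], [[13, 20], [15, 17], [11, 12, 14], [16, 18, 19, 21]], [[13, 20], [15, 18], [11, 12, 14], [16, 17, 19, 21]], [[2, 7], [0, 1, 10], [14, 8,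 9], [4, 5, 6]], [[13, 18], [11, 12, 21], [3, 19, 20], [15, 16, 17]], [[2, 6], [0, 1, 10], [14, 8, 9], [4, 5, 7]], [[13, 17], [11, 12, 21], [3, 19, 20], [15, 16, 18]], [[1, 7], [0, 5, 10], [2, 4, 6], [14, 8, 9]], [[12, 18], [11, 16, 21], [13, 15, 17], [3, 19, 20]], [[5, 10], [0, 1, 6], [2, 4, 7], [14, 8, 9]], [[16, 21], [11, 12, 17], [13, 15, 18], [3, 19, 20]], [[4, 8], [0, 3, 5], [1, 2, 7], [6, 9, 10]], [[15, 19], [11, 14, 16], [12, 13, 18], [17, 20, 21]], [[4, 8], [0, 3, 5], [1, 2, 6], [7, 9, 10]], [[15, 19], [11, 14, 16], [12, 13, 17], [18, 20, 21]], [[4, 8], [0, 5, 10], [1, 3, 7], [2, 6, 9]], [[15, 19], [11, 16, 21], [12, 14, 18], [13, 17, 20]], [[4, 8], [0, 3, 6], [1, 7, 9], [13, 5, 10]], [[15, 19], [11, 14, 17], [12, 18, 20], [2, 16, 21]]]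

def sd0 : SD where
  C := [0, 0, 1, 0, 3, 6, 0, 1, 15, 57, 28]
  S0 := 41904825771806207342032235733809253247210655737447316
  NB := 24267059279620792316821107532236784393888863969898487733729403720913640439516010940349813126161091001599073849588904138368241601029519897108718698
  nc := 231
  tb := tb0
  pl := pl0
  ni := [0, 17, 35, 53]
  Ns := [75, 2295808, 1060896, 50688]
  ord := true

theorem sd0_ok : sd0.chk = true := by decide +kernel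

end Pool.Agent.H63.RP
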