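import Pool.Agent.H63.RP.Reps

/-!
Data: clauses over the graph with eleven pairs, class 1.
-/

set_option autoImplicit false
set_option maxRecDepth 100000
set_option maxHeartbeats 0

namespace Pool.Agent.H63.RP

def tb1 : LT := (.nd (.nd (.nd (.nd (.nd (.nd (.nd (.nd .lf [184, 240, 464] .lf) [6416, 6528] (.nd .lf [4400, 432, 480, 1472, 1728] .lf)) [28928] (.nd (.nd .lf [4272, 432, 480, 1376] .lf) [6288, 4400, 4496] .lf)) [2295808] (.nd (.nd (.nd .lf [1248, 1472, 1856] .lf) [120, 232] .lf) [25856] (.nd (.nd .lf [368, 480, 1472, 1920] .lf) [851970, 884736, 950272] .lf))) [2103312] (.nd (.nd (.nd (.nd .lf [368, 480, 1440] .lf) [92, 204] (.nd .lf [245760, 491520, 983040, 3014656, 3932160] .lf)) [3280896] (.nd (.nd .lf [319488, 442368, 491520, 753664] .lf) [819201, 819202, 851970] .lf)) [2196] (.nd (.nd (.nd .lf [1440, 1472, 1856] .lf) [960, 1920] .lf) [50688] (.nd (.nd .lf [6416, 4496,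 432, 480, 1248] .lf) [319488, 245760, 442368] .lf)))) [22784] (.nd (.nd (.nd (.nd (.nd .lf [232, 240, 464] .lf) [4272, 4400] (.nd .lf [188416, 442368, 491520, 983040, 2949120] .lf)) [1060896] (.nd (.nd .lf [4400, 432, 480, 1248] .lf) [6416, 4496, 4512] .lf)) [68100] (.nd (.nd (.nd .lf [1376, 1472, 1920] .lf) [2555904, 2818048] .lf) [9504] (.nd (.nd .lf [6288, 4496, 432, 480, 1376] .lf) [92, 216, 232] .lf))) [84480] (.nd (.nd (.nd (.nd .lf [464, 480, 1440] .lf) [319488, 434176] .lf) [1052720] (.nd (.nd .lf [245760, 491520, 983040, 2949120] .lf) [360450, 884736, 950272] .lf)) [2944] (.nd (.nd (.nd .lf [6288, 4496, 368, 432] .lf) [3538944, 3801088] .lf) [294915, 819201] (.nd (.nd .lf [4272, 432, 480, 1472, 1856] .lf) [212, 216, 232] .lf))))) [153600] (.nd (.nd (.nd (.nd (.nd (.nd .lf [376832, 491520, 950272] .lf) [6528, 2448] (.nd .lf [4512, 92, 216, 240, 432] .lf)) [1191936] (.nd (.nd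 .lf [622594, 884736, 983040, 2555904] .lf) [557059, 819202, 851970] .lf)) [2164740] (.nd (.nd (.nd .lf [2555904, 3014656, 3801088] .lf) [245760, 475136] .lf) [1449984] (.nd (.nd .lf [753664, 983040, 3014656, 3932160] .lf) [4512, 432, 464] .lf))) [215040] (.nd (.nd (.nd (.nd .lf [753664, 983040, 2949120] .lf) [188416, 417792] (.nd .lf [376832, 491520, 983040, 3014656, 3801088] .lf)) [3149840] (.nd (.nd .lf [417792, 442368, 491520, 753664] .lf) [2448, 4496, 4512] .lf)) [2692] (.nd (.nd (.nd .lf [2949120, 3014656, 3801088] .lf) [1966080, 3932160] .lf) [18176] (.nd (.nd .lf [6528, 4496, 120, 240, 432] .lf) [417792, 245760, 442368] .lf)))) [2234368] (.nd (.nd (.nd (.nd (.nd .lf [475136, 491520, 950272] .lf) [4400, 4512] (.nd .lf [319488, 442368, 491520, 983040, 2818048] .lf)) [12576] (.nd (.nd .lf [4512, 120, 240, 432] .lf) [6528, 4400, 4496] .lf)) [2099220] (.nd (.nd (.nd .lf [2818048,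 3014656, 3932160] .lf) [2818048, 2949120] .lf) [115200] (.nd (.nd .lf [557059, 819202, 884736, 983040, 2555904] .lf) [188416, 442368, 475136] .lf))) [19200] (.nd (.nd (.nd (.nd .lf [950272, 983040, 2949120] .lf) [417792, 434176] .lf) [58368] (.nd (.nd .lf [376832, 491520, 983040, 2818048] .lf) [4272, 432, 464] .lf)) [159744] (.nd (.nd (.nd .lf [6528, 4496, 368, 432] .lf) [3801088, 3932160] .lf) [6288, 2448] (.nd (.nd .lf [622594, 884736, 983040, 3014656, 3538944] .lf) [434176, 442368, 475136] .lf)))))) [75] (.nd (.nd (.nd (.nd (.nd (.nd (.nd .lf [376832, 491520, 753664] .lf) [786435, 819201] (.nd .lf [851970, 188416, 442368, 491520, 884736] .lf)) [582] (.nd (.nd .lf [622594, 475136, 491520, 884736] .lf) [557059, 360450, 819202] .lf)) [9249] (.nd (.nd (.nd .lf [2555904, 1966080, 3014656] .lf) [245760, 376832] .lf) [708] (.nd (.nd .lf [753664, 983040, 3014656, 3538944] .lf) [4512, 368,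 432] .lf))) [105] (.nd (.nd (.nd (.nd .lf [753664, 983040, 2555904] .lf) [188416, 319488] (.nd .lf [184, 240, 480, 1472, 1856] .lf)) [34306] (.nd (.nd .lf [204, 216, 240, 368] .lf) [2448, 4272, 4496] .lf)) [1318913] (.nd (.nd (.nd .lf [2949120, 1966080, 3014656] .lf) [1966080, 3538944] .lf) [3670024] (.nd (.nd .lf [786435, 819202, 245760, 491520, 884736] .lf) [204, 120, 216] .lf)))) [1091] (.nd (.nd (.nd (.nd (.nd .lf [475136, 491520, 753664] .lf) [622594, 851970] (.nd .lf [156, 216, 240, 480, 1376] .lf)) [589830] (.nd (.nd .lf [851970, 245760, 491520, 884736] .lf) [786435, 622594, 819202] .lf)) [41985] (.nd (.nd (.nd .lf [2818048, 3014656, 3538944] .lf) [1376, 1440] .lf) [1048632] (.nd (.nd .lf [557059, 819202, 475136, 491520, 884736] .lf) [188416, 376832, 442368] .lf))) [1572873] (.nd (.nd (.nd (.nd .lf [950272, 983040, 2555904] .lf) [204, 212] .lf) [2097180] (.nd (.nd .lf [184,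 240, 480, 1376] .lf) [4272, 368, 432] .lf)) [78] (.nd (.nd (.nd .lf [786435, 819202, 753664, 884736] .lf) [1856, 1920] .lf) [6288, 6416] (.nd (.nd .lf [622594, 417792, 442368, 491520, 884736] .lf) [434176, 376832, 442368] .lf))))) [524299] (.nd (.nd (.nd (.nd (.nd (.nd .lf [232, 240, 368] .lf) [360450, 622594] (.nd .lf [92, 216, 240, 480, 1440] .lf)) [66054] (.nd (.nd .lf [4400, 232, 240, 432] .lf) [6416, 4272, 4496] .lf)) [1056801] (.nd (.nd (.nd .lf [1376, 1472, 1728] .lf) [1248, 1376] .lf) [2686980] (.nd (.nd .lf [294915, 819202, 884736, 983040, 2818048] .lf) [92, 184, 216] .lf))) [1048617] (.nd (.nd (.nd (.nd .lf [464, 480, 1248] .lf) [156, 212] .lf) [98818] (.nd (.nd .lf [120, 240, 480, 1440] .lf) [360450, 753664, 884736] .lf)) [1835009] (.nd (.nd (.nd .lf [294915, 819202, 753664, 884736] .lf) [1728, 1856] .lf) [294915, 557059] (.nd (.nd .lf [360450, 884736, 983040, 3014656,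 3801088] .lf) [212, 184, 216] .lf)))) [33795] (.nd (.nd (.nd (.nd (.nd .lf [368, 480, 1248] .lf) [92, 156] (.nd .lf [120, 240, 480, 1472, 1920] .lf)) [1602] (.nd (.nd .lf [156, 216, 240, 368] .lf) [819201, 360450, 819202] .lf)) [303105] (.nd (.nd (.nd .lf [1440, 960, 1472] .lf) [960, 1728] .lf) [3145752] (.nd (.nd .lf [6416, 4496, 232, 240, 432] .lf) [156, 120, 216] .lf))) [1121] (.nd (.nd (.nd (.nd .lf [1248, 960, 1472] .lf) [120, 184] .lf) [2621452] (.nd (.nd .lf [368, 480, 1472, 1728] .lf) [851970, 753664, 884736] .lf)) [524302] (.nd (.nd (.nd .lf [360450, 884736, 983040, 2818048] .lf) [294915, 622594, 819202] .lf) [557059, 786435] (.nd (.nd .lf [4400, 204, 216, 240, 432] .lf) [184, 240, 368] .lf)))))))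

def pl1 : List (List (List ℕ)) := [[[0], [1, 2], [3, 4, 5], [6, 7, 8, 9, 10]], [[11], [12, 13], [14, 15, 16], [17, 18, 19, 20, 21]], [[0], [1, 2], [3, 4, 5], [17, 18, 19, 20, 21]], [[11], [12, 13], [14, 15, 16], [6, 7, 8, 9, 10]], [[0], [1, 2], [14, 9, 10], [4, 5, 6, 7, 8]], [[11], [12, 13], [3, 20, 21], [15, 16, 17, 18, 19]], [[0], [1, 2], [14, 15, 16], [6, 7, 8, 9, 10]], [[11], [12, 13], [3, 4, 5], [17, 18, 19, 20, 21]], [[0], [12, 5], [2, 3, 4], [6, 7, 8, 9, 10]], [[11], [1, 16], [13, 14, 15], [17, 18, 19, 20, 21]], [[0], [12, 20], [2, 3, 4], [5, 6, 7, 8, 10]], [[11], [1, 9], [13, 14, 15], [16, 17, 18, 19, 21]], [[0], [12, 20], [2, 3, 4], [16, 17, 18, 19, 21]], [[11], [1, 9], [13, 14, 15], [5, 6, 7, 8, 10]], [[0], [12, 5], [2, 3, 4, 6], [7, 8, 9, 10]], [[11], [1, 16], [13, 14, 15, 17], [18, 19, 20, 21]], [[0], [12, 13], [3, 4, 5], [6, 7, 8, 9, 10]], [[11], [1, 2], [14, 15, 16],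 [17, 18, 19, 20, 21]], [[0], [12, 13], [3, 4, 5], [17, 18, 19, 20, 21]], [[11], [1, 2], [14, 15, 16], [6, 7, 8, 9, 10]], [[0], [12, 13], [14, 15, 16], [6, 7, 8, 9, 10]], [[11], [1, 2], [3, 4, 5], [17, 18, 19, 20, 21]], [[0], [12, 13], [14, 15, 16], [17, 18, 19, 20, 21]], [[11], [1, 2], [3, 4, 5], [6, 7, 8, 9, 10]], [[0], [12, 13], [3, 4, 20], [16, 17, 18, 19, 21]], [[11], [1, 2], [14, 15, 9], [5, 6, 7, 8, 10]], [[0], [12, 20], [2, 19, 21], [14, 15, 16, 17, 18]], [[11], [1, 9], [13, 8, 10], [3, 4, 5, 6, 7]], [[2], [0, 1], [3, 4, 5], [6, 7, 8, 9, 10]], [[13], [11, 12], [14, 15, 16], [17, 18, 19, 20, 21]], [[2], [0, 1], [3, 4, 5], [17, 18, 19, 20, 21]], [[13], [11, 12], [14, 15, 16], [6, 7, 8, 9, 10]], [[2], [0, 1], [14, 15, 9], [5, 6, 7, 8, 10]], [[13], [11, 12], [3, 4, 20], [16, 17, 18, 19, 21]], [[2], [0, 1], [14, 15, 16], [6, 7, 8, 9, 10]], [[13], [11, 12], [3, 4, 5], [17, 18, 19,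 20, 21]], [[2], [0, 1], [14, 15, 16], [17, 18, 19, 20, 21]], [[13], [11, 12], [3, 4, 5], [6, 7, 8, 9, 10]], [[0, 1], [2, 6], [14, 15, 9], [5, 7, 8, 10]], [[11, 12], [13, 17], [3, 4, 20], [16, 18, 19, 21]], [[0, 1], [13, 15], [14, 9], [5, 6, 7, 8, 10]], [[11, 12], [2, 4], [3, 20], [16, 17, 18, 19, 21]], [[0, 1], [13, 15], [14, 16], [6, 7, 8, 9, 10]], [[11, 12], [2, 4], [3, 5], [17, 18, 19, 20, 21]], [[0, 3], [1, 2], [4, 5], [17, 18, 19, 20, 21]], [[11, 14], [12, 13], [15, 16], [6, 7, 8, 9, 10]], [[0, 3], [1, 2], [4, 20, 21], [16, 17, 18, 19]], [[11, 14], [12, 13], [15, 9, 10], [5, 6, 7, 8]], [[0, 6], [1, 2], [14, 9, 10], [4, 5, 7, 8]], [[11, 17], [12, 13], [3, 20, 21], [15, 16, 18, 19]], [[11, 16], [1, 2], [3, 4, 21], [17, 18, 19, 20]], [[0, 5], [12, 13], [14, 15, 10], [6, 7, 8, 9]], [[0, 3], [12, 20], [2, 4], [5, 6, 7, 8, 10]], [[11, 14], [1, 9], [13, 15], [16, 17, 18, 19, 21]], [[0,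 3], [12, 20], [2, 4], [16, 17, 18, 19, 21]], [[11, 14], [1, 9], [13, 15], [5, 6, 7, 8, 10]], [[0, 3], [12, 20], [2, 21], [15, 16, 17, 18, 19]], [[11, 14], [1, 9], [13, 10], [4, 5, 6, 7, 8]], [[0], [1, 2], [14, 15, 16], [17, 18, 19, 20, 21]], [[0], [1, 2, 19], [14, 15, 16], [17, 18, 20, 21]], [[11], [12, 13], [3, 4, 5], [6, 7, 8, 9, 10]], [[11], [12, 13, 8], [3, 4, 5], [6, 7, 9, 10]], [[0], [1, 2], [14, 15, 16, 18], [17, 19, 20, 21]], [[11], [12, 13], [3, 4, 5, 7], [6, 8, 9, 10]], [[0], [1, 15, 9], [13, 14, 18], [16, 17, 19, 21]], [[11], [12, 4, 20], [2, 3, 7], [5, 6, 8, 10]], [[0, 1], [13, 15], [14, 16], [17, 18, 19, 20, 21]], [[11, 12], [2, 4], [3, 5], [6, 7, 8, 9, 10]], [[0, 1], [2, 16], [14, 15, 18], [17, 19, 20, 21]], [[11, 12], [13, 5], [3, 4, 7], [6, 8, 9, 10]], [[0, 3], [1, 2], [4, 5], [6, 7, 8, 9, 10]], [[0, 3], [1, 2], [4, 5, 7], [6, 8, 9, 10]], [[11, 14], [12, 13], [15,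 16], [17, 18, 19, 20, 21]], [[11, 14], [12, 13], [15, 16, 18], [17, 19, 20, 21]], [[11, 2], [12, 4], [3, 5, 6], [7, 8, 9, 10]], [[0, 13], [1, 15], [14, 16, 17], [18, 19, 20, 21]], [[0, 6], [1, 2], [3, 4, 5], [7, 8, 9, 10]], [[11, 17], [12, 13], [14, 15, 16], [18, 19, 20, 21]], [[0, 3], [12, 4], [13, 5], [6, 7, 8, 9, 10]], [[0, 3], [12, 5], [2, 4, 7], [6, 8, 9, 10]], [[11, 14], [1, 15], [2, 16], [17, 18, 19, 20, 21]], [[11, 14], [1, 16], [13, 15, 18], [17, 19, 20, 21]], [[0, 5], [1, 6], [7, 8, 9], [13, 14, 15, 10]], [[11, 16], [12, 17], [18, 19, 20], [2, 3, 4, 21]], [[0, 5], [1, 10], [14, 8, 9], [2, 4, 6, 7]], [[11, 16], [12, 21], [3, 19, 20], [13, 15, 17, 18]], [[0, 6], [1, 9], [13, 8, 10], [3, 4, 5, 7]], [[11, 7], [12, 13, 8], [14, 15, 9], [5, 6, 10]], [[11, 17], [12, 20], [2, 19, 21], [14, 15, 16, 18]], [[0, 18], [1, 2, 19], [3, 4, 20], [16, 17, 21]], [[0, 6], [1, 9], [13, 14, 10],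 [4, 5, 7, 8]], [[11, 17], [12, 20], [2, 3, 21], [15, 16, 18, 19]], [[0, 10], [1, 9], [13, 8], [3, 4, 5, 6, 7]], [[11, 21], [12, 20], [2, 19], [14, 15, 16, 17, 18]], [[0, 19], [1, 2], [14, 15, 9], [16, 17, 18, 21]], [[11, 8], [12, 13], [3, 4, 20], [5, 6, 7, 10]], [[0, 18], [1, 2], [14, 15, 9], [16, 17, 19, 21]], [[0, 18], [1, 2], [14, 15, 16], [17, 19, 20, 21]], [[11, 7], [12, 13], [3, 4, 20], [5, 6, 8, 10]], [[11, 7], [12, 13], [3, 4, 5], [6, 8, 9, 10]], [[0, 15], [1, 2], [14, 16, 18], [17, 19, 20, 21]], [[11, 4], [12, 13], [3, 5, 7], [6, 8, 9, 10]], [[0, 1], [13, 18], [14, 15, 9], [16, 17, 19, 21]], [[0, 1], [13, 18], [14, 15, 16], [17, 19, 20, 21]], [[11, 12], [2, 7], [3, 4, 20], [5, 6, 8, 10]], [[11, 12], [2, 7], [3, 4, 5], [6, 8, 9, 10]], [[11, 16], [1, 19], [13, 14, 15], [17, 18, 20, 21]], [[0, 15], [1, 2, 19], [14, 16, 17], [18, 20, 21]], [[0, 5], [12, 8], [2, 3, 4], [6, 7,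 9, 10]], [[11, 4], [12, 13, 8], [3, 5, 6], [7, 9, 10]], [[11, 16], [1, 15], [2, 3, 19], [17, 18, 20, 21]], [[0, 18], [1, 15, 9], [2, 3, 19], [16, 17, 21]], [[0, 5], [12, 4], [13, 14, 8], [6, 7, 9, 10]], [[11, 7], [12, 4, 20], [13, 14, 8], [5, 6, 10]], [[0, 3], [12, 4], [2, 7, 9], [5, 6, 8, 10]], [[0, 3], [1, 6, 10], [2, 7, 9], [4, 5, 8]], [[11, 14], [1, 15], [13, 18, 20], [16, 17, 19, 21]], [[11, 14], [12, 17, 21], [13, 18, 20], [15, 16, 19]], [[0, 3], [12, 4], [2, 6, 9], [5, 7, 8, 10]], [[11, 14], [1, 15], [13, 17, 20], [16, 18, 19, 21]], [[0, 3], [2, 4], [1, 6, 9], [5, 7, 8, 10]], [[11, 14], [13, 15], [12, 17, 20], [16, 18, 19, 21]], [[11, 4], [5, 6], [1, 2, 3], [7, 8, 9, 10]], [[0, 6], [12, 7], [4, 5, 20], [2, 3, 19, 21]], [[0, 15], [16, 17], [12, 13, 14], [18, 19, 20, 21]], [[11, 17], [1, 18], [15, 16, 9], [13, 14, 8, 10]], [[0, 5], [12, 4], [2, 3, 6], [7, 8, 9, 10]], [[11, 4],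 [1, 3, 6], [2, 7, 9], [5, 8, 10]], [[11, 16], [1, 15], [13, 14, 17], [18, 19, 20, 21]], [[0, 15], [12, 14, 17], [13, 18, 20], [16, 19, 21]], [[0, 5], [1, 6], [2, 3, 4], [7, 8, 9, 10]], [[0, 6], [12, 7], [13, 5, 8], [3, 4, 20, 21]], [[11, 16], [12, 17], [13, 14, 15], [18, 19, 20, 21]], [[11, 17], [1, 18], [2, 16, 19], [14, 15, 9, 10]], [[0, 5], [1, 6], [2, 4, 7], [14, 8, 9, 10]], [[0, 5], [12, 8], [6, 9, 10], [2, 3, 4, 7]], [[11, 16], [12, 17], [13, 15, 18], [3, 19, 20, 21]], [[11, 16], [1, 19], [17, 20, 21], [13, 14, 15, 18]], [[0, 6], [12, 7], [13, 8, 10], [3, 4, 5, 20]], [[11, 7], [12, 13, 8], [3, 4, 5], [6, 9, 10]], [[11, 17], [1, 18], [2, 19, 21], [14, 15, 16, 9]], [[0, 18], [1, 2, 19], [14, 15, 16], [17, 20, 21]], [[0, 6], [12, 7], [13, 5, 8], [14, 15, 9, 10]], [[0, 6], [12, 5, 8], [2, 7, 9], [14, 15, 10]], [[11, 17], [1, 18], [2, 16, 19], [3, 4, 20, 21]], [[11, 17], [1, 16,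 19], [13, 18, 20], [3, 4, 21]], [[0, 6], [12, 5, 7], [13, 15, 10], [14, 8, 9]], [[0, 10], [12, 8], [2, 6, 9], [3, 4, 5, 7]], [[11, 17], [1, 16, 18], [2, 4, 21], [3, 19, 20]], [[11, 21], [1, 19], [13, 17, 20], [14, 15, 16, 18]], [[11, 7], [12, 13, 8], [3, 5, 6], [15, 9, 10]], [[0, 10], [12, 8], [2, 7, 9], [3, 4, 5, 6]], [[0, 18], [1, 2, 19], [14, 16, 17], [4, 20, 21]], [[11, 21], [1, 19], [13, 18, 20], [14, 15, 16, 17]], [[0, 19], [1, 16], [13, 14, 15], [17, 18, 20, 21]], [[11, 8], [12, 5], [2, 3, 4], [6, 7, 9, 10]], [[0, 15], [1, 16], [2, 3, 19], [17, 18, 20, 21]], [[11, 4], [12, 5], [13, 14, 8], [6, 7, 9, 10]], [[11, 16], [1, 19], [18, 20, 21], [13, 14, 15, 17]], [[0, 5], [12, 8], [7, 9, 10], [2, 3, 4, 6]], [[11, 16], [1, 18], [13, 14, 15], [17, 19, 20, 21]], [[11, 16], [1, 18], [13, 15, 17], [3, 19, 20, 21]], [[0, 5], [12, 7], [2, 3, 4], [6, 8, 9, 10]], [[0, 5], [12, 7], [2, 4,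 6], [14, 8, 9, 10]], [[11, 16], [1, 15], [13, 14, 18], [17, 19, 20, 21]], [[0, 5], [12, 4], [2, 3, 7], [6, 8, 9, 10]], [[11, 4], [3, 5], [1, 2, 6], [7, 8, 9, 10]], [[0, 15], [14, 16], [12, 13, 17], [18, 19, 20, 21]], [[0, 6], [12, 7, 8], [2, 4, 21], [3, 5, 20]], [[11, 17], [1, 18, 19], [13, 15, 10], [14, 16, 9]], [[0, 5], [12, 4, 8], [2, 3, 7], [6, 9, 10]], [[11, 16], [1, 15, 19], [13, 14, 18], [17, 20, 21]], [[0, 5], [12, 4, 8], [2, 3, 6], [7, 9, 10]], [[11, 16], [1, 15, 19], [13, 14, 17], [18, 20, 21]], [[0, 6], [12, 4, 7], [13, 5, 10], [14, 8, 9]], [[11, 8], [1, 6, 9], [13, 5, 10], [3, 4, 7]], [[11, 17], [1, 15, 18], [2, 16, 21], [3, 19, 20]], [[0, 19], [12, 17, 20], [2, 16, 21], [14, 15, 18]], [[0, 19], [1, 16], [18, 20, 21], [13, 14, 15, 17]], [[11, 8], [12, 5], [7, 9, 10], [2, 3, 4, 6]], [[0, 18], [1, 16], [13, 14, 15], [17, 19, 20, 21]], [[0, 18], [1, 16], [13, 15, 17], [3,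 19, 20, 21]], [[11, 7], [12, 5], [2, 3, 4], [6, 8, 9, 10]], [[11, 7], [12, 5], [2, 4, 6], [14, 8, 9, 10]], [[0, 15], [1, 16], [13, 14, 18], [17, 19, 20, 21]], [[11, 4], [12, 5], [2, 3, 7], [6, 8, 9, 10]], [[16, 21], [0, 1, 19], [13, 18, 20], [14, 15, 17]], [[5, 10], [11, 12, 8], [2, 7, 9], [3, 4, 6]], [[13, 15], [14, 16], [0, 1, 18], [17, 19, 20, 21]], [[16, 21], [0, 1, 18], [13, 15, 17], [3, 19, 20]], [[2, 4], [3, 5], [11, 12, 7], [6, 8, 9, 10]], [[5, 10], [11, 12, 7], [2, 4, 6], [14, 8, 9]], [[13, 18], [14, 16], [0, 1, 15], [17, 19, 20, 21]], [[2, 7], [3, 5], [11, 12, 4], [6, 8, 9, 10]], [[4, 8], [0, 3, 5], [1, 6, 10], [2, 7, 9]], [[15, 19], [11, 14, 16], [12, 17, 21], [13, 18, 20]], [[4, 8], [0, 3, 5], [1, 2, 6], [7, 9, 10]], [[15, 19], [11, 14, 16], [12, 13, 17], [18, 20, 21]], [[4, 8], [0, 5, 10], [1, 6, 9], [2, 3, 7]], [[15, 19], [11, 16, 21], [12, 17, 20], [13, 14, 18]], [[5,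 10], [0, 3, 6], [12, 4, 8], [2, 7, 9]], [[16, 21], [11, 14, 17], [1, 15, 19], [13, 18, 20]]]

def sd1 : SD where
  C := [0, 0, 1, 0, 3, 6, 0, 3, 15, 57, 28]
  S0 := 41904825771806208671260231518725126151017716034569108
  NB := 24267059279620792316820446799049228906153485761580351463066051840562606539161758809178905030639959727699855649245807420260072916188962695960896618
  nc := 201
  tb := tb1
  pl := pl1
  ni := [0, 15, 35, 55]
  Ns := [75, 2295808, 1060896, 50688]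
  ord := true

theorem sd1_ok : sd1.chk = true := by decide +kernel

end Pool.Agent.H63.RP
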