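import Pool.Agent.H63.RP.Reps

/-!
Data: clauses over the graph with eleven pairs, class 2.
-/

set_option autoImplicit false
set_option maxRecDepth 100000
set_option maxHeartbeats 0

namespace Pool.Agent.H63.RP

def tb2 : LT := (.nd (.nd (.nd (.nd (.nd (.nd (.nd (.nd .lf [1220, 1728, 1920] .lf) [319488, 434176] .lf) [1574928] (.nd .lf [83456, 99840] .lf)) [84992] (.nd (.nd (.nd .lf [2097208, 3145752, 3670024] .lf) [376832, 491520] .lf) [4272] (.nd .lf [156, 216, 240] .lf))) [1054736] (.nd (.nd (.nd (.nd .lf [1668, 1728, 1856] .lf) [2498560, 3416064] .lf) [1060896] (.nd .lf [3014656, 3932160] .lf)) [68612] (.nd (.nd (.nd .lf [3145752, 3670024, 3145776] .lf) [1572888, 3670032] .lf) [3153952] (.nd .lf [212, 216, 232] .lf)))) [23552] (.nd (.nd (.nd (.nd (.nd .lf [1604, 1728, 1920] .lf) [708, 1604] .lf) [28928] (.nd .lf [960, 1856] .lf)) [1705984] (.nd (.nd (.nd .lf [49920, 50688,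 99840] .lf) [115200, 99840] .lf) [5504] (.nd .lf [204, 216, 240] .lf))) [7296] (.nd (.nd (.nd (.nd .lf [1048632, 3145752, 3670032] .lf) [120, 232] .lf) [21760] (.nd .lf [92, 216, 232] .lf)) [2196] (.nd (.nd .lf [50432, 18176] .lf) [92, 204] (.nd .lf [708, 1728, 1856] .lf))))) [153600] (.nd (.nd (.nd (.nd (.nd (.nd .lf [2498560, 3538944, 3932160] .lf) [417792, 434176] .lf) [159744] (.nd .lf [18176, 34560] .lf)) [722944] (.nd (.nd (.nd .lf [115712, 50688, 18176] .lf) [1048632, 3145776] .lf) [4512] (.nd .lf [319488, 442368, 491520] .lf))) [6288] (.nd (.nd (.nd (.nd .lf [3416064, 3538944, 3801088] .lf) [3284992, 3416064] .lf) [12576] (.nd .lf [3801088, 3932160] .lf)) [526356] (.nd (.nd (.nd .lf [50688, 18176, 99840] .lf) [49920, 34560] .lf) [983040] (.nd .lf [434176, 442368, 475136] .lf)))) [1185792] (.nd (.nd (.nd (.nd (.nd .lf [3284992, 3538944, 3932160] .lf) [1449984, 3284992]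 .lf) [1191936] (.nd .lf [1966080, 3801088] .lf)) [591876] (.nd (.nd (.nd .lf [50432, 50688, 83456] .lf) [115712, 83456] .lf) [57600] (.nd .lf [417792, 442368, 491520] .lf))) [215040] (.nd (.nd (.nd (.nd .lf [115200, 50688, 34560] .lf) [245760, 475136] .lf) [1052720] (.nd .lf [188416, 442368, 475136] .lf)) [3204] (.nd (.nd .lf [475136, 491520] .lf) [188416, 417792] (.nd .lf [1449984, 3538944, 3801088] .lf)))))) [75] (.nd (.nd (.nd (.nd (.nd (.nd (.nd .lf [2498560, 1966080, 3538944] .lf) [204, 212] .lf) [78] (.nd .lf [3670024, 3670032] .lf)) [353] (.nd (.nd (.nd .lf [115712, 49920, 50688] .lf) [1048632, 2097208] .lf) [851970] (.nd .lf [319488, 245760, 442368] .lf))) [294915] (.nd (.nd (.nd (.nd .lf [3416064, 3014656, 3538944] .lf) [1604, 1668] .lf) [589830] (.nd .lf [1856, 1920] .lf)) [41217] (.nd (.nd (.nd .lf [50688, 83456, 34560] .lf) [49920, 50432] .lf) [480] (.nd .lf [434176,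 376832, 442368] .lf)))) [579] (.nd (.nd (.nd (.nd (.nd .lf [3284992, 1966080, 3538944] .lf) [1449984, 2498560] .lf) [582] (.nd .lf [1966080, 3014656] .lf)) [8481] (.nd (.nd (.nd .lf [2621464, 3145752, 3145768] .lf) [2097208, 3145768] .lf) [524316] (.nd .lf [417792, 245760, 442368] .lf))) [105] (.nd (.nd (.nd (.nd .lf [115200, 50432, 50688] .lf) [245760, 376832] .lf) [98818] (.nd .lf [188416, 376832, 442368] .lf)) [2367489] (.nd (.nd .lf [232, 240] .lf) [188416, 319488] (.nd .lf [1449984, 3014656, 3538944] .lf))))) [2097163] (.nd (.nd (.nd (.nd (.nd (.nd .lf [1604, 960, 1728] .lf) [708, 1220] .lf) [524302] (.nd .lf [960, 1472] .lf)) [833] (.nd (.nd (.nd .lf [1572888, 3145752, 3145776] .lf) [115200, 115712] .lf) [2883586] (.nd .lf [204, 120, 216] .lf))) [2359299] (.nd (.nd (.nd (.nd .lf [1048632, 2621464, 3145752] .lf) [120, 184] .lf) [2621450] (.nd .lf [92, 184, 216] .lf)) [303105]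 (.nd (.nd .lf [2621464, 3670024] .lf) [92, 156] (.nd .lf [708, 1472, 1728] .lf)))) [33283] (.nd (.nd (.nd (.nd (.nd .lf [1668, 1472, 1728] .lf) [1220, 1668] .lf) [66054] (.nd .lf [1472, 1920] .lf)) [2105377] (.nd (.nd (.nd .lf [3145752, 3145768, 3670032] .lf) [1572888, 2621464] .lf) [67076] (.nd .lf [212, 184, 216] .lf))) [2097193] (.nd (.nd (.nd (.nd .lf [2097208, 1572888, 3145752] .lf) [184, 240] .lf) [360450] (.nd .lf [156, 120, 216] .lf)) [33537] (.nd (.nd .lf [3145768, 3145776] .lf) [156, 212] (.nd .lf [1220, 960, 1728] .lf)))))))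

def pl2 : List (List (List ℕ)) := [[[0], [1, 2], [3, 4, 5], [6, 7, 8, 9, 10]], [[11], [12, 13], [14, 15, 16], [17, 18, 19, 20, 21]], [[0], [1, 2], [3, 4, 5], [17, 18, 19, 20, 21]], [[11], [12, 13], [14, 15, 16], [6, 7, 8, 9, 10]], [[0], [1, 2], [3, 4, 5, 6], [7, 8, 9, 10]], [[11], [12, 13], [14, 15, 16, 17], [18, 19, 20, 21]], [[0], [1, 2], [14, 15, 16], [6, 7, 8, 9, 10]], [[11], [12, 13], [3, 4, 5], [17, 18, 19, 20, 21]], [[0], [1, 2], [14, 15, 16], [17, 18, 19, 20, 21]], [[11], [12, 13], [3, 4, 5], [6, 7, 8, 9, 10]], [[0], [1, 2], [14, 15, 16, 18], [17, 19, 20, 21]], [[11], [12, 13], [3, 4, 5, 7], [6, 8, 9, 10]], [[0], [12, 5], [2, 3, 4], [6, 7, 8, 9, 10]], [[11], [1, 16], [13, 14, 15], [17, 18, 19, 20, 21]], [[0], [12, 5], [2, 3, 4], [17, 18, 19, 20, 21]], [[11], [1, 16], [13, 14, 15], [6, 7, 8, 9, 10]], [[0], [12, 5], [2, 6, 7], [14, 15, 8, 9, 10]], [[11], [1, 16], [13, 17,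 18], [3, 4, 19, 20, 21]], [[0], [12, 8], [2, 6, 7], [14, 15, 16, 9, 10]], [[11], [1, 19], [13, 17, 18], [3, 4, 5, 20, 21]], [[0], [12, 13], [3, 4, 5], [6, 7, 8, 9, 10]], [[11], [1, 2], [14, 15, 16], [17, 18, 19, 20, 21]], [[0], [12, 13], [3, 4, 5], [17, 18, 19, 20, 21]], [[11], [1, 2], [14, 15, 16], [6, 7, 8, 9, 10]], [[0], [12, 13], [14, 15, 16], [6, 7, 8, 9, 10]], [[11], [1, 2], [3, 4, 5], [17, 18, 19, 20, 21]], [[0], [12, 13], [14, 15, 16], [17, 18, 19, 20, 21]], [[11], [1, 2], [3, 4, 5], [6, 7, 8, 9, 10]], [[0], [12, 13], [14, 15, 16, 18], [17, 19, 20, 21]], [[11], [1, 2], [3, 4, 5, 7], [6, 8, 9, 10]], [[0], [12, 8], [2, 9, 10], [14, 15, 16, 17, 18]], [[11], [1, 19], [13, 20, 21], [3, 4, 5, 6, 7]], [[2], [0, 1], [3, 4, 5], [6, 7, 8, 9, 10]], [[13], [11, 12], [14, 15, 16], [17, 18, 19, 20, 21]], [[2], [0, 1], [3, 4, 5], [17, 18, 19, 20, 21]], [[13], [11, 12], [14, 15, 16],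 [6, 7, 8, 9, 10]], [[2], [0, 1], [3, 4, 5, 6], [7, 8, 9, 10]], [[13], [11, 12], [14, 15, 16, 17], [18, 19, 20, 21]], [[2], [0, 1], [14, 15, 16], [6, 7, 8, 9, 10]], [[13], [11, 12], [3, 4, 5], [17, 18, 19, 20, 21]], [[2], [0, 1], [14, 15, 16], [17, 18, 19, 20, 21]], [[13], [11, 12], [3, 4, 5], [6, 7, 8, 9, 10]], [[0, 1], [2, 3], [4, 5, 21], [17, 18, 19, 20]], [[11, 12], [13, 14], [15, 16, 10], [6, 7, 8, 9]], [[0, 1], [13, 15], [14, 16], [6, 7, 8, 9, 10]], [[11, 12], [2, 4], [3, 5], [17, 18, 19, 20, 21]], [[0, 1], [13, 15], [14, 16], [17, 18, 19, 20, 21]], [[11, 12], [2, 4], [3, 5], [6, 7, 8, 9, 10]], [[0, 1], [13, 18], [14, 15, 16], [17, 19, 20, 21]], [[11, 12], [2, 7], [3, 4, 5], [6, 8, 9, 10]], [[0, 1], [13, 18], [17, 19, 20], [3, 4, 5, 21]], [[11, 12], [2, 7], [6, 8, 9], [14, 15, 16, 10]], [[0, 3], [1, 2], [4, 5], [17, 18, 19, 20, 21]], [[11, 14], [12, 13], [15, 16], [6, 7,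 8, 9, 10]], [[11, 16], [1, 2], [14, 15, 9], [6, 7, 8, 10]], [[0, 5], [12, 13], [3, 4, 20], [17, 18, 19, 21]], [[0, 5], [1, 6], [2, 7], [14, 15, 8, 9, 10]], [[11, 16], [12, 17], [13, 18], [3, 4, 19, 20, 21]], [[0, 3], [1, 2], [4, 5], [6, 7, 8, 9, 10]], [[0, 3], [1, 2], [4, 5, 7], [6, 8, 9, 10]], [[11, 14], [12, 13], [15, 16], [17, 18, 19, 20, 21]], [[11, 14], [12, 13], [15, 16, 18], [17, 19, 20, 21]], [[11, 2], [12, 4], [3, 5, 6], [7, 8, 9, 10]], [[0, 13], [1, 15], [14, 16, 17], [18, 19, 20, 21]], [[0, 6], [1, 2], [3, 4, 5], [7, 8, 9, 10]], [[11, 17], [12, 13], [14, 15, 16], [18, 19, 20, 21]], [[0, 6], [1, 2], [3, 5, 7], [15, 8, 9, 10]], [[0, 6], [1, 2], [7, 8, 10], [14, 15, 16, 9]], [[11, 17], [12, 13], [14, 16, 18], [4, 19, 20, 21]], [[11, 17], [12, 13], [18, 19, 21], [3, 4, 5, 20]], [[11, 2], [12, 7], [6, 8, 9], [14, 15, 16, 10]], [[0, 13], [1, 18], [17, 19, 20], [3, 4, 5, 21]],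 [[0, 9], [1, 2], [14, 15, 10], [5, 6, 7, 8]], [[11, 20], [12, 13], [3, 4, 21], [16, 17, 18, 19]], [[0, 3], [12, 4], [13, 5], [6, 7, 8, 9, 10]], [[0, 3], [12, 5], [2, 4, 7], [6, 8, 9, 10]], [[11, 14], [1, 15], [2, 16], [17, 18, 19, 20, 21]], [[11, 14], [1, 16], [13, 15, 18], [17, 19, 20, 21]], [[0, 5], [12, 4], [2, 3, 6], [7, 8, 9, 10]], [[11, 16], [1, 15], [13, 14, 17], [18, 19, 20, 21]], [[0, 3], [12, 4], [13, 5], [17, 18, 19, 20, 21]], [[0, 5], [12, 20], [3, 19, 21], [2, 4, 6, 7]], [[11, 14], [1, 15], [2, 16], [6, 7, 8, 9, 10]], [[11, 16], [1, 9], [14, 8, 10], [13, 15, 17, 18]], [[0, 3], [12, 5], [4, 19, 20], [13, 17, 18, 21]], [[11, 14], [1, 16], [15, 8, 9], [2, 6, 7, 10]], [[0, 3], [12, 4], [13, 20, 21], [16, 17, 18, 19]], [[11, 19], [12, 20], [3, 5, 21], [2, 4, 6, 7]], [[11, 14], [1, 15], [2, 9, 10], [5, 6, 7, 8]], [[0, 8], [1, 9], [14, 16, 10], [13, 15, 17, 18]], [[0, 3],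 [1, 19], [4, 5, 20], [13, 17, 18, 21]], [[11, 14], [12, 8], [15, 16, 9], [2, 6, 7, 10]], [[0, 5], [1, 6], [2, 7], [3, 4, 19, 20, 21]], [[11, 16], [12, 17], [13, 18], [14, 15, 8, 9, 10]], [[0, 5], [12, 20], [2, 3, 4], [17, 18, 19, 21]], [[11, 16], [1, 9], [13, 14, 15], [6, 7, 8, 10]], [[11, 19], [12, 20], [13, 21], [3, 4, 5, 6, 7]], [[0, 8], [1, 9], [2, 10], [14, 15, 16, 17, 18]], [[0, 6], [12, 7], [13, 8], [14, 15, 16, 9, 10]], [[0, 6], [12, 8], [2, 7, 10], [14, 15, 16, 9]], [[11, 17], [1, 18], [2, 19], [3, 4, 5, 20, 21]], [[11, 17], [1, 19], [13, 18, 21], [3, 4, 5, 20]], [[0, 8], [12, 7], [2, 6, 9], [14, 15, 16, 10]], [[11, 19], [1, 18], [13, 17, 20], [3, 4, 5, 21]], [[0, 8], [1, 9], [2, 10], [3, 4, 5, 6, 7]], [[11, 19], [12, 20], [13, 21], [14, 15, 16, 17, 18]], [[0, 3], [12, 4], [5, 6, 8], [2, 7, 9, 10]], [[0, 3], [2, 7], [12, 4, 5], [6, 8, 9, 10]], [[11, 14], [1, 15], [16,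 17, 19], [13, 18, 20, 21]], [[11, 14], [13, 18], [1, 15, 16], [17, 19, 20, 21]], [[0, 3], [12, 4], [5, 7, 8], [2, 6, 9, 10]], [[11, 4], [3, 5], [1, 2, 6], [7, 8, 9, 10]], [[11, 14], [1, 15], [16, 18, 19], [13, 17, 20, 21]], [[0, 15], [14, 16], [12, 13, 17], [18, 19, 20, 21]], [[0, 3], [2, 4], [12, 5, 7], [6, 8, 9, 10]], [[0, 6], [12, 7], [2, 4, 19], [3, 5, 20, 21]], [[11, 14], [13, 15], [1, 16, 18], [17, 19, 20, 21]], [[11, 17], [1, 18], [13, 15, 8], [14, 16, 9, 10]], [[11, 4], [5, 6], [1, 2, 3], [7, 8, 9, 10]], [[0, 6], [12, 7], [2, 3, 19], [4, 5, 20, 21]], [[0, 15], [16, 17], [12, 13, 14], [18, 19, 20, 21]], [[11, 17], [1, 18], [13, 14, 8], [15, 16, 9, 10]], [[0, 6], [12, 7], [2, 16, 10], [14, 15, 8, 9]], [[0, 6], [2, 10], [12, 7, 8], [14, 15, 16, 9]], [[11, 17], [1, 18], [13, 5, 21], [3, 4, 19, 20]], [[11, 17], [13, 21], [1, 18, 19], [3, 4, 5, 20]], [[0, 6], [12, 7], [2, 16,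 9], [14, 15, 8, 10]], [[11, 7], [1, 2, 9], [14, 15, 10], [5, 6, 8]], [[11, 17], [1, 18], [13, 5, 20], [3, 4, 19, 21]], [[0, 18], [12, 13, 20], [3, 4, 21], [16, 17, 19]], [[0, 6], [2, 7], [1, 16, 9], [14, 15, 8, 10]], [[0, 9], [12, 10], [5, 6, 8], [2, 3, 4, 7]], [[11, 17], [13, 18], [12, 5, 20], [3, 4, 19, 21]], [[11, 20], [1, 21], [16, 17, 19], [13, 14, 15, 18]], [[11, 7], [1, 2, 6], [14, 16, 10], [15, 8, 9]], [[0, 9], [12, 10], [5, 7, 8], [2, 3, 4, 6]], [[0, 18], [12, 13, 17], [3, 5, 21], [4, 19, 20]], [[11, 20], [1, 21], [16, 18, 19], [13, 14, 15, 17]], [[0, 3], [12, 4], [13, 5, 21], [17, 18, 19, 20]], [[11, 20], [1, 3, 19], [13, 5, 21], [4, 6, 7]], [[11, 14], [1, 15], [2, 16, 10], [6, 7, 8, 9]], [[0, 9], [12, 14, 8], [2, 16, 10], [15, 17, 18]], [[0, 3], [12, 4], [13, 5, 20], [17, 18, 19, 21]], [[0, 3], [12, 5, 20], [2, 4, 19], [17, 18, 21]], [[11, 14], [1, 15], [2, 16, 9],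 [6, 7, 8, 10]], [[11, 14], [1, 16, 9], [13, 15, 8], [6, 7, 10]], [[11, 20], [2, 4], [1, 19, 21], [3, 5, 6, 7]], [[0, 9], [13, 15], [12, 8, 10], [14, 16, 17, 18]], [[0, 3], [13, 21], [12, 4, 5], [17, 18, 19, 20]], [[11, 14], [2, 10], [1, 15, 16], [6, 7, 8, 9]], [[11, 20], [1, 21], [2, 3, 19], [4, 5, 6, 7]], [[11, 20], [1, 21], [2, 4, 19], [3, 5, 6, 7]], [[0, 9], [12, 10], [13, 14, 8], [15, 16, 17, 18]], [[0, 9], [12, 10], [13, 15, 8], [14, 16, 17, 18]]]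

def sd2 : SD where
  C := [0, 0, 1, 0, 3, 6, 0, 3, 30, 56, 59]
  S0 := 88298722330563533548015397696039232219429656592385172
  NB := 23511379972698412379934042968203152569441711374619457476720378037248053525273955994030241289971729847701325638642535624833671468754732964515193706
  nc := 153
  tb := tb2
  pl := pl2
  ni := [0, 9, 53, 57]
  Ns := [75, 6288, 57600, 983040]
  ord := true

theorem sd2_ok : sd2.chk = true := by decide +kernel

end Pool.Agent.H63.RP
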