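import Pool.Agent.H63.RP.Reps

/-!
Data: clauses over the graph with eleven pairs, class 3.
-/

set_option autoImplicit false
set_option maxRecDepth 100000
set_option maxHeartbeats 0

namespace Pool.Agent.H63.RP

def tb3 : LT := (.nd (.nd (.nd (.nd (.nd (.nd (.nd .lf [983040] .lf) [1060896] (.nd .lf [98818, 67074] .lf)) [2754560] (.nd (.nd .lf [2623492, 2623504] .lf) [434176] (.nd .lf [3801088, 3932160] .lf))) [215040] (.nd (.nd (.nd .lf [2119680, 2234368] .lf) [4272] (.nd .lf [1966080, 3014656] .lf)) [2692] (.nd (.nd .lf [2623504, 2621460] .lf) [49920] .lf))) [2103312] (.nd (.nd (.nd (.nd .lf [153600, 2119680] .lf) [20864] (.nd .lf [1052720, 3145776] .lf)) [68100] (.nd (.nd .lf [526356, 2621460] .lf) [245760] .lf)) [19072] (.nd (.nd (.nd .lf [2234368, 2248704] .lf) [188416] (.nd .lf [3014656, 3801088] .lf)) [28928] (.nd (.nd .lf [3149840, 2101296] .lf) [491520] .lf)))) [22656]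 (.nd (.nd (.nd (.nd (.nd .lf [75, 1097] .lf) [12576] (.nd .lf [1052720, 2101296] .lf)) [591876] (.nd (.nd .lf [41217, 42240] .lf) [1449984] .lf)) [84480] (.nd (.nd (.nd .lf [1091, 1098] .lf) [4512] (.nd .lf [1966080, 3932160] .lf)) [159744] (.nd (.nd .lf [34306, 67074] .lf) [17280] .lf))) [6288] (.nd (.nd (.nd (.nd .lf [153600, 2248704] .lf) [3280896] (.nd .lf [960, 1728] .lf)) [2196] (.nd (.nd .lf [2099220, 2623504] .lf) [115200] .lf)) [722944] (.nd (.nd (.nd .lf [9473, 34049] .lf) [57600] (.nd .lf [3538944, 3801088] .lf)) [1191936] (.nd (.nd .lf [3149840, 3145776] .lf) [34560] .lf))))) [262155] (.nd (.nd (.nd (.nd (.nd (.nd .lf [75, 1035] .lf) [589830] (.nd .lf [98818, 99840] .lf)) [8481] (.nd (.nd .lf [41217, 41985] .lf) [708] .lf)) [1048617] (.nd (.nd (.nd .lf [1091, 1097] .lf) [851970] (.nd .lf [1966080, 3538944] .lf)) [78] (.nd (.nd .lf [34306, 99330] .lf) [1835016] .lf)))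 [294915] (.nd (.nd (.nd (.nd .lf [153600, 2246656] .lf) [1602] (.nd .lf [960, 1472] .lf)) [303105] (.nd (.nd .lf [41985, 34049] .lf) [1048632] .lf)) [353] (.nd (.nd (.nd .lf [9473, 41217] .lf) [524316] (.nd .lf [1728, 1856] .lf)) [582] (.nd (.nd .lf [3149840, 3149856] .lf) [3670032] .lf)))) [33795] (.nd (.nd (.nd (.nd (.nd .lf [75, 1098] .lf) [786442] (.nd .lf [1052720, 3149856] .lf)) [1056801] (.nd (.nd .lf [526356, 2099220] .lf) [120] .lf)) [1310729] (.nd (.nd (.nd .lf [2234368, 2246656] .lf) [92] (.nd .lf [1472, 1856] .lf)) [524302] (.nd (.nd .lf [34306, 99840] .lf) [240] .lf))) [105] (.nd (.nd (.nd (.nd .lf [1035, 1091] .lf) [360450] (.nd .lf [960, 1920] .lf)) [1318913] (.nd (.nd .lf [34049, 42240] .lf) [1572888] .lf)) [1345] (.nd (.nd (.nd .lf [2623492, 526356] .lf) [212] (.nd .lf [1856, 1920] .lf)) [66054] (.nd (.nd .lf [98818, 99330] .lf) [480] .lf))))))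

def pl3 : List (List (List ℕ)) := [[[0], [1, 2], [3, 4, 5], [17, 18, 19, 20, 21]], [[11], [12, 13], [14, 15, 16], [6, 7, 8, 9, 10]], [[0], [1, 2], [14, 15, 16], [6, 7, 8, 9, 10]], [[11], [12, 13], [3, 4, 5], [17, 18, 19, 20, 21]], [[0], [1, 2], [14, 15, 16], [17, 18, 19, 20, 21]], [[11], [12, 13], [3, 4, 5], [6, 7, 8, 9, 10]], [[0], [12, 5], [2, 3, 4], [6, 7, 8, 9, 10]], [[11], [1, 16], [13, 14, 15], [17, 18, 19, 20, 21]], [[0], [12, 5], [2, 3, 4], [17, 18, 19, 20, 21]], [[11], [1, 16], [13, 14, 15], [6, 7, 8, 9, 10]], [[0], [1, 2, 3], [15, 16, 18], [17, 19, 20, 21]], [[11], [12, 13, 14], [4, 5, 7], [6, 8, 9, 10]], [[0], [12, 5], [2, 3, 4, 6], [7, 8, 9, 10]], [[11], [1, 16], [13, 14, 15, 17], [18, 19, 20, 21]], [[0], [1, 2, 6], [14, 7, 8], [15, 16, 9, 10]], [[11], [12, 13, 17], [3, 18, 19], [4, 5, 20, 21]], [[0], [12, 13], [3, 4, 5], [6, 7, 8, 9, 10]], [[11], [1, 2], [14, 15,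 16], [17, 18, 19, 20, 21]], [[0], [12, 13], [3, 4, 5], [17, 18, 19, 20, 21]], [[11], [1, 2], [14, 15, 16], [6, 7, 8, 9, 10]], [[0], [12, 13], [14, 15, 16], [17, 18, 19, 20, 21]], [[11], [1, 2], [3, 4, 5], [6, 7, 8, 9, 10]], [[0], [12, 13], [3, 4, 5, 20], [17, 18, 19, 21]], [[11], [1, 2], [14, 15, 16, 9], [6, 7, 8, 10]], [[2], [0, 1], [3, 4, 5], [6, 7, 8, 9, 10]], [[13], [11, 12], [14, 15, 16], [17, 18, 19, 20, 21]], [[2], [0, 1], [3, 4, 5], [17, 18, 19, 20, 21]], [[13], [11, 12], [14, 15, 16], [6, 7, 8, 9, 10]], [[2], [0, 1], [3, 4, 5, 6], [7, 8, 9, 10]], [[13], [11, 12], [14, 15, 16, 17], [18, 19, 20, 21]], [[2], [0, 1], [14, 15, 16], [6, 7, 8, 9, 10]], [[13], [11, 12], [3, 4, 5], [17, 18, 19, 20, 21]], [[2], [0, 1], [14, 15, 16], [17, 18, 19, 20, 21]], [[13], [11, 12], [3, 4, 5], [6, 7, 8, 9, 10]], [[0, 1], [13, 18], [17, 19, 21], [3, 4, 5, 20]], [[11, 12], [2, 7], [6, 8,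 10], [14, 15, 16, 9]], [[0, 1], [2, 6], [7, 8, 10], [14, 15, 16, 9]], [[11, 12], [13, 17], [18, 19, 21], [3, 4, 5, 20]], [[0, 1], [13, 15], [14, 16], [17, 18, 19, 20, 21]], [[11, 12], [2, 4], [3, 5], [6, 7, 8, 9, 10]], [[0, 1], [13, 18], [14, 15, 16], [17, 19, 20, 21]], [[11, 12], [2, 7], [3, 4, 5], [6, 8, 9, 10]], [[0, 3], [1, 2], [4, 5], [6, 7, 8, 9, 10]], [[11, 14], [12, 13], [15, 16], [17, 18, 19, 20, 21]], [[0, 3], [1, 2], [4, 5], [17, 18, 19, 20, 21]], [[11, 14], [12, 13], [15, 16], [6, 7, 8, 9, 10]], [[0, 6], [1, 2], [14, 7, 8], [4, 5, 20, 21]], [[11, 17], [12, 13], [3, 18, 19], [15, 16, 9, 10]], [[0, 6], [1, 2], [14, 7, 8], [15, 16, 9, 10]], [[11, 17], [12, 13], [3, 18, 19], [4, 5, 20, 21]], [[0, 3], [12, 4], [13, 5], [6, 7, 8, 9, 10]], [[11, 14], [1, 15], [2, 16], [17, 18, 19, 20, 21]], [[0, 3], [12, 20], [2, 4, 21], [5, 6, 7, 8]], [[11, 14], [1, 9], [13, 15, 10], [16,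 17, 18, 19]], [[0, 3], [12, 20], [2, 4, 21], [16, 17, 18, 19]], [[11, 14], [1, 9], [13, 15, 10], [5, 6, 7, 8]], [[0, 3], [12, 20], [2, 19, 21], [15, 16, 17, 18]], [[11, 14], [1, 9], [13, 8, 10], [4, 5, 6, 7]], [[0, 5], [1, 6], [2, 4, 21], [14, 7, 8, 9]], [[11, 16], [12, 17], [13, 15, 10], [3, 18, 19, 20]], [[11, 19], [12, 21], [13, 18, 20], [3, 4, 5, 6]], [[0, 8], [1, 10], [2, 7, 9], [14, 15, 16, 17]], [[0, 5], [1, 6], [14, 7, 9], [13, 15, 8, 10]], [[11, 16], [12, 17], [3, 18, 20], [2, 4, 19, 21]], [[0], [1, 2], [3, 4, 5], [6, 7, 8, 9, 10]], [[0], [1, 9, 10], [2, 3, 4], [5, 6, 7, 8]], [[0, 10], [1, 2], [3, 4, 5], [6, 7, 8, 9]], [[11], [12, 13], [14, 15, 16], [17, 18, 19, 20, 21]], [[11], [12, 20, 21], [13, 14, 15], [16, 17, 18, 19]], [[11, 21], [12, 13], [14, 15, 16], [17, 18, 19, 20]], [[0], [1, 2], [3, 4, 5, 6], [7, 8, 9, 10]], [[11], [12, 13], [14, 15, 16, 17], [18, 19, 20,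 21]], [[0], [1, 2, 3], [4, 5, 6], [7, 8, 9, 10]], [[0, 3], [1, 2], [4, 5, 6], [7, 8, 9, 10]], [[11], [12, 13, 14], [15, 16, 17], [18, 19, 20, 21]], [[11, 14], [12, 13], [15, 16, 17], [18, 19, 20, 21]], [[0], [12, 13, 14], [15, 16, 10], [6, 7, 8, 9]], [[0], [12, 14, 8], [16, 9, 10], [13, 15, 17, 18]], [[11], [1, 2, 3], [4, 5, 21], [17, 18, 19, 20]], [[11], [1, 3, 19], [5, 20, 21], [2, 4, 6, 7]], [[0], [12, 13], [14, 15, 16], [6, 7, 8, 9, 10]], [[0, 10], [12, 13], [14, 15, 16], [6, 7, 8, 9]], [[11], [1, 2], [3, 4, 5], [17, 18, 19, 20, 21]], [[11, 21], [1, 2], [3, 4, 5], [17, 18, 19, 20]], [[0], [12, 13, 8], [14, 15, 16], [6, 7, 9, 10]], [[11], [1, 2, 19], [3, 4, 5], [17, 18, 20, 21]], [[0, 13], [1, 10], [14, 15, 16], [6, 7, 8, 9]], [[11, 2], [12, 21], [3, 4, 5], [17, 18, 19, 20]], [[0, 1], [13, 15], [14, 16, 9], [6, 7, 8, 10]], [[0, 1], [2, 9], [14, 15, 16], [6, 7, 8, 10]], [[0,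 10], [1, 16], [13, 14, 15], [6, 7, 8, 9]], [[11, 12], [2, 4], [3, 5, 20], [17, 18, 19, 21]], [[11, 12], [13, 20], [3, 4, 5], [17, 18, 19, 21]], [[11, 21], [12, 5], [2, 3, 4], [17, 18, 19, 20]], [[0, 1], [13, 15], [14, 16], [6, 7, 8, 9, 10]], [[0, 1], [14, 16], [13, 15, 10], [6, 7, 8, 9]], [[11, 16], [1, 10], [13, 14, 15], [6, 7, 8, 9]], [[11, 12], [2, 4], [3, 5], [17, 18, 19, 20, 21]], [[11, 12], [3, 5], [2, 4, 21], [17, 18, 19, 20]], [[0, 5], [12, 21], [2, 3, 4], [17, 18, 19, 20]], [[0, 6], [12, 7], [13, 14, 8], [15, 16, 9, 10]], [[0, 6], [12, 7], [13, 8, 10], [14, 15, 16, 9]], [[0, 8], [1, 2, 9], [3, 6, 10], [4, 5, 7]], [[11, 17], [1, 18], [2, 3, 19], [4, 5, 20, 21]], [[11, 17], [1, 18], [2, 19, 21], [3, 4, 5, 20]], [[11, 19], [12, 13, 20], [14, 17, 21], [15, 16, 18]], [[0, 6], [12, 13, 8], [14, 7, 9], [15, 16, 10]], [[11, 17], [1, 2, 19], [3, 18, 20], [4, 5, 21]], [[0, 6],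 [1, 2, 9], [14, 7, 8], [15, 16, 10]], [[11, 17], [12, 13, 20], [3, 18, 19], [4, 5, 21]], [[0, 8], [1, 10], [2, 6, 7], [14, 15, 16, 9]], [[11, 19], [12, 21], [13, 17, 18], [3, 4, 5, 20]]]

def sd3 : SD where
  C := [0, 0, 1, 0, 3, 6, 0, 11, 30, 57, 52]
  S0 := 77822690012157168394922416421080160728130223297528468
  NB := 23682017231052335609923942403129983174402315295693171207127786450568583689346012105027932186084002806262403772971579889734332181265674365341836650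
  nc := 111
  tb := tb3
  pl := pl3
  ni := [0, 13, 31, 46, 55]
  Ns := [262155, 722944, 1060896, 212, 49920]
  ord := false

theorem sd3_ok : sd3.chk = true := by decide +kernel

end Pool.Agent.H63.RP
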